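import Pool.Agent.H44.RR.LaD

/-!
# Module UNI: expanding sets consist of points with uniformly expanding orbits

PROOFS. `two_pt`: by `good_U` (H35/EX/GoodU) with `U = univ` and `S = {f^[j] x | j ≤ N}` (finite) there is a chart `s, φ` with `g = Rf (Lin s v0)`, `w0 = Lin s v0`, in which `w_j = φ (f^[j] x)`, `j ≤ N`, are finite;
`w = w_0`. As in `exp_conj` (H35/EX/ExpConj): for `u` near `w` the denominators `ev w0.2 (it w0 j u)`, `j < N`, do not vanish (`orb_near`), `φ (f^[N] (φ.symm u)) = it w0 N u` (`rat_it`, `iter_conj`) and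
`chord` is `‖a - b‖ / (hs s a * hs s b)` (`chord_phi`). `F = it w0 N` is analytic near `w` (`tr_hasDerivAt` or `orb_deriv` gives the derivative `trD w0 N u` at all `u` near `w`), so it has a strict derivative `D = trD w0 N w` at `w`
(`AnalyticAt.hasStrictDerivAt` or `ContDiffAt.hasStrictDerivAt`). The hypothesis and `expConj_lim` (private in ExpConj: copy it) give `q * (hs (F w))^2 / (hs w)^2 ≤ ‖D‖`. For `u, u'` near `w`: `‖F u - F u'‖ ≥ (‖D‖ - ε) ‖u - u'‖`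
(strict derivative), and `hs s (F u) * hs s (F u') / (hs s u * hs s u')` tends to `(hs (F w))^2 / (hs w)^2 > 0`, so `q' * ‖u - u'‖ / (hs u * hs u') ≤ ‖F u - F u'‖ / (hs (F u) * hs (F u'))` for `u, u'` near `w`, as `q' < q`
(choose `ε` small). Take `U = φ.symm '' (coe '' neighbourhood)`.
`la_of_expd`: `N, q` from `Expd`; `l` with `q' = 1 + 1 / (l + 1) < q`; for `x ∈ K` let `U x` be the interior of the set of `two_pt` (open, `x ∈ U x`). The set `C = {(x, y) | x ∈ K} \ ⋃ x ∈ K, U x ×ˢ U x` is compact in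
`OnePoint ℂ × OnePoint ℂ`, and `chord > 0` on it (`chord_pos`: if `x = y` then `(x, x) ∈ U x ×ˢ U x`). If `C` is empty `k = 0`, else `k` with `1 / (k + 1) < ` the minimum of `chord` on `C` (`chord_cont`). For `x ∈ K`, `j`: `f^[j] x ∈ K`; if `chord (f^[j] x) y < 1 / (k + 1)` then
`(f^[j] x, y) ∉ C`, so both points are in some `U x'`: `two_pt`.
-/

set_option autoImplicit false

open Filter Topology Polynomial Metric Set

namespace Pool.Agent.H44.RR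

open Pool.Agent.H44.Fatou Pool.Agent.H32.BT Pool.Agent.H35.EX Pool.Agent.H79.Eul
open Pool.Agent.H79.Par Pool.Agent.H79.PJ

/-- from the local expansion of `‖a - b‖ / (hs s a * hs s b)` to the derivative -/
private theorem uni_lim {s : ℂ} {F : ℂ → ℂ} {D w : ℂ} {q : ℝ} (hF : HasDerivAt F D w)
    (h : ∀ᶠ u in 𝓝 w, q * (‖w - u‖ / (hs s w * hs s u)) ≤
      ‖F w - F u‖ / (hs s (F w) * hs s (F u))) :
    q * ((hs s (F w) * hs s (F w)) / (hs s w * hs s w)) ≤ ‖D‖ := by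
  have h1 : Tendsto (fun u => ‖slope F w u‖) (𝓝[≠] w) (𝓝 ‖D‖) :=
    (hasDerivAt_iff_tendsto_slope.1 hF).norm
  have h2 : Tendsto (fun u => hs s u) (𝓝[≠] w) (𝓝 (hs s w)) :=
    ((hs_cont s).tendsto w).mono_left nhdsWithin_le_nhds
  have h3 : Tendsto (fun u => hs s (F u)) (𝓝[≠] w) (𝓝 (hs s (F w))) :=
    (((hs_cont s).tendsto (F w)).comp hF.continuousAt).mono_left nhdsWithin_le_nhds
  have h4 : Tendsto (fun u => q * ((hs s (F w) * hs s (F u)) / (hs s w * hs s u))) (𝓝[≠] w)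
      (𝓝 (q * ((hs s (F w) * hs s (F w)) / (hs s w * hs s w)))) := by
    refine Tendsto.const_mul q (Tendsto.div (h3.const_mul _) (h2.const_mul _) ?_)
    have := hs_pos s w
    positivity
  refine le_of_tendsto_of_tendsto h4 h1 ?_
  have h5 : ∀ᶠ u in 𝓝[≠] w, u ≠ w := eventually_mem_nhdsWithin
  filter_upwards [h5, h.filter_mono nhdsWithin_le_nhds] with u hu hu2
  have p1 := hs_pos s w
  have p2 := hs_pos s u
  have p3 := hs_pos s (F w)
  have p4 := hs_pos s (F u)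
  have p5 : 0 < ‖w - u‖ := norm_pos_iff.2 (sub_ne_zero.2 hu.symm)
  have h6 : ‖slope F w u‖ = ‖F w - F u‖ / ‖w - u‖ := by
    rw [slope_def_field, norm_div, ← norm_neg (F u - F w), ← norm_neg (u - w), neg_sub, neg_sub]
  rw [h6, le_div_iff₀ p5]
  rw [le_div_iff₀ (by positivity)] at hu2
  calc q * (hs s (F w) * hs s (F u) / (hs s w * hs s u)) * ‖w - u‖
      = q * (‖w - u‖ / (hs s w * hs s u)) * (hs s (F w) * hs s (F u)) := by ring
    _ ≤ ‖F w - F u‖ := hu2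

/-- the two variable version for a map with a strict derivative -/
private theorem uni_strict {s : ℂ} {F : ℂ → ℂ} {D w : ℂ} {q q' : ℝ} (hF : HasStrictDerivAt F D w)
    (hq : q' < q) (h : q * ((hs s (F w) * hs s (F w)) / (hs s w * hs s w)) ≤ ‖D‖) :
    ∀ᶠ p : ℂ × ℂ in 𝓝 (w, w), q' * (‖p.1 - p.2‖ / (hs s p.1 * hs s p.2)) ≤
      ‖F p.1 - F p.2‖ / (hs s (F p.1) * hs s (F p.2)) := by
  have p1 := hs_pos s w
  have p3 := hs_pos s (F w)
  have h1 : q' * ((hs s (F w) * hs s (F w)) / (hs s w * hs s w)) < ‖D‖ :=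
    lt_of_lt_of_le (mul_lt_mul_of_pos_right hq (by positivity)) h
  obtain ⟨m, hm1, hm2⟩ := exists_between h1
  have hFc : ContinuousAt F w := hF.hasDerivAt.continuousAt
  have c1 : Tendsto (fun p : ℂ × ℂ => hs s p.1) (𝓝 (w, w)) (𝓝 (hs s w)) :=
    ((hs_cont s).comp continuous_fst).tendsto (w, w)
  have c2 : Tendsto (fun p : ℂ × ℂ => hs s p.2) (𝓝 (w, w)) (𝓝 (hs s w)) :=
    ((hs_cont s).comp continuous_snd).tendsto (w, w)
  have c3 : Tendsto (fun p : ℂ × ℂ => hs s (F p.1)) (𝓝 (w, w)) (𝓝 (hs s (F w))) :=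
    ((hs_cont s).tendsto (F w)).comp (hFc.tendsto.comp (continuous_fst.tendsto (w, w)))
  have c4 : Tendsto (fun p : ℂ × ℂ => hs s (F p.2)) (𝓝 (w, w)) (𝓝 (hs s (F w))) :=
    ((hs_cont s).tendsto (F w)).comp (hFc.tendsto.comp (continuous_snd.tendsto (w, w)))
  have c5 : Tendsto (fun p : ℂ × ℂ => q' * ((hs s (F p.1) * hs s (F p.2)) / (hs s p.1 * hs s p.2)))
      (𝓝 (w, w)) (𝓝 (q' * ((hs s (F w) * hs s (F w)) / (hs s w * hs s w)))) := by
    refine Tendsto.const_mul q' (Tendsto.div (c3.mul c4) (c1.mul c2) ?_)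
    positivity
  have e1 := c5.eventually (gt_mem_nhds hm1)
  have e2 := hF.isLittleO.def (sub_pos.2 hm2)
  filter_upwards [e1, e2] with p hp1 hp2
  have k1 := hs_pos s p.1
  have k2 := hs_pos s p.2
  have k3 := hs_pos s (F p.1)
  have k4 := hs_pos s (F p.2)
  have hp3 : ‖F p.1 - F p.2 - (p.1 - p.2) * D‖ ≤ (‖D‖ - m) * ‖p.1 - p.2‖ := by
    simpa [smul_eq_mul] using hp2
  have h5 : m * ‖p.1 - p.2‖ ≤ ‖F p.1 - F p.2‖ := by
    have h6 : ‖(p.1 - p.2) * D‖ ≤ ‖F p.1 - F p.2‖ + ‖F p.1 - F p.2 - (p.1 - p.2) * D‖ := by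
      have := norm_sub_le (F p.1 - F p.2) (F p.1 - F p.2 - (p.1 - p.2) * D)
      rwa [sub_sub_cancel] at this
    rw [norm_mul] at h6
    nlinarith [norm_nonneg (p.1 - p.2)]
  rw [le_div_iff₀ (by positivity)]
  calc q' * (‖p.1 - p.2‖ / (hs s p.1 * hs s p.2)) * (hs s (F p.1) * hs s (F p.2))
      = q' * ((hs s (F p.1) * hs s (F p.2)) / (hs s p.1 * hs s p.2)) * ‖p.1 - p.2‖ := by ring
    _ ≤ m * ‖p.1 - p.2‖ := mul_le_mul_of_nonneg_right hp1.le (norm_nonneg _)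
    _ ≤ ‖F p.1 - F p.2‖ := h5

theorem two_pt {d : ℕ} (hd : 2 ≤ d) {v0 : E d} (hcop : IsCoprime (pol v0.1) (pol v0.2))
    (hdeg : max (pol v0.1).natDegree (pol v0.2).natDegree = d) {N : ℕ} {q q' : ℝ}
    (hq0 : 0 < q') (hq : q' < q) {x : OnePoint ℂ}
    (h : ∀ᶠ y in 𝓝 x, q * chord x y ≤ chord ((Rf v0)^[N] x) ((Rf v0)^[N] y)) :
    ∃ U ∈ 𝓝 x, ∀ y ∈ U, ∀ y' ∈ U,
      q' * chord y y' ≤ chord ((Rf v0)^[N] y) ((Rf v0)^[N] y') := by
  obtain ⟨s, φ, hsS, -, hφs, hφ, hφi, hconj, hcop1, hdeg1⟩ := good_U hd hcop hdeg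
    (S := Set.range (fun j : ℕ => (Rf v0)^[j] x)) (Set.countable_range _) isOpen_univ univ_nonempty
  set w0 : E d := Lin s v0 with hw0
  have hcit : ∀ (n : ℕ) (y : OnePoint ℂ), (Rf w0)^[n] (φ y) = φ ((Rf v0)^[n] y) :=
    fun n y => iter_conj φ hconj n y
  have hne : ∀ j : ℕ, (Rf w0)^[j] (φ x) ≠ OnePoint.infty := by
    intro j hj
    rw [hcit, ← hφs] at hj
    exact hsS ⟨j, φ.injective hj⟩
  obtain ⟨w, hw⟩ := OnePoint.ne_infty_iff_exists.1 (hne 0)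
  have hxw : φ x = (w : OnePoint ℂ) := hw.symm
  rw [hxw] at hne
  obtain ⟨ho, hit⟩ := orb_all hne
  have hc : Tendsto (fun u : ℂ => (w0, u)) (𝓝 w) (𝓝 (w0, w)) :=
    (continuous_const.prodMk continuous_id).tendsto _
  have hnear : ∀ᶠ u : ℂ in 𝓝 w, ∀ j < N, ev w0.2 (it w0 j u) ≠ 0 :=
    hc.eventually (orb_near (ho N))
  have hstep : ∀ᶠ u in 𝓝 w, q * (‖w - u‖ / (hs s w * hs s u)) ≤
      ‖it w0 N w - it w0 N u‖ / (hs s (it w0 N w) * hs s (it w0 N u)) := by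
    have h1 : Tendsto (fun u : ℂ => φ.symm (u : OnePoint ℂ)) (𝓝 w) (𝓝 x) := by
      have h2 : φ.symm ((w : ℂ) : OnePoint ℂ) = x := by rw [← hxw, φ.symm_apply_apply]
      rw [← h2]
      exact (φ.symm.continuous.comp OnePoint.continuous_coe).tendsto w
    filter_upwards [h1.eventually h, hnear] with u hu1 hu3
    have e1 : φ (φ.symm (u : OnePoint ℂ)) = (u : OnePoint ℂ) := φ.apply_symm_apply _
    have e2 : φ ((Rf v0)^[N] x) = ((it w0 N w : ℂ) : OnePoint ℂ) := by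
      rw [← hcit, hxw, hit N]
    have e3 : φ ((Rf v0)^[N] (φ.symm (u : OnePoint ℂ))) = ((it w0 N u : ℂ) : OnePoint ℂ) := by
      rw [← hcit, e1, rat_it hu3]
    rw [chord_phi hφs hφ hφi hxw e1, chord_phi hφs hφ hφi e2 e3] at hu1
    exact hu1
  have hder : ∀ᶠ u in 𝓝 w, HasDerivAt (fun z => it w0 N z) (trD w0 N u) u := by
    filter_upwards [hnear] with u hu
    exact tr_hasDerivAt w0 u N hu
  have hcont : ContinuousAt (fun u => trD w0 N u) w := by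
    have h1 := trD_cont w0 (fun j => it w0 j w) N (fun j hj => (ho N j hj).1)
      (fun j hj => rfl) N le_rfl
    exact ContinuousAt.comp (f := fun u : ℂ => (w0, u))
      (g := fun y : ((Fin (d + 1) → ℂ) × (Fin (d + 1) → ℂ)) × ℂ => trD y.1 N y.2) h1 hc
  have hst : HasStrictDerivAt (fun z => it w0 N z) (trD w0 N w) w :=
    hasStrictDerivAt_of_hasDerivAt_of_continuousAt hder hcont
  have hlim := uni_lim hst.hasDerivAt hstep
  have htwo := uni_strict hst hq hlim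
  rw [nhds_prod_eq] at htwo
  obtain ⟨V, hV, hVp⟩ := Filter.eventually_prod_self_iff (r := fun a b : ℂ =>
    q' * (‖a - b‖ / (hs s a * hs s b)) ≤
      ‖it w0 N a - it w0 N b‖ / (hs s (it w0 N a) * hs s (it w0 N b))) |>.1 htwo
  have hV2 : V ∩ {u | ∀ j < N, ev w0.2 (it w0 j u) ≠ 0} ∈ 𝓝 w := inter_mem hV hnear
  refine ⟨φ ⁻¹' ((fun u : ℂ => (u : OnePoint ℂ)) ''
    (V ∩ {u | ∀ j < N, ev w0.2 (it w0 j u) ≠ 0})), ?_, ?_⟩
  · apply φ.continuous.continuousAt.preimage_mem_nhds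
    rw [hxw, OnePoint.nhds_coe_eq]
    exact image_mem_map hV2
  · rintro y ⟨u, ⟨hu1, hu2⟩, hu3⟩ y' ⟨u', ⟨hu1', hu2'⟩, hu3'⟩
    have e1 : φ y = (u : OnePoint ℂ) := hu3.symm
    have e1' : φ y' = (u' : OnePoint ℂ) := hu3'.symm
    have e2 : φ ((Rf v0)^[N] y) = ((it w0 N u : ℂ) : OnePoint ℂ) := by
      rw [← hcit, e1, rat_it hu2]
    have e2' : φ ((Rf v0)^[N] y') = ((it w0 N u' : ℂ) : OnePoint ℂ) := by
      rw [← hcit, e1', rat_it hu2']
    rw [chord_phi hφs hφ hφi e1 e1', chord_phi hφs hφ hφi e2 e2']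
    exact hVp u hu1 u' hu1'

theorem la_of_expd {d : ℕ} (hd : 2 ≤ d) {v0 : E d} (hcop : IsCoprime (pol v0.1) (pol v0.2))
    (hdeg : max (pol v0.1).natDegree (pol v0.2).natDegree = d) {K : Set (OnePoint ℂ)}
    (hK : Expd (Rf v0) K) : ∃ N l k : ℕ, ∀ x ∈ K,
      La N (1 + 1 / ((l : ℝ) + 1)) (1 / ((k : ℝ) + 1)) (Rf v0) x := by
  obtain ⟨hKc, hKm, N, q, hq, hex⟩ := hK
  obtain ⟨l, hl⟩ := exists_nat_one_div_lt (sub_pos.2 hq)
  have hl2 : 1 + 1 / ((l : ℝ) + 1) < q := by linarith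
  have hl0 : (0 : ℝ) < 1 + 1 / ((l : ℝ) + 1) := by positivity
  have h1 : ∀ x : K, ∃ U ∈ 𝓝 (x : OnePoint ℂ), ∀ y ∈ U, ∀ y' ∈ U,
      (1 + 1 / ((l : ℝ) + 1)) * chord y y' ≤ chord ((Rf v0)^[N] y) ((Rf v0)^[N] y') :=
    fun x => two_pt hd hcop hdeg hl0 hl2 (hex x x.2)
  choose U hU hUp using h1
  set C : Set (OnePoint ℂ × OnePoint ℂ) :=
    (K ×ˢ univ) ∩ (⋃ x : K, interior (U x) ×ˢ interior (U x))ᶜ with hC
  have hCc : IsCompact C := by
    apply IsClosed.isCompact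
    apply IsClosed.inter (hKc.isClosed.prod isClosed_univ)
    rw [isClosed_compl_iff]
    exact isOpen_iUnion fun x => isOpen_interior.prod isOpen_interior
  have h2 : ∃ k : ℕ, ∀ p ∈ C, 1 / ((k : ℝ) + 1) ≤ chord p.1 p.2 := by
    rcases C.eq_empty_or_nonempty with hem | hne
    · refine ⟨0, fun p hp => ?_⟩
      rw [hem] at hp
      exact absurd hp (Set.notMem_empty p)
    · obtain ⟨p, hp, hmin⟩ := hCc.exists_isMinOn hne chord_cont.continuousOn
      have hpos : 0 < chord p.1 p.2 := by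
        apply chord_pos
        intro heq
        apply hp.2
        rw [Set.mem_iUnion]
        have h3 : p.1 ∈ interior (U ⟨p.1, hp.1.1⟩) := mem_interior_iff_mem_nhds.2 (hU ⟨p.1, hp.1.1⟩)
        refine ⟨⟨p.1, hp.1.1⟩, h3, ?_⟩
        rw [← heq]
        exact h3
      obtain ⟨k, hk⟩ := exists_nat_one_div_lt hpos
      exact ⟨k, fun p' hp' => hk.le.trans (hmin hp')⟩
  obtain ⟨k, hk⟩ := h2
  refine ⟨N, l, k, fun x hx j y hy => ?_⟩
  have h3 : (Rf v0)^[j] x ∈ K := hKm.iterate j hx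
  have h4 : (((Rf v0)^[j] x, y) : OnePoint ℂ × OnePoint ℂ) ∉ C := fun h5 =>
    absurd (hk _ h5) (not_le.2 hy)
  have h5 : (((Rf v0)^[j] x, y) : OnePoint ℂ × OnePoint ℂ) ∈
      ⋃ x : K, interior (U x) ×ˢ interior (U x) := by
    by_contra h6
    exact h4 ⟨⟨h3, Set.mem_univ _⟩, h6⟩
  rw [Set.mem_iUnion] at h5
  obtain ⟨x', h6, h7⟩ := h5
  exact hUp x' _ (interior_subset h6) _ (interior_subset h7)

end Pool.Agent.H44.RR
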