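import Pool.Agent.H44.RR.PDF
import Pool.Agent.H79.Par.ChartNull
import Pool.Agent.H35.EX.GoodU

/-!
# Module CHT: good charts
-/

set_option autoImplicit false

open Filter Topology Polynomial Metric Set

namespace Pool.Agent.H44.RR

open Pool.Agent.H44.Fatou Pool.Agent.H32.BT Pool.Agent.H79.Eul Pool.Agent.H79.Par
open Pool.Agent.H35.EX Pool.Agent.H32.RB

theorem chart_ex {d : ℕ} (hd : 2 ≤ d) {v0 : E d} (hcop : IsCoprime (pol v0.1) (pol v0.2))
    (hdeg : max (pol v0.1).natDegree (pol v0.2).natDegree = d) {U : Set (OnePoint ℂ)}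
    (hU : IsOpen U) (hUn : U.Nonempty) :
    ∃ (s : ℂ) (φ : OnePoint ℂ ≃ₜ OnePoint ℂ), (s : OnePoint ℂ) ∈ U ∧ φ s = OnePoint.infty ∧
      (∀ z : ℂ, z ≠ s → φ (z : OnePoint ℂ) = (((z - s)⁻¹ : ℂ) : OnePoint ℂ)) ∧
      φ OnePoint.infty = ((0 : ℂ) : OnePoint ℂ) ∧
      (∀ v : E d, IsCoprime (pol v.1) (pol v.2) →
        max (pol v.1).natDegree (pol v.2).natDegree = d →
        IsCoprime (pol (Lin s v).1) (pol (Lin s v).2) ∧
        max (pol (Lin s v).1).natDegree (pol (Lin s v).2).natDegree = d ∧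
        ∀ x, Rf (Lin s v) (φ x) = φ (Rf v x)) ∧
      Chart1 (Lin s v0) := by
  have hd1 : 1 ≤ max (pol v0.1).natDegree (pol v0.2).natDegree := by rw [hdeg]; omega
  have hfin : {c | IsCrit (Rf v0) c}.Finite := crit_finite hcop hd1
  obtain ⟨S, hS⟩ : ∃ S : Set (OnePoint ℂ), S =
      ⋃ c ∈ {c | IsCrit (Rf v0) c}, ⋃ j : ℕ, {x | Rf v0 x = (Rf v0)^[j] c} := ⟨_, rfl⟩
  have hScount : S.Countable := by
    rw [hS]
    refine hfin.countable.biUnion fun c _ => Set.countable_iUnion fun j => ?_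
    exact (rat_fiber_finite hcop hd1 _).countable
  have hden : DenseRange ((↑) : ℂ → OnePoint ℂ) := OnePoint.denseRange_coe
  have hne : (((↑) : ℂ → OnePoint ℂ) ⁻¹' U).Nonempty := by
    obtain ⟨y, hy⟩ := hden.exists_mem_open hU hUn
    exact ⟨y, hy⟩
  have hop : IsOpen (((↑) : ℂ → OnePoint ℂ) ⁻¹' U) := hU.preimage OnePoint.continuous_coe
  have hbad : {b : ℂ | (b : OnePoint ℂ) ∈ S}.Countable := countable_coe hScount
  obtain ⟨s, hsU, hsS⟩ := (hbad.dense_compl ℂ).inter_open_nonempty _ hop hne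
  obtain ⟨φ, hφ1, hφs, hφi, hφ⟩ := exists_mob s
  have hall : ∀ v : E d, IsCoprime (pol v.1) (pol v.2) →
      max (pol v.1).natDegree (pol v.2).natDegree = d →
      IsCoprime (pol (Lin s v).1) (pol (Lin s v).2) ∧
      max (pol (Lin s v).1).natDegree (pol (Lin s v).2).natDegree = d ∧
      ∀ x, Rf (Lin s v) (φ x) = φ (Rf v x) := by
    intro v hc he
    obtain ⟨h1, h2, h3⟩ := hφ d _ _ hc he (by omega)
    unfold Rf
    rw [chartNull_pol1, chartNull_pol2]
    exact ⟨h1, h2, h3⟩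
  have hsS' : ∀ c, IsCrit (Rf v0) c → ∀ j, Rf v0 (s : OnePoint ℂ) ≠ (Rf v0)^[j] c := by
    intro c hc j hj
    apply hsS
    show (s : OnePoint ℂ) ∈ S
    rw [hS, Set.mem_iUnion₂]
    exact ⟨c, hc, Set.mem_iUnion.2 ⟨j, hj⟩⟩
  obtain ⟨hcop', hdeg', hconj⟩ := hall v0 hcop hdeg
  refine ⟨s, φ, hsU, hφs, hφ1, hφi, hall, hcop', hdeg', ?_, ?_, ?_⟩
  · rw [← hφs, isCrit_conj φ hconj]
    intro h
    exact hsS' _ h 1 rfl
  · intro c hc j hj
    obtain ⟨c', rfl⟩ := φ.surjective c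
    rw [isCrit_conj φ hconj] at hc
    rw [iter_conj φ hconj, ← hφs] at hj
    have h1 := φ.injective hj
    apply hsS' c' hc (j + 1)
    rw [Function.iterate_succ_apply', h1]
  · intro c hc j hj
    obtain ⟨c', rfl⟩ := φ.surjective c
    rw [isCrit_conj φ hconj] at hc
    rw [iter_conj φ hconj, ← hφs, hconj] at hj
    exact hsS' c' hc j (φ.injective hj).symm

/-- a continuous left inverse of `Lin s` -/
theorem lin_linv (s : ℂ) (d : ℕ) : ∃ G : E d → E d, Continuous G ∧ ∀ v, G (Lin s v) = v := by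
  let g : E d →ₗ[ℂ] E d :=
    { toFun := Lin s
      map_add' := lin_add s
      map_smul' := fun c v => by rw [lin_smul, RingHom.id_apply] }
  have hg : Function.Injective g := lin_inj s
  let e := LinearEquiv.ofInjectiveEndo g hg
  refine ⟨e.symm, LinearMap.continuous_of_finiteDimensional e.symm.toLinearMap, fun v => ?_⟩
  have h1 : e v = Lin s v := rfl
  rw [← h1]
  exact e.symm_apply_apply v

end Pool.Agent.H44.RR
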