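import Pool.Agent.H61.TT.Fib

/-!
# Module CNT: counting multiple points of fibres

PROOFS. `ww_deg`: `ww a b = a' b - a b'`. If `a.natDegree = b.natDegree = d`: the coefficient of `X ^ (2 d - 1)` is `d a_d b_d - a_d d b_d = 0`, higher coefficients vanish. If one of the degrees is smaller than `d`:
`natDegree (a' b) ≤ (deg a - 1) + deg b ≤ 2 d - 2` etc. (cases; if a degree is `0` the derivative vanishes).
`mult_ww`: at `y ∈ fs a b x` let `e = rootMultiplicity y (fib a b x) ≥ 1`. `a = fib + C x * b`, so `ww a b = derivative (fib) * b - fib * derivative b` (ring). `(X - C y) ^ e ∣ fib`, so `(X - C y) ^ (e - 1) ∣ derivative fib`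
(`pow_sub_one_dvd_derivative_of_pow_dvd` or `Polynomial.dvd_iterate_derivative..`) and `(X - C y) ^ (e - 1) ∣ ww a b`; `ww_ne`: `e - 1 ≤ rootMultiplicity y (ww a b)` (`le_rootMultiplicity_iff`).
`cnt`: `∑ y ∈ fs a b x, e y = natDegree (fib a b x) = d` (roots of a split polynomial, `IsAlgClosed.card_roots_eq..`, `Multiset.toFinset_sum_count_eq`), so `d - card (fs a b x) = ∑ y ∈ fs a b x, (e y - 1) ≤ ∑ y ∈ fs a b x, rootMultiplicity y (ww a b)`.
The sets `fs a b x` are disjoint for different `x` (`mem_fs`: `gg a b y = x`), so the sum over `x ∈ S` is at most the sum of `rootMultiplicity y (ww a b)` over a finite set of points, at most `card (roots (ww a b)) ≤ natDegree (ww a b) ≤ 2 d - 2`.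
`cnt_simple`: if `e y = 1` then `y` is not a root of `ww a b`: `ww(y) = fib'(y) b(y)` and `fib'(y) ≠ 0` for a simple root, `b(y) ≠ 0` (`mem_fs`). Let `s` be the number of `y ∈ fs a b x` with `e y = 1`; `d = ∑ e y ≥ s + 2 (card - s)`.
-/

set_option autoImplicit false

open MeasureTheory Metric Set Polynomial Filter Topology

namespace Pool.Agent.H44.RR

open Pool.Agent.H61.TT

variable {d : ℕ} {a b : Polynomial ℂ}

theorem ww_deg (h : RatD d a b) : (ww a b).natDegree ≤ 2 * d - 2 := by
  have hA : a.natDegree ≤ d := h.deg ▸ le_max_left _ _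
  have hB : b.natDegree ≤ d := h.deg ▸ le_max_right _ _
  have hd := h.hd
  rw [natDegree_le_iff_coeff_eq_zero]
  intro N hN
  have hN2 : 2 * d - 1 ≤ N := by omega
  unfold ww
  rw [coeff_sub]
  have hdA : (derivative a).natDegree ≤ d - 1 := (natDegree_derivative_le a).trans (by omega)
  have hdB : (derivative b).natDegree ≤ d - 1 := (natDegree_derivative_le b).trans (by omega)
  rcases Nat.lt_or_ge (2 * d - 1) N with h1 | h1
  · have e1 : (derivative a * b).coeff N = 0 := by
      apply coeff_eq_zero_of_natDegree_lt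
      exact lt_of_le_of_lt (natDegree_mul_le) (by omega)
    have e2 : (a * derivative b).coeff N = 0 := by
      apply coeff_eq_zero_of_natDegree_lt
      exact lt_of_le_of_lt (natDegree_mul_le) (by omega)
    rw [e1, e2, sub_zero]
  · have h2 : N = (d - 1) + d := by omega
    have h3 : N = d + (d - 1) := by omega
    have e1 : (derivative a * b).coeff N = (derivative a).coeff (d - 1) * b.coeff d := by
      rw [h2]
      exact coeff_mul_add_eq_of_natDegree_le hdA hB
    have e2 : (a * derivative b).coeff N = a.coeff d * (derivative b).coeff (d - 1) := by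
      rw [h3]
      exact coeff_mul_add_eq_of_natDegree_le hA hdB
    rw [e1, e2, coeff_derivative, coeff_derivative]
    have h4 : d - 1 + 1 = d := by omega
    rw [h4]
    ring

private theorem mem_roots_fs (x y : ℂ) : y ∈ fs a b x ↔ y ∈ (fib a b x).roots := by
  unfold fs
  rw [Multiset.mem_toFinset]

private theorem mult_ww (h : RatD d a b) (x y : ℂ) :
    rootMultiplicity y (fib a b x) - 1 ≤ rootMultiplicity y (ww a b) := by
  rw [le_rootMultiplicity_iff (ww_ne h)]
  set e := rootMultiplicity y (fib a b x) with he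
  have h1 : (X - C y) ^ e ∣ fib a b x := pow_rootMultiplicity_dvd _ _
  have h2 : (X - C y) ^ (e - 1) ∣ derivative (fib a b x) :=
    pow_sub_one_dvd_derivative_of_pow_dvd h1
  have h3 : (X - C y) ^ (e - 1) ∣ fib a b x := (pow_dvd_pow _ (Nat.sub_le _ _)).trans h1
  have h4 : ww a b = derivative (fib a b x) * b - fib a b x * derivative b := by
    unfold ww fib
    rw [derivative_sub, derivative_C_mul]
    ring
  rw [h4]
  exact dvd_sub (h2.mul_right _) (h3.mul_right _)

private theorem sum_mult (x : ℂ) :
    ∑ y ∈ fs a b x, rootMultiplicity y (fib a b x) = (fib a b x).natDegree := by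
  unfold fs
  have h1 := Multiset.toFinset_sum_count_eq (fib a b x).roots
  simp_rw [count_roots] at h1
  rw [h1]
  exact (IsAlgClosed.splits (fib a b x)).natDegree_eq_card_roots.symm

private theorem mult_pos (h : RatD d a b) {x y : ℂ} (hy : y ∈ fs a b x) :
    1 ≤ rootMultiplicity y (fib a b x) := by
  rw [mem_roots_fs, mem_roots (fib_ne h x)] at hy
  exact (rootMultiplicity_pos (fib_ne h x)).2 hy

private theorem card_le (h : RatD d a b) (x : ℂ) (hx : (fib a b x).natDegree = d) :
    (fs a b x).card ≤ d := by
  rw [← hx, ← sum_mult x, Finset.card_eq_sum_ones]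
  exact Finset.sum_le_sum fun y hy => mult_pos h hy

private theorem defect_le (h : RatD d a b) (x : ℂ) (hx : (fib a b x).natDegree = d) :
    d - (fs a b x).card ≤ ∑ y ∈ fs a b x, rootMultiplicity y (ww a b) := by
  have h1 : ∑ y ∈ fs a b x, (rootMultiplicity y (fib a b x) - 1) + (fs a b x).card = d := by
    rw [Finset.card_eq_sum_ones, ← Finset.sum_add_distrib, ← hx, ← sum_mult x]
    refine Finset.sum_congr rfl fun y hy => ?_
    have := mult_pos h hy
    omega
  have h2 : ∑ y ∈ fs a b x, (rootMultiplicity y (fib a b x) - 1) ≤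
      ∑ y ∈ fs a b x, rootMultiplicity y (ww a b) := Finset.sum_le_sum fun y _ => mult_ww h x y
  omega

theorem cnt (h : RatD d a b) (S : Finset ℂ) (hS : ∀ x ∈ S, (fib a b x).natDegree = d) :
    ∑ x ∈ S, (d - (fs a b x).card) ≤ 2 * d - 2 ∧ ∀ x ∈ S, (fs a b x).card ≤ d := by
  refine ⟨?_, fun x hx => card_le h x (hS x hx)⟩
  classical
  have h1 : ∑ x ∈ S, (d - (fs a b x).card) ≤
      ∑ x ∈ S, ∑ y ∈ fs a b x, rootMultiplicity y (ww a b) :=
    Finset.sum_le_sum fun x hx => defect_le h x (hS x hx)
  have hdis : (S : Set ℂ).PairwiseDisjoint (fun x => fs a b x) := by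
    intro x _ x' _ hne
    rw [Function.onFun, Finset.disjoint_left]
    intro y hy hy'
    exact hne (((mem_fs h x y).1 hy).2.symm.trans ((mem_fs h x' y).1 hy').2)
  rw [← Finset.sum_biUnion hdis] at h1
  refine h1.trans ?_
  refine le_trans ?_ (ww_deg h)
  refine le_trans ?_ (card_roots' (ww a b))
  rw [← Multiset.toFinset_sum_count_eq (ww a b).roots]
  simp_rw [count_roots]
  refine Finset.sum_le_sum_of_ne_zero fun y _ hne => ?_
  rw [Multiset.mem_toFinset, ← Multiset.count_pos, count_roots]
  exact Nat.pos_of_ne_zero hne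

open Classical in
theorem cnt_simple (h : RatD d a b) {x : ℂ} (hx : (fib a b x).natDegree = d) :
    2 * (fs a b x).card ≤ d + ((fs a b x).filter (fun y => (ww a b).eval y ≠ 0)).card := by
  rw [← hx, ← sum_mult x, Finset.card_filter, Finset.card_eq_sum_ones, Finset.mul_sum,
    ← Finset.sum_add_distrib]
  refine Finset.sum_le_sum fun y hy => ?_
  have h1 := mult_pos h hy
  split_ifs with h2
  · omega
  · push Not at h2
    have h3 : 2 ≤ rootMultiplicity y (fib a b x) := by
      by_contra hcon
      have h4 : rootMultiplicity y (fib a b x) = 1 := by omega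
      have h5 := dg_fib h hy
      have hb := ((mem_fs h x y).1 hy).1
      have h6 : dg a b y = 0 := by
        by_contra h7
        exact (dg_ne hb).1 h7 h2
      rw [h6] at h5
      have h7 : (derivative (fib a b x)).eval y = 0 := by
        rcases div_eq_zero_iff.1 h5.symm with h8 | h8
        · exact h8
        · exact absurd h8 hb
      have hroot : (fib a b x).IsRoot y := by
        rw [mem_roots_fs, mem_roots (fib_ne h x)] at hy
        exact hy
      have h8 := (one_lt_rootMultiplicity_iff_isRoot (fib_ne h x)).2 ⟨hroot, h7⟩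
      omega
    omega

end Pool.Agent.H44.RR
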