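import Pool.Agent.H79.Par.ChartVol

/-!
# Module CHV: change of charts for the measure of the bad directions (copy of `chart_vol`, H79/Par/ChartVol)
-/

set_option autoImplicit false

open Filter Topology Polynomial Metric Set

namespace Pool.Agent.H44.RR

open Pool.Agent.H44.Fatou Pool.Agent.H32.BT Pool.Agent.H79.Eul Pool.Agent.H79.Par

open MeasureTheory in
theorem chart_volS (s : ℂ) {d : ℕ} {v0 : E d} {A B : Set (E d)} (hAB : ∀ v ∈ A, Lin s v ∈ B)
    (h : Tendsto (fun r : ℝ => volume (ball (0 : E d) 1 ∩ {v | pv (Lin s v0) (v, r) ∈ B}))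
      (𝓝[>] 0) (𝓝 0)) :
    Tendsto (fun r : ℝ => volume (ball (0 : E d) 1 ∩ {v | pv v0 (v, r) ∈ A}))
      (𝓝[>] 0) (𝓝 0) := by
  have hhaar := volume_haar d
  let g : E d →ₗ[ℂ] E d :=
    { toFun := Lin s
      map_add' := lin_add s
      map_smul' := fun c v => by rw [lin_smul, RingHom.id_apply] }
  let f : E d →ₗ[ℝ] E d := g.restrictScalars ℝ
  have hf : ∀ v, f v = Lin s v := fun v => rfl
  have hdet : LinearMap.det f ≠ 0 := by
    intro h
    have h1 := LinearMap.bot_lt_ker_of_det_eq_zero h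
    have h2 : LinearMap.ker f = ⊥ := LinearMap.ker_eq_bot.2 (lin_inj s)
    rw [h2] at h1
    exact lt_irrefl _ h1
  let F : E d →L[ℝ] E d := LinearMap.toContinuousLinearMap f
  have hF : ∀ v, F v = Lin s v := fun v => rfl
  set M : ℝ := ‖F‖ + 1 with hM
  have hM0 : 0 < M := by positivity
  set W : E d := Lin s v0 with hW
  have hbound : ∀ r : ℝ, volume (ball (0 : E d) 1 ∩ {v | pv v0 (v, r) ∈ A}) ≤
      ENNReal.ofReal |(LinearMap.det f)⁻¹| *
        (ENNReal.ofReal |M ^ Module.finrank ℝ (E d)| *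
          volume (ball (0 : E d) 1 ∩ {v | pv W (v, M * r) ∈ B})) := by
    intro r
    rw [← Measure.addHaar_smul, ← Measure.addHaar_preimage_linearMap _ hdet]
    apply measure_mono
    rintro v ⟨hv1, hv2⟩
    rw [Set.mem_preimage, Set.mem_smul_set]
    refine ⟨M⁻¹ • f v, ⟨?_, ?_⟩, ?_⟩
    · rw [mem_ball_zero_iff] at hv1 ⊢
      rw [norm_smul, norm_inv, Real.norm_of_nonneg hM0.le, inv_mul_lt_iff₀ hM0, mul_one]
      calc ‖f v‖ = ‖F v‖ := rfl
        _ ≤ ‖F‖ * ‖v‖ := F.le_opNorm v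
        _ ≤ ‖F‖ * 1 := by gcongr
        _ < M := by rw [hM]; linarith
    · have hv3 := hAB _ hv2
      rw [lin_pv] at hv3
      have e : pv W (M⁻¹ • f v, M * r) = pv (Lin s v0) (Lin s v, r) := by
        unfold pv
        simp only
        rw [smul_smul]
        have e2 : M * r * M⁻¹ = r := by field_simp
        rw [e2]
        rfl
      show pv W (M⁻¹ • f v, M * r) ∈ B
      rw [e]
      exact hv3
    · rw [smul_inv_smul₀ hM0.ne']
  have hlim : Tendsto (fun r : ℝ => M * r) (𝓝[>] 0) (𝓝[>] 0) := by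
    rw [tendsto_nhdsWithin_iff]
    constructor
    · have h1 : Tendsto (fun r : ℝ => M * r) (𝓝 0) (𝓝 (M * 0)) :=
        tendsto_id.const_mul M
      rw [mul_zero] at h1
      exact h1.mono_left nhdsWithin_le_nhds
    · filter_upwards [self_mem_nhdsWithin] with r hr
      exact mul_pos hM0 hr
  have h1 := h.comp hlim
  have h2 : Tendsto (fun r : ℝ => ENNReal.ofReal |(LinearMap.det f)⁻¹| *
        (ENNReal.ofReal |M ^ Module.finrank ℝ (E d)| *
          volume (ball (0 : E d) 1 ∩ {v | pv W (v, M * r) ∈ B}))) (𝓝[>] 0) (𝓝 0) := by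
    have h3 := ENNReal.Tendsto.const_mul (ENNReal.Tendsto.const_mul h1
      (Or.inr (ENNReal.ofReal_ne_top (r := |M ^ Module.finrank ℝ (E d)|))))
      (Or.inr (ENNReal.ofReal_ne_top (r := |(LinearMap.det f)⁻¹|)))
    rw [mul_zero, mul_zero] at h3
    exact h3
  exact tendsto_of_tendsto_of_tendsto_of_le_of_le tendsto_const_nhds h2
    (fun _ => bot_le) hbound

end Pool.Agent.H44.RR
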