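import Pool.Agent.H44.LD.NULLS

/-!
# Module NUD: a set of density zero at each of its points is null
-/

set_option autoImplicit false

open Filter Topology Polynomial Metric Set MeasureTheory

namespace Pool.Agent.H44.RR

open Pool.Agent.H44.Fatou Pool.Agent.H32.BT Pool.Agent.H79.Eul Pool.Agent.H79.Par

theorem null_of_dens {d : ℕ} {S : Set (E d)}
    (h : ∀ v ∈ S, Tendsto (fun r : ℝ => volume (ball (0 : E d) 1 ∩ {w | pv v (w, r) ∈ S}))
      (𝓝[>] 0) (𝓝 0)) : volume S = 0 := by
  have hae := IsUnifLocDoublingMeasure.ae_tendsto_measure_inter_div (volume : Measure (E d)) S 1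
  rw [ae_iff] at hae
  refine measure_mono_null (t := {a | ¬ _} ∩ S) ?_ (le_antisymm
    ((Measure.le_restrict_apply S _).trans hae.le) zero_le)
  intro v hv
  refine ⟨fun hP => ?_, hv⟩
  have hr : Tendsto (fun j : ℕ => ((1 : ℝ) / 2) ^ j) atTop (𝓝[>] 0) := by
    rw [tendsto_nhdsWithin_iff]
    exact ⟨tendsto_pow_atTop_nhds_zero_of_lt_one (by norm_num) (by norm_num),
      Eventually.of_forall fun j => by
        show (0 : ℝ) < (1 / 2) ^ j
        positivity⟩
  have h1 := hP (fun _ => v) (fun j : ℕ => ((1 : ℝ) / 2) ^ j) hr (Eventually.of_forall fun j => by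
    refine mem_closedBall_self ?_
    positivity)
  have hb : volume (ball (0 : E d) 1) ≠ 0 := (measure_ball_pos _ _ one_pos).ne'
  have h2 := ENNReal.Tendsto.div_const (h v hv) (b := volume (ball (0 : E d) 1)) (Or.inr hb)
  rw [ENNReal.zero_div] at h2
  have h3 := h2.comp hr
  have h4 : (fun j : ℕ => volume (S ∩ closedBall v ((1 / 2) ^ j)) /
      volume (closedBall v ((1 / 2) ^ j))) = (fun r : ℝ => volume (ball (0 : E d) 1 ∩
        {w | pv v (w, r) ∈ S}) / volume (ball (0 : E d) 1)) ∘ (fun j : ℕ => ((1 : ℝ) / 2) ^ j) := by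
    funext j
    have hpos : (0 : ℝ) < (1 / 2) ^ j := by positivity
    haveI := volume_haar (d := d)
    have hsph : volume (sphere v ((1 / 2 : ℝ) ^ j)) = 0 :=
      Measure.addHaar_sphere_of_ne_zero _ _ hpos.ne'
    have e1 : volume (closedBall v ((1 / 2 : ℝ) ^ j)) = volume (ball v ((1 / 2 : ℝ) ^ j)) :=
      Measure.addHaar_closedBall_eq_addHaar_ball _ _ _
    have e2 : volume (S ∩ closedBall v ((1 / 2 : ℝ) ^ j)) =
        volume (ball v ((1 / 2 : ℝ) ^ j) ∩ S) := by
      apply le_antisymm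
      · have e3 : S ∩ closedBall v ((1 / 2 : ℝ) ^ j) ⊆
            (ball v ((1 / 2 : ℝ) ^ j) ∩ S) ∪ sphere v ((1 / 2 : ℝ) ^ j) := by
          rintro x ⟨hx1, hx2⟩
          rw [← ball_union_sphere] at hx2
          rcases hx2 with hx2 | hx2
          · exact Or.inl ⟨hx2, hx1⟩
          · exact Or.inr hx2
        calc volume (S ∩ closedBall v ((1 / 2 : ℝ) ^ j)) ≤
            volume ((ball v ((1 / 2 : ℝ) ^ j) ∩ S) ∪ sphere v ((1 / 2 : ℝ) ^ j)) :=
              measure_mono e3
          _ ≤ volume (ball v ((1 / 2 : ℝ) ^ j) ∩ S) + volume (sphere v ((1 / 2 : ℝ) ^ j)) :=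
              measure_union_le _ _
          _ = volume (ball v ((1 / 2 : ℝ) ^ j) ∩ S) := by rw [hsph, add_zero]
      · apply measure_mono
        rintro x ⟨hx1, hx2⟩
        exact ⟨hx2, ball_subset_closedBall hx1⟩
    rw [e1, e2, scaling _ _ hpos]
    rfl
  rw [h4] at h1
  exact zero_ne_one (tendsto_nhds_unique h3 h1)

end Pool.Agent.H44.RR
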