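import Pool.Agent.H44.RR.QCH
import Pool.Agent.H44.RR.CHV
import Pool.Agent.H44.RR.NUD
import Pool.Agent.H44.RR.CHT
import Pool.Agent.H44.RR.UNI
import Pool.Agent.H35.EX.ExpConj

/-!
# Module RAR: critical orbits landing in expanding sets are rare
-/

set_option autoImplicit false

open Filter Topology Polynomial Metric Set MeasureTheory

namespace Pool.Agent.H44.RR

open Pool.Agent.H44.Fatou Pool.Agent.H32.BT Pool.Agent.H79.Eul Pool.Agent.H79.Par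
open Pool.Agent.H35.EX

/-- the maps with a critical point whose `m`-th iterate has a uniformly expanding orbit -/
def Bad {d : ℕ} (m N : ℕ) (q δ : ℝ) : Set (E d) :=
  {v | IsCoprime (pol v.1) (pol v.2) ∧ max (pol v.1).natDegree (pol v.2).natDegree = d ∧
    ∃ c, IsCrit (Rf v) c ∧ La N q δ (Rf v) ((Rf v)^[m] c)}

theorem bad_null {d : ℕ} (hd : 2 ≤ d) (m N : ℕ) {q δ : ℝ} (hq : 1 < q) (hδ : 0 < δ) :
    volume (Bad m N q δ : Set (E d)) = 0 := by
  apply null_of_dens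
  rintro v0 ⟨hcop, hdeg, -⟩
  have hE := la_expd (N := N) (by omega : 1 ≤ d) hcop hdeg hq hδ
  have hop : IsOpen ({x | La N q δ (Rf v0) x}ᶜ) := hE.1.isClosed.isOpen_compl
  obtain ⟨s, φ, hsU, hφs, hφ, hφi, hall, h1⟩ := chart_ex hd hcop hdeg hop
    (la_ne hd hcop hdeg hq hδ)
  obtain ⟨hcop', hdeg', hconj⟩ := hall v0 hcop hdeg
  have hK := exp_conj hd hφs hφ hφi hconj hcop' hdeg' hE hsU
  obtain ⟨Q, hQ⟩ : ∃ Q : E d → OnePoint ℂ → Prop, Q = fun w x => ∃ v : E d, Lin s v = w ∧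
      IsCoprime (pol v.1) (pol v.2) ∧ max (pol v.1).natDegree (pol v.2).natDegree = d ∧
      La N q δ (Rf v) (φ.symm x) := ⟨_, rfl⟩
  obtain ⟨G, hG, hGl⟩ := lin_linv s d
  have hQf : ∀ v x, Q v x → Q v (Rf v x) := by
    rw [hQ]
    rintro _ x ⟨v, rfl, hc, he, hla⟩
    refine ⟨v, rfl, hc, he, ?_⟩
    have h2 := (hall v hc he).2.2 (φ.symm x)
    rw [φ.apply_symm_apply] at h2
    rw [h2, φ.symm_apply_apply]
    exact la_fwd hla
  have hQo : ∀ x, ¬ Q (Lin s v0) x →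
      ∀ᶠ w : E d × OnePoint ℂ in 𝓝 (Lin s v0) ×ˢ 𝓝 x, ¬ Q w.1 w.2 := by
    intro x hx
    have h2 : ¬ La N q δ (Rf v0) (φ.symm x) := by
      intro h3
      apply hx
      rw [hQ]
      exact ⟨v0, rfl, hcop, hdeg, h3⟩
    have h3 := la_open (by omega : 1 ≤ d) hcop hdeg h2
    have h4 : Tendsto (fun w : E d × OnePoint ℂ => (G w.1, φ.symm w.2))
        (𝓝 (Lin s v0) ×ˢ 𝓝 x) (𝓝 v0 ×ˢ 𝓝 (φ.symm x)) := by
      have h5 := hG.tendsto (Lin s v0)
      rw [hGl] at h5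
      exact h5.prodMap (φ.symm.continuous.tendsto x)
    filter_upwards [h4.eventually h3] with w hw hq'
    apply hw
    rw [hQ] at hq'
    obtain ⟨v, hv, -, -, hla⟩ := hq'
    show La N q δ (Rf (G w.1)) (φ.symm w.2)
    rw [← hv, hGl]
    exact hla
  have hQK : ∀ z : ℂ, Q (Lin s v0) (z : OnePoint ℂ) →
      z ∈ {w : ℂ | ∃ x ∈ {x | La N q δ (Rf v0) x}, φ x = (w : OnePoint ℂ)} := by
    intro z hz
    rw [hQ] at hz
    obtain ⟨v, hv, -, -, hla⟩ := hz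
    rw [lin_inj s hv] at hla
    exact ⟨_, hla, φ.apply_symm_apply _⟩
  have hmain := q_chart hd h1 hQf hQo hK hQK m
  refine chart_volS s (v0 := v0) (A := Bad m N q δ) (B := {w : E d | ∃ c, IsCrit (Rf w) c ∧
    Q w ((Rf w)^[m] c)}) ?_ hmain
  rintro v ⟨hc, he, c, hcr, hla⟩
  obtain ⟨-, -, hcj⟩ := hall v hc he
  refine ⟨φ c, (isCrit_conj φ hcj c).2 hcr, ?_⟩
  rw [hQ]
  refine ⟨v, rfl, hc, he, ?_⟩
  rw [iter_conj φ hcj, φ.symm_apply_apply]
  exact hla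

/-- RARITY: the rational maps of degree `d` with at least one critical point whose orbit lands in an
expanding set form a null set -/
theorem rare {d : ℕ} (hd : 2 ≤ d) :
    volume {v : E d | IsCoprime (pol v.1) (pol v.2) ∧
      max (pol v.1).natDegree (pol v.2).natDegree = d ∧ ∃ c, IsCrit (Rf v) c ∧
        ∃ K : Set (OnePoint ℂ), Expd (Rf v) K ∧ ∃ m : ℕ, (Rf v)^[m] c ∈ K} = 0 := by
  refine measure_mono_null (t := ⋃ m : ℕ, ⋃ N : ℕ, ⋃ l : ℕ, ⋃ k : ℕ,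
    (Bad m N (1 + 1 / ((l : ℝ) + 1)) (1 / ((k : ℝ) + 1)) : Set (E d))) ?_ ?_
  · rintro v ⟨hc, he, c, hcr, K, hK, m, hm⟩
    obtain ⟨N, l, k, hla⟩ := la_of_expd hd hc he hK
    exact mem_iUnion.2 ⟨m, mem_iUnion.2 ⟨N, mem_iUnion.2 ⟨l, mem_iUnion.2
      ⟨k, hc, he, c, hcr, hla _ hm⟩⟩⟩⟩
  · refine measure_iUnion_null fun m => measure_iUnion_null fun N =>
      measure_iUnion_null fun l => measure_iUnion_null fun k => bad_null hd m N ?_ ?_
    · have h1 : (0 : ℝ) < 1 / ((l : ℝ) + 1) := by positivity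
      linarith
    · positivity

end Pool.Agent.H44.RR
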