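import Pool.Agent.H44.RR.UNI

/-!
# Module ACC: orbits converging to an expanding set end in a (larger) expanding set
-/

set_option autoImplicit false

open Filter Topology Polynomial Metric Set

namespace Pool.Agent.H44.RR

open Pool.Agent.H44.Fatou Pool.Agent.H32.BT Pool.Agent.H35.EX Pool.Agent.H79.Eul
open Pool.Agent.H79.Par Pool.Agent.H79.PJ

theorem acc_exp {d : ℕ} (hd : 2 ≤ d) {v0 : E d} (hcop : IsCoprime (pol v0.1) (pol v0.2))
    (hdeg : max (pol v0.1).natDegree (pol v0.2).natDegree = d) {K : Set (OnePoint ℂ)}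
    (hK : Expd (Rf v0) K) {c : OnePoint ℂ}
    (hc : ∀ U : Set (OnePoint ℂ), IsOpen U → K ⊆ U → ∀ᶠ n : ℕ in atTop, (Rf v0)^[n] c ∈ U) :
    ∃ K' : Set (OnePoint ℂ), Expd (Rf v0) K' ∧ ∃ m : ℕ, (Rf v0)^[m] c ∈ K' := by
  obtain ⟨hKc, hKm, N, q, hq, hex⟩ := hK
  obtain ⟨q', hq'1, hq'q⟩ : ∃ q' : ℝ, 1 < q' ∧ q' < q := exists_between hq
  have h1 : ∀ x : OnePoint ℂ, ∃ U : Set (OnePoint ℂ), x ∈ K → IsOpen U ∧ x ∈ U ∧
      ∀ y ∈ U, ∀ y' ∈ U, q' * chord y y' ≤ chord ((Rf v0)^[N] y) ((Rf v0)^[N] y') := by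
    intro x
    by_cases hx : x ∈ K
    · obtain ⟨U, hU, hU2⟩ := two_pt hd hcop hdeg (by linarith) hq'q (hex x hx)
      refine ⟨interior U, fun _ => ⟨isOpen_interior, mem_interior_iff_mem_nhds.2 hU, ?_⟩⟩
      intro y hy y' hy'
      exact hU2 y (interior_subset hy) y' (interior_subset hy')
    · exact ⟨∅, fun h => absurd h hx⟩
  choose U hU using h1
  obtain ⟨m, hm⟩ := eventually_atTop.1 (hc (⋃ x ∈ K, U x)
    (isOpen_biUnion fun x hx => (hU x hx).1)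
    (fun x hx => mem_iUnion₂.2 ⟨x, hx, (hU x hx).2.1⟩))
  refine ⟨K ∪ {x | ∃ n, m ≤ n ∧ x = (Rf v0)^[n] c}, ⟨?_, ?_, N, q', hq'1, ?_⟩, m,
    Or.inr ⟨m, le_rfl, rfl⟩⟩
  · apply IsClosed.isCompact
    rw [← isOpen_compl_iff, isOpen_iff_mem_nhds]
    intro z hz
    have hzK : z ∉ K := fun h => hz (Or.inl h)
    obtain ⟨V, W, hV, hW, hKV, hzW, hVW⟩ := SeparatedNhds.of_isCompact_isCompact hKc
      (isCompact_singleton (x := z)) (Set.disjoint_singleton_right.2 hzK)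
    obtain ⟨m', hm'⟩ := eventually_atTop.1 (hc V hV hKV)
    have hfin : ((fun n => (Rf v0)^[n] c) '' Set.Iio m' \ {z}).Finite :=
      ((Set.finite_Iio m').image _).sdiff
    have e1 : W ∈ 𝓝 z := hW.mem_nhds (hzW rfl)
    have e2 : ((fun n => (Rf v0)^[n] c) '' Set.Iio m' \ {z})ᶜ ∈ 𝓝 z :=
      hfin.isClosed.isOpen_compl.mem_nhds fun h => h.2 rfl
    filter_upwards [e1, e2] with y hy1 hy2 hy3
    rcases hy3 with hy3 | ⟨n, hn, rfl⟩
    · exact Set.disjoint_left.1 hVW (hKV hy3) hy1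
    · by_cases h : m' ≤ n
      · exact Set.disjoint_left.1 hVW (hm' n h) hy1
      · apply hy2
        refine ⟨⟨n, not_le.1 h, rfl⟩, ?_⟩
        rintro rfl
        exact hz (Or.inr ⟨n, hn, rfl⟩)
  · rintro x (hx | ⟨n, hn, rfl⟩)
    · exact Or.inl (hKm hx)
    · exact Or.inr ⟨n + 1, by omega, (Function.iterate_succ_apply' _ _ _).symm⟩
  · rintro x (hx | ⟨n, hn, rfl⟩)
    · filter_upwards [hex x hx] with y hy
      refine le_trans ?_ hy
      exact mul_le_mul_of_nonneg_right hq'q.le (chord_nn _ _)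
    · obtain ⟨x0, hx0, hx1⟩ := mem_iUnion₂.1 (hm n hn)
      filter_upwards [(hU x0 hx0).1.mem_nhds hx1] with y hy
      exact (hU x0 hx0).2.2 _ hx1 y hy

end Pool.Agent.H44.RR
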