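import Pool.Agent.H44.RR.RDef

/-!
# Module RSN: the residues at the points of the orbit do not vanish

PROOF. Let `x = p (k + 1)`, `S = {j | p (j + 1) = x}`, `Rs p B x = ∑' j, if j ∈ S then B j else 0`. All `B j ≠ 0` (`B_ne`). Let `k0` be the least element of `S`. If `S = {k0}`: `Rs = B k0 ≠ 0` (`tsum_eq_single`).
Otherwise let `n > 0` be least with `k0 + n ∈ S`, so `p (k0 + n + 1) = p (k0 + 1)`. As `gg a b (p j) = p (j + 1)` (`hs.orb`): `p (j + n + 1) = p (j + 1)` for `j ≥ k0` and `S = {k0 + l n | l}` (if `k0 + m ∈ S`, `m = l n + s` with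
`s < n`, then `p (k0 + s + 1) = p (k0 + m + 1) = x`, so `s = 0`). Put `μ = ∏ i < n, dg a b (p (k0 + i + 2))`. From `hs.hB`: `B (j + 1) = B j / dg a b (p (j + 1))` (`ser_dg`), so `B (k0 + n) = B k0 / μ'`, `μ' = ∏ i < n, dg a b (p (k0 + i + 1))`, and by periodicity
`B (k0 + (l + 1) n) = B (k0 + l n) / μ'` for all `l`, so `B (k0 + l n) = B k0 / μ' ^ l`. As `B → 0` (`hs.sm`), `‖μ'‖ > 1`. So `Rs = ∑' l, B k0 (1 / μ') ^ l = B k0 / (1 - 1 / μ') ≠ 0`
(`tsum_geometric_of_norm_lt_one`; reindex the sum over `S` by the injective map `l ↦ k0 + l n`: `Function.Injective.tsum_eq`).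
-/

set_option autoImplicit false

open MeasureTheory Metric Set Polynomial Filter Topology

namespace Pool.Agent.H44.RR

open Pool.Agent.H61.TT Pool.Agent.H35.EX Pool.Agent.H91.CE

variable {d : ℕ} {a b : Polynomial ℂ} {p B : ℕ → ℂ}

theorem rs_ne (hs : Ser d a b p B) (k : ℕ) : Rs p B (p (k + 1)) ≠ 0 := by
  classical
  set x := p (k + 1) with hx
  have hex : ∃ j, p (j + 1) = x := ⟨k, rfl⟩
  set k0 := Nat.find hex with hk0
  have h0 : p (k0 + 1) = x := Nat.find_spec hex
  have hmin : ∀ j, p (j + 1) = x → k0 ≤ j := fun j hj => Nat.find_min' hex hj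
  have hRs : Rs p B x = ∑' j, if p (j + 1) = x then B j else 0 := by
    unfold Rs
    refine tsum_congr fun j => ?_
    split_ifs <;> rfl
  rw [hRs]
  by_cases hA : ∀ j, p (j + 1) = x → j = k0
  · rw [tsum_eq_single k0 (fun j hj => if_neg fun h => hj (hA j h)), if_pos h0]
    exact B_ne hs k0
  · push Not at hA
    obtain ⟨j, hj, hjk⟩ := hA
    have hjk0 := hmin j hj
    have hexn : ∃ n, 0 < n ∧ p (k0 + n + 1) = x := by
      refine ⟨j - k0, by omega, ?_⟩
      rw [show k0 + (j - k0) + 1 = j + 1 by omega]
      exact hj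
    set n := Nat.find hexn with hn
    obtain ⟨hn0, hnx⟩ := Nat.find_spec hexn
    rw [← hn] at hn0 hnx
    have hnmin : ∀ m, 0 < m → p (k0 + m + 1) = x → n ≤ m := fun m h1 h2 =>
      Nat.find_min' hexn ⟨h1, h2⟩
    -- periodicity
    have per : ∀ i, p (k0 + i + n + 1) = p (k0 + i + 1) := by
      intro i
      induction i with
      | zero => rw [add_zero, hnx, h0]
      | succ i ih =>
        have e1 : k0 + (i + 1) + n + 1 = (k0 + i + n + 1) + 1 := by omega
        have e2 : k0 + (i + 1) + 1 = (k0 + i + 1) + 1 := by omega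
        rw [e1, e2, ← hs.orb (k0 + i + n + 1), ← hs.orb (k0 + i + 1), ih]
    have perl : ∀ l i, p (k0 + i + l * n + 1) = p (k0 + i + 1) := by
      intro l
      induction l with
      | zero => intro i; rw [zero_mul, add_zero]
      | succ l ih =>
        intro i
        have e1 : k0 + i + (l + 1) * n + 1 = k0 + (i + l * n) + n + 1 := by ring
        rw [e1, per, show k0 + (i + l * n) + 1 = k0 + i + l * n + 1 by ring, ih]
    have hchar : ∀ j, p (j + 1) = x ↔ ∃ l, k0 + l * n = j := by
      intro j
      constructor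
      · intro h
        have h1 := hmin j h
        obtain ⟨m, rfl⟩ := Nat.exists_eq_add_of_le h1
        have h2 := Nat.div_add_mod m n
        have h3 : p (k0 + m % n + 1) = x := by
          rw [← perl (m / n) (m % n), show k0 + m % n + m / n * n + 1 = k0 + m + 1 by
            rw [← Nat.div_add_mod m n]
            simp only [Nat.mul_add_mod_self_left, Nat.mod_mod, Nat.add_mod_mod]
            rw [Nat.mul_add_div hn0, Nat.mod_div_self, add_zero]
            ring]
          exact h
        have h4 : m % n = 0 := by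
          by_contra h5
          have h6 := hnmin (m % n) (Nat.pos_of_ne_zero h5) h3
          have h7 := Nat.mod_lt m hn0
          omega
        refine ⟨m / n, ?_⟩
        rw [h4, add_zero] at h2
        rw [mul_comm, h2]
      · rintro ⟨l, rfl⟩
        have := perl l 0
        rw [add_zero] at this
        rw [this, h0]
    set g : ℕ → ℕ := fun l => k0 + l * n with hg
    have hginj : Function.Injective g := by
      intro l l' h
      simp only [hg] at h
      have h1 : l * n = l' * n := by omega
      exact Nat.eq_of_mul_eq_mul_right hn0 h1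
    have hsupp : Function.support (fun j => if p (j + 1) = x then B j else 0) ⊆ Set.range g := by
      intro j hj
      rw [Function.mem_support] at hj
      by_cases h1 : p (j + 1) = x
      · obtain ⟨l, hl⟩ := (hchar j).1 h1
        exact ⟨l, hl⟩
      · exact absurd (if_neg h1) hj
    rw [← hginj.tsum_eq hsupp]
    have hval : ∀ l, (if p (g l + 1) = x then B (g l) else 0) = B (g l) := fun l =>
      if_pos ((hchar (g l)).2 ⟨l, rfl⟩)
    rw [tsum_congr hval]
    -- the multiplier
    set μ := ∏ i ∈ Finset.range n, dg a b (p (k0 + i + 1)) with hμ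
    have hμ0 : μ ≠ 0 := Finset.prod_ne_zero_iff.2 fun i _ => ser_dg hs _
    have hB : ∀ m j, B (j + m) * ∏ i ∈ Finset.range m, dg a b (p (j + i + 1)) = B j := by
      intro m
      induction m with
      | zero => intro j; simp
      | succ m ih =>
        intro j
        rw [Finset.prod_range_succ]
        have h1 := hs.hB (j + m)
        have h2 := ih j
        calc B (j + (m + 1)) * ((∏ i ∈ Finset.range m, dg a b (p (j + i + 1))) *
              dg a b (p (j + m + 1))) =
              (B (j + m + 1) * dg a b (p (j + m + 1))) *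
              ∏ i ∈ Finset.range m, dg a b (p (j + i + 1)) := by
                rw [show j + (m + 1) = j + m + 1 by ring]; ring
          _ = B j := by rw [h1, h2]
    have hstep : ∀ l, B (g (l + 1)) * μ = B (g l) := by
      intro l
      have h1 := hB n (g l)
      have h2 : ∏ i ∈ Finset.range n, dg a b (p (g l + i + 1)) = μ := by
        rw [hμ]
        refine Finset.prod_congr rfl fun i _ => ?_
        have h3 := perl l i
        simp only [hg]
        rw [show k0 + l * n + i + 1 = k0 + i + l * n + 1 by ring, h3]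
      rw [h2] at h1
      have h4 : g (l + 1) = g l + n := by
        simp only [hg]
        ring
      rw [h4]
      exact h1
    have hpow : ∀ l, B (g l) = B k0 * (μ⁻¹) ^ l := by
      intro l
      induction l with
      | zero => simp [hg]
      | succ l ih =>
        have h1 := hstep l
        rw [ih] at h1
        rw [pow_succ, ← mul_assoc, ← h1, mul_assoc, mul_inv_cancel₀ hμ0, mul_one]
    have hB0 : B k0 ≠ 0 := B_ne hs k0
    have hr : ‖μ⁻¹‖ < 1 := by
      by_contra hr
      push Not at hr
      have h1 : Tendsto (fun l => ‖B (g l)‖) atTop (𝓝 0) :=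
        hs.sm.tendsto_atTop_zero.comp hginj.nat_tendsto_atTop
      have h2 : ∀ l, ‖B k0‖ ≤ ‖B (g l)‖ := by
        intro l
        rw [hpow l, norm_mul, norm_pow]
        have h3 : (1 : ℝ) ≤ ‖μ⁻¹‖ ^ l := one_le_pow₀ hr
        have h4 := norm_nonneg (B k0)
        nlinarith
      have h3 := ge_of_tendsto' h1 h2
      exact hB0 (norm_le_zero_iff.1 h3)
    rw [tsum_congr hpow, tsum_mul_left, tsum_geometric_of_norm_lt_one hr]
    apply mul_ne_zero hB0
    apply inv_ne_zero
    intro h1
    have h2 : μ⁻¹ = 1 := (sub_eq_zero.1 h1).symm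
    rw [h2, norm_one] at hr
    exact lt_irrefl _ hr

end Pool.Agent.H44.RR
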