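import Pool.Agent.H44.RR.AL1

/-!
# Module AL2: nonvanishing propagates along orbits

PROOFS. `pre_null`: let `N' ⊇ N` be measurable and null (`toMeasurable`). By `area` (H61/TT/Area) with `T = N'`, `F = 1`:
`∫⁻ y in pre a b N', ofReal (‖dg a b y‖ ^ 2) = ∫⁻ x in N', .. = 0` (null set), so `dg a b y = 0` for almost every `y ∈ pre a b N'`; but `dg a b y ≠ 0` except for finitely many
`y` with `b.eval y ≠ 0` (`dg_ne`, `ww_ne`, roots). So `volume (pre a b N') = 0`. (Compare `null_pre` or similar statements in H35/EX/LamNull, H61/TT: use one if it exists.)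
`al_pt`: the set `N` of the exceptional `x` of `al_fib` is null; for almost every `y`: `b.eval y ≠ 0 → gg a b y ∉ N` (`pre_null`), and `y ∈ fs a b (gg a b y)` (`mem_fs`).
If `qq p B (gg a b y) = 0` then `qq p B y / dg ^ 2 = 0`, so `qq p B y = 0` if `dg a b y ≠ 0` (all but finitely many `y`).
`al_it`: let `G` be the null set of the exceptional `y` of `al_pt`. For almost every `y`, for all `n`: (all iterates up to `n` have `b ≠ 0`) implies `(gg a b)^[n] y ∉ G` (induction on `n` with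
`pre_null`: the set `{y | (∀ j < n, b.eval ((gg a b)^[j] y) ≠ 0) ∧ (gg a b)^[n] y ∈ G}` is null; `Function.iterate_succ_apply`). Then induction on `n`.
-/

set_option autoImplicit false

open MeasureTheory Metric Set Polynomial Filter Topology

namespace Pool.Agent.H44.RR

open Pool.Agent.H61.TT Pool.Agent.H35.EX Pool.Agent.H91.CE

variable {d : ℕ} {a b : Polynomial ℂ} {p B : ℕ → ℂ}

theorem pre_null (h : RatD d a b) {N : Set ℂ} (hN : volume N = 0) : volume (pre a b N) = 0 := by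
  exact null_pre h hN

theorem al_pt (h : RatD d a b) (hs : Ser d a b p B) :
    ∀ᵐ y : ℂ, b.eval y ≠ 0 → qq p B y ≠ 0 → qq p B (gg a b y) ≠ 0 := by
  obtain ⟨N, hN⟩ : ∃ N : Set ℂ, N = {x | ¬ ∀ y ∈ fs a b x, ∃ ρ : ℝ, 0 ≤ ρ ∧ ρ ≤ 1 ∧
      qq p B y / dg a b y ^ 2 = (ρ : ℂ) * qq p B x} := ⟨_, rfl⟩
  have hN0 : volume N = 0 := by
    rw [hN]
    exact al_fib h hs
  have h1 : ∀ᵐ y : ℂ, y ∉ pre a b N := by
    rw [ae_iff]
    simp only [not_not, Set.setOf_mem_eq]
    exact pre_null h hN0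
  filter_upwards [h1, ae_ww h] with y hy hw hb hq h0
  refine hy ⟨hb, ?_⟩
  rw [hN]
  intro hx
  obtain ⟨ρ, -, -, h2⟩ := hx y ((mem_fs h _ _).2 ⟨hb, rfl⟩)
  rw [h0, mul_zero, div_eq_zero_iff] at h2
  rcases h2 with h2 | h2
  · exact hq h2
  · exact (dg_ne hb).2 hw (pow_eq_zero_iff (two_ne_zero)|>.1 h2)

theorem al_it (h : RatD d a b) (hs : Ser d a b p B) :
    ∀ᵐ y : ℂ, ∀ n : ℕ, (∀ j < n, b.eval ((gg a b)^[j] y) ≠ 0) → qq p B y ≠ 0 →
      qq p B ((gg a b)^[n] y) ≠ 0 := by
  have h0 := al_pt h hs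
  obtain ⟨G, hG⟩ : ∃ G : Set ℂ, G = {y | ¬ (b.eval y ≠ 0 → qq p B y ≠ 0 →
      qq p B (gg a b y) ≠ 0)} := ⟨_, rfl⟩
  have hG0 : volume G = 0 := by
    rw [hG]
    exact h0
  have h1 : ∀ n : ℕ, volume {y : ℂ | ¬ ((∀ j < n, b.eval ((gg a b)^[j] y) ≠ 0) →
      (gg a b)^[n] y ∉ G)} = 0 := by
    intro n
    induction n with
    | zero =>
      refine measure_mono_null ?_ hG0
      intro y hy
      by_contra h2
      exact hy fun _ => h2
    | succ n ih =>
      refine measure_mono_null ?_ (pre_null h ih)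
      intro y hy
      rw [Set.mem_setOf_eq] at hy
      push Not at hy
      obtain ⟨hy1, hy2⟩ := hy
      refine ⟨hy1 0 (Nat.succ_pos n), ?_⟩
      rw [Set.mem_setOf_eq]
      push Not
      refine ⟨fun j hj => ?_, ?_⟩
      · have h3 := hy1 (j + 1) (by omega)
        rwa [Function.iterate_succ_apply] at h3
      · rwa [Function.iterate_succ_apply] at hy2
  have h2 : ∀ᵐ y : ℂ, ∀ n : ℕ, (∀ j < n, b.eval ((gg a b)^[j] y) ≠ 0) →
      (gg a b)^[n] y ∉ G := by
    rw [ae_all_iff]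
    exact h1
  filter_upwards [h2] with y hy n
  induction n with
  | zero =>
    intro _ hq
    exact hq
  | succ n ih =>
    intro hb hq
    have h3 := ih (fun j hj => hb j (by omega)) hq
    have h4 := hy n (fun j hj => hb j (by omega))
    rw [hG, Set.mem_setOf_eq, not_not] at h4
    rw [Function.iterate_succ_apply']
    exact h4 (hb n (Nat.lt_succ_self n)) h3

end Pool.Agent.H44.RR
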