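import Pool.Agent.H44.RR.RDef

/-!
# Module AL1: the phases of the branches are aligned

PROOF of `al_fib`. Let `q = qq p B`, `F y = ‖q y‖ₑ / ENNReal.ofReal (‖dg a b y‖ ^ 2)` (measurable; see the proof of `inv_mass`, H35/EX/SerI,
which starts with the same `F`). By `area` (H61/TT/Area) for every measurable `T`: `∫⁻ x in T, ∑ y ∈ fs a b x, F y = ∫⁻ y in pre a b T, F y * ofReal (‖dg‖ ^ 2)
= ∫⁻ y in pre a b T, ‖q y‖ₑ = ∫⁻ x in T, ‖q x‖ₑ` (`dg a b y ≠ 0` for almost every `y` in `pre a b univ`: `dg_ne`, `finite_ww`; `qq_mass`). Both integrals are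
finite (`qq_fin`), so `∑ y ∈ fs a b x, F y = ‖q x‖ₑ` for almost every `x` (`fs_aem` H35/EX/SerP gives the almost everywhere measurability;
`ae_eq_of_forall_setLIntegral_eq_of_sigmaFinite₀` or a similar lemma). For almost every `x` moreover `RegV d a b x` (`reg_finite`: all `y ∈ fs` have `b ≠ 0`, `ww ≠ 0`, so
`dg ≠ 0`) and `qq_push`: so with `z y = q y / dg y ^ 2`: `q x = ∑ y ∈ fs, z y` and `‖q x‖ = ∑ y ∈ fs, ‖z y‖`. Then every `z y` is a nonnegative multiple of `q x`: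
if `q x = 0` all `z y = 0` (`ρ = 0`). Otherwise let `u = conj (q x) / ‖q x‖`, `Re (u z y) ≤ ‖z y‖` and the sums of both sides are equal
(`Re (u q x) = ‖q x‖`), so `Re (u z y) = ‖z y‖` for every `y` (`Finset.sum_eq_sum_iff_of_le`), so `u z y = ‖z y‖` is real (`Complex.abs_re_eq_norm` or
`re = norm` implies `z = norm`, e.g. `Complex.re_eq_norm.1`), `z y = (‖z y‖ / ‖q x‖) q x`, `ρ = ‖z y‖ / ‖q x‖ ≤ 1`.
-/

set_option autoImplicit false

open MeasureTheory Metric Set Polynomial Filter Topology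

namespace Pool.Agent.H44.RR

open Pool.Agent.H61.TT Pool.Agent.H35.EX Pool.Agent.H91.CE

variable {d : ℕ} {a b : Polynomial ℂ} {p B : ℕ → ℂ}

private theorem al_alg (s : Finset ℂ) (z : ℂ → ℂ) (w : ℂ) (hw : w = ∑ y ∈ s, z y)
    (hn : ∑ y ∈ s, ‖z y‖ = ‖w‖) : ∀ y ∈ s, ∃ ρ : ℝ, 0 ≤ ρ ∧ ρ ≤ 1 ∧ z y = (ρ : ℂ) * w := by
  intro y hy
  have hle : ‖z y‖ ≤ ‖w‖ := by
    rw [← hn]
    exact Finset.single_le_sum (f := fun y => ‖z y‖) (fun i _ => norm_nonneg _) hy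
  by_cases h0 : w = 0
  · refine ⟨0, le_rfl, by norm_num, ?_⟩
    rw [h0, norm_zero] at hle
    have h1 : z y = 0 := norm_le_zero_iff.mp hle
    rw [h1, h0]
    simp
  · have hpos : 0 < ‖w‖ := norm_pos_iff.mpr h0
    have hposC : ((‖w‖ : ℝ) : ℂ) ≠ 0 := by
      exact_mod_cast hpos.ne'
    obtain ⟨u, hu⟩ : ∃ u : ℂ, u = (starRingEnd ℂ) w / ((‖w‖ : ℝ) : ℂ) := ⟨_, rfl⟩
    have hconj : (starRingEnd ℂ) w * w = ((‖w‖ : ℝ) : ℂ) ^ 2 := by
      rw [mul_comm, Complex.mul_conj, Complex.normSq_eq_norm_sq]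
      push_cast
      rfl
    have huw : u * w = ((‖w‖ : ℝ) : ℂ) := by
      rw [hu, div_mul_eq_mul_div, hconj, pow_two, mul_div_assoc, div_self hposC, mul_one]
    have hun : ‖u‖ = 1 := by
      have h1 : ‖u‖ * ‖w‖ = ‖w‖ := by
        rw [← norm_mul, huw, Complex.norm_real, norm_norm]
      have h2 : ‖u‖ * ‖w‖ = 1 * ‖w‖ := by rw [h1, one_mul]
      exact mul_right_cancel₀ hpos.ne' h2
    have hre : ∀ i ∈ s, (u * z i).re ≤ ‖z i‖ := by
      intro i _
      have h1 := Complex.re_le_norm (u * z i)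
      rw [norm_mul, hun, one_mul] at h1
      exact h1
    have hsum : ∑ i ∈ s, (u * z i).re = ∑ i ∈ s, ‖z i‖ := by
      rw [hn, ← Complex.re_sum, ← Finset.mul_sum, ← hw, huw, Complex.ofReal_re]
    have heq := (Finset.sum_eq_sum_iff_of_le hre).mp hsum y hy
    have him : (u * z y).im = 0 := by
      have h1 : ‖u * z y‖ = ‖z y‖ := by rw [norm_mul, hun, one_mul]
      have h2 := Complex.sq_norm (u * z y)
      rw [h1, Complex.normSq_apply, heq] at h2
      have h3 : (u * z y).im * (u * z y).im = 0 := by nlinarith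
      exact mul_self_eq_zero.mp h3
    have hreal : u * z y = ((‖z y‖ : ℝ) : ℂ) := by
      apply Complex.ext
      · rw [heq, Complex.ofReal_re]
      · rw [him, Complex.ofReal_im]
    refine ⟨‖z y‖ / ‖w‖, by positivity, ?_, ?_⟩
    · rw [div_le_one hpos]
      exact hle
    · have h1 : z y * ((‖w‖ : ℝ) : ℂ) = ((‖z y‖ : ℝ) : ℂ) * w := by
        rw [← hreal, ← huw]
        ring
      push_cast
      rw [div_mul_eq_mul_div, eq_div_iff hposC]
      exact h1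

theorem al_fib (h : RatD d a b) (hs : Ser d a b p B) :
    ∀ᵐ x : ℂ, ∀ y ∈ fs a b x, ∃ ρ : ℝ, 0 ≤ ρ ∧ ρ ≤ 1 ∧
      qq p B y / dg a b y ^ 2 = (ρ : ℂ) * qq p B x := by
  obtain ⟨F, hF⟩ : ∃ F : ℂ → ENNReal,
      ∀ y, F y = ‖qq p B y‖ₑ / ENNReal.ofReal (‖dg a b y‖ ^ 2) := ⟨_, fun _ => rfl⟩
  have hFm : Measurable F := by
    have : F = fun y => ‖qq p B y‖ₑ / ENNReal.ofReal (‖dg a b y‖ ^ 2) := funext hF
    rw [this]
    exact (qq_meas p B).enorm.div (ENNReal.measurable_ofReal.comp ((measurable_dg.norm).pow_const 2))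
  have hsum : ∀ T : Set ℂ, MeasurableSet T → volume T < ⊤ →
      ∫⁻ x in T, ∑ y ∈ fs a b x, F y = ∫⁻ x in T, ‖qq p B x‖ₑ := by
    intro T hT _
    rw [area h hT hFm, ← qq_mass h hs hT]
    apply lintegral_congr_ae
    filter_upwards [ae_restrict_of_ae (ae_ww h), ae_restrict_mem (measurableSet_pre hT)] with y hy1 hy2
    have hdg : dg a b y ≠ 0 := (dg_ne hy2.1).2 hy1
    have hpos : 0 < ‖dg a b y‖ ^ 2 := by positivity
    rw [hF, ENNReal.div_mul_cancel (ENNReal.ofReal_pos.mpr hpos).ne' ENNReal.ofReal_ne_top]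
  have hae : (fun x => ∑ y ∈ fs a b x, F y) =ᵐ[volume] fun x => ‖qq p B x‖ₑ :=
    ae_eq_of_forall_setLIntegral_eq_of_sigmaFinite₀ (fs_aem h hFm) (qq_meas p B).enorm.aemeasurable hsum
  have hreg : ∀ᵐ x : ℂ, RegV d a b x := by
    rw [ae_iff]
    exact (reg_finite h).measure_zero volume
  filter_upwards [hae, qq_push h hs, hreg] with x h1 h2 h3
  apply al_alg (fs a b x) (fun y => qq p B y / dg a b y ^ 2) (qq p B x) h2
  have h4 : ∀ y ∈ fs a b x, F y = ENNReal.ofReal ‖qq p B y / dg a b y ^ 2‖ := by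
    intro y hy
    have hdg : dg a b y ≠ 0 := (dg_ne (h3.hb y hy)).2 (h3.hw y hy)
    have hpos : 0 < ‖dg a b y‖ ^ 2 := by positivity
    rw [hF, norm_div, norm_pow, ENNReal.ofReal_div_of_pos hpos, ofReal_norm_eq_enorm]
  have h5 : ENNReal.ofReal (∑ y ∈ fs a b x, ‖qq p B y / dg a b y ^ 2‖) =
      ENNReal.ofReal ‖qq p B x‖ := by
    rw [ENNReal.ofReal_sum_of_nonneg (fun y _ => norm_nonneg _), ofReal_norm_eq_enorm, ← h1]
    exact Finset.sum_congr rfl fun y hy => (h4 y hy).symm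
  exact (ENNReal.ofReal_eq_ofReal_iff (Finset.sum_nonneg fun y _ => norm_nonneg _)
    (norm_nonneg _)).mp h5

end Pool.Agent.H44.RR
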