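import Pool.Agent.H44.RR.RDef

/-!
# Module ANQ: `qq` is holomorphic outside `Xc p`

PROOF. `z ∉ Xc p`, `Xc p` closed: `ball z (2 ρ)` does not meet it. On the open set `ball z ρ`: the terms `B k / (x - p (k + 1))` are holomorphic and bounded by
`‖B k‖ / ρ` (`‖x - p (k+1)‖ ≥ ρ`), summable. `differentiableOn_tsum_of_summable_norm`, then `DifferentiableOn.analyticAt`.
-/

set_option autoImplicit false

open MeasureTheory Metric Set Polynomial Filter Topology

namespace Pool.Agent.H44.RR

open Pool.Agent.H61.TT Pool.Agent.H35.EX Pool.Agent.H91.CE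

variable {d : ℕ} {a b : Polynomial ℂ} {p B : ℕ → ℂ}

theorem qq_an (hB : Summable fun k => ‖B k‖) {z : ℂ} (hz : z ∉ Xc p) : AnalyticAt ℂ (qq p B) z := by
  obtain ⟨ρ, hρ, hball⟩ := Metric.isOpen_iff.1 (isClosed_Xc p).isOpen_compl z hz
  have hd : DifferentiableOn ℂ (qq p B) (ball z (ρ / 2)) := by
    have hdist : ∀ k, ∀ x ∈ ball z (ρ / 2), ρ / 2 ≤ ‖x - p (k + 1)‖ := by
      intro k x hx
      by_contra hlt
      push Not at hlt
      have h1 : p (k + 1) ∈ ball z ρ := by
        rw [mem_ball_iff_norm] at hx ⊢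
        calc ‖p (k + 1) - z‖ = ‖(x - z) - (x - p (k + 1))‖ := by congr 1; ring
          _ ≤ ‖x - z‖ + ‖x - p (k + 1)‖ := norm_sub_le _ _
          _ < ρ / 2 + ρ / 2 := add_lt_add hx hlt
          _ = ρ := by ring
      exact hball h1 (mem_Xc p k)
    have h2 := Complex.differentiableOn_tsum_of_summable_norm
      (F := fun k x => B k / (x - p (k + 1))) (u := fun k => ‖B k‖ * (ρ / 2)⁻¹)
      (U := ball z (ρ / 2)) (hB.mul_right _) (fun k => ?_) isOpen_ball (fun k x hx => ?_)
    · exact h2
    · intro x hx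
      have h3 := hdist k x hx
      have h4 : x - p (k + 1) ≠ 0 := by
        rw [← norm_pos_iff]
        linarith
      refine DifferentiableAt.differentiableWithinAt ?_
      exact (differentiableAt_const _).div ((differentiableAt_id).sub_const _) h4
    · have h3 := hdist k x hx
      rw [norm_div, div_eq_mul_inv]
      exact mul_le_mul_of_nonneg_left (inv_anti₀ (by positivity) h3) (norm_nonneg _)
  exact hd.analyticAt (ball_mem_nhds z (by positivity))

end Pool.Agent.H44.RR
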