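import Pool.Agent.H44.RR.RDef
import Pool.Agent.H91.CE.TAYL

/-!
# Module ATM: the simple pole of `qq` at an arbitrary point, in the mean

PROOF. For almost every `z` (`ae_sum`, `Measure.ae_ne` for the countably many `p (k + 1)` and `x`): `qq p B z - Rs p B x / (z - x) = ∑' k, (if p (k + 1) = x then 0 else B k) / (z - p (k + 1))`
(`tsum_add`/`tsum_sub` of summable families; `Rs` is a `tsum` of a family bounded by `‖B k‖`). So the integral over `ball x δ` is at most `∑' k, ‖B k‖ₑ * I k δ` over the `k` with `p (k + 1) ≠ x`, `I k δ = ∫⁻ z in ball x δ, ofReal (‖z - p (k+1)‖⁻¹)`.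
`I k δ / δ ≤ 3 π` (`tayl_ker`, private in H91/CE/TAYL: copy) and `I k δ / δ → 0` for every such `k` (`tayl_far`, private: copy). Dominated convergence for sums (`tendsto_tsum_of_dominated_convergence` for
real numbers, or as in the proof of `qs_taylor`, which is the same argument with `m ≥ 1`; here `m = 0`).
-/

set_option autoImplicit false

open MeasureTheory Metric Set Polynomial Filter Topology

namespace Pool.Agent.H44.RR

open Pool.Agent.H61.TT Pool.Agent.H35.EX Pool.Agent.H91.CE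

variable {p B : ℕ → ℂ}

private theorem atm_ker_zero {δ : ℝ} (hδ : 0 < δ) :
    ∫⁻ x in ball (0 : ℂ) δ, ENNReal.ofReal (‖x‖⁻¹) ≤ ENNReal.ofReal (2 * Real.pi * δ) := by
  rw [← lintegral_indicator measurableSet_ball, ← Complex.lintegral_comp_polarCoord_symm]
  have h1 : (∫⁻ q in polarCoord.target, ENNReal.ofReal q.1 •
      (ball (0 : ℂ) δ).indicator (fun x => ENNReal.ofReal (‖x‖⁻¹)) (Complex.polarCoord.symm q)) ≤
      ∫⁻ q in polarCoord.target, (Iio δ ×ˢ (univ : Set ℝ)).indicator 1 q := by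
    refine setLIntegral_mono' polarCoord.open_target.measurableSet fun q hq => ?_
    have hq1 : 0 < q.1 := hq.1
    by_cases h : q.1 < δ
    · have hm : q ∈ Iio δ ×ˢ (univ : Set ℝ) := ⟨h, mem_univ _⟩
      have hb : Complex.polarCoord.symm q ∈ ball (0 : ℂ) δ := by
        rw [mem_ball_zero_iff, Complex.norm_polarCoord_symm, abs_of_pos hq1]
        exact h
      rw [indicator_of_mem hm, indicator_of_mem hb, Complex.norm_polarCoord_symm, abs_of_pos hq1,
        smul_eq_mul, ← ENNReal.ofReal_mul hq1.le, mul_inv_cancel₀ hq1.ne', ENNReal.ofReal_one]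
      exact le_refl _
    · have hb : Complex.polarCoord.symm q ∉ ball (0 : ℂ) δ := by
        rw [mem_ball_zero_iff, Complex.norm_polarCoord_symm, abs_of_pos hq1]
        exact h
      rw [indicator_of_notMem hb, smul_zero]
      exact bot_le
  have hms : MeasurableSet (Iio δ ×ˢ (univ : Set ℝ)) := measurableSet_Iio.prod MeasurableSet.univ
  rw [lintegral_indicator_one hms, Measure.restrict_apply hms] at h1
  refine (h1.trans (measure_mono (t := Ioo (0 : ℝ) δ ×ˢ Ioo (-Real.pi) Real.pi) ?_)).trans ?_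
  · rintro q ⟨h2, h3⟩
    exact ⟨⟨h3.1, h2.1⟩, h3.2⟩
  · rw [Measure.volume_eq_prod, Measure.prod_prod, Real.volume_Ioo, Real.volume_Ioo,
      ← ENNReal.ofReal_mul (by linarith)]
    apply le_of_eq
    congr 1
    ring

private theorem atm_ker (c p : ℂ) {δ : ℝ} (hδ : 0 < δ) :
    ∫⁻ x in ball c δ, ENNReal.ofReal (‖x - p‖⁻¹) ≤ ENNReal.ofReal (3 * Real.pi * δ) := by
  have h1 : ∀ x : ℂ, ENNReal.ofReal (‖x - p‖⁻¹) ≤
      (ball (0 : ℂ) δ).indicator (fun x => ENNReal.ofReal (‖x‖⁻¹)) (x - p) +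
        ENNReal.ofReal δ⁻¹ := by
    intro x
    by_cases h : x - p ∈ ball (0 : ℂ) δ
    · rw [indicator_of_mem h]
      exact le_self_add
    · rw [indicator_of_notMem h, zero_add]
      rw [mem_ball_zero_iff, not_lt] at h
      exact ENNReal.ofReal_le_ofReal (inv_anti₀ hδ h)
  calc ∫⁻ x in ball c δ, ENNReal.ofReal (‖x - p‖⁻¹)
      ≤ ∫⁻ x in ball c δ, ((ball (0 : ℂ) δ).indicator
          (fun x => ENNReal.ofReal (‖x‖⁻¹)) (x - p) + ENNReal.ofReal δ⁻¹) :=
        lintegral_mono fun x => h1 x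
    _ = (∫⁻ x in ball c δ, (ball (0 : ℂ) δ).indicator
          (fun x => ENNReal.ofReal (‖x‖⁻¹)) (x - p)) + ∫⁻ x in ball c δ, ENNReal.ofReal δ⁻¹ :=
        lintegral_add_right _ measurable_const
    _ ≤ (∫⁻ x, (ball (0 : ℂ) δ).indicator
          (fun x => ENNReal.ofReal (‖x‖⁻¹)) (x - p)) + ENNReal.ofReal (Real.pi * δ) := by
        refine add_le_add (setLIntegral_le_lintegral _ _) ?_
        rw [setLIntegral_const, Complex.volume_ball]
        have h2 : ((NNReal.pi : NNReal) : ENNReal) = ENNReal.ofReal Real.pi := by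
          rw [← NNReal.coe_real_pi, ENNReal.ofReal_coe_nnreal]
        rw [h2, ← ENNReal.ofReal_pow hδ.le, ← ENNReal.ofReal_mul (by positivity),
          ← ENNReal.ofReal_mul (by positivity)]
        apply le_of_eq
        congr 1
        field_simp
    _ = (∫⁻ x in ball (0 : ℂ) δ, ENNReal.ofReal (‖x‖⁻¹)) + ENNReal.ofReal (Real.pi * δ) := by
        congr 1
        rw [lintegral_sub_right_eq_self
          (fun x => (ball (0 : ℂ) δ).indicator (fun x => ENNReal.ofReal (‖x‖⁻¹)) x) p,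
          lintegral_indicator measurableSet_ball]
    _ ≤ ENNReal.ofReal (2 * Real.pi * δ) + ENNReal.ofReal (Real.pi * δ) :=
        add_le_add (atm_ker_zero hδ) le_rfl
    _ = ENNReal.ofReal (3 * Real.pi * δ) := by
        rw [← ENNReal.ofReal_add (by positivity) (by positivity)]
        congr 1
        ring

private theorem atm_far (c p : ℂ) {δ : ℝ} (hδ : 0 < δ) (h : 2 * δ ≤ ‖p - c‖) :
    ∫⁻ x in ball c δ, ENNReal.ofReal (‖x - p‖⁻¹) ≤
      ENNReal.ofReal (2 * Real.pi / ‖p - c‖ * δ ^ 2) := by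
  have hd : 0 < ‖p - c‖ := by linarith
  have h1 : ∀ x ∈ ball c δ, ENNReal.ofReal (‖x - p‖⁻¹) ≤ ENNReal.ofReal (2 / ‖p - c‖) := by
    intro x hx
    rw [mem_ball_iff_norm] at hx
    apply ENNReal.ofReal_le_ofReal
    have h2 : ‖p - c‖ / 2 ≤ ‖x - p‖ := by
      have h3 : ‖p - c‖ ≤ ‖x - p‖ + ‖x - c‖ := by
        calc ‖p - c‖ = ‖-(x - p) + (x - c)‖ := by congr 1; ring
          _ ≤ ‖-(x - p)‖ + ‖x - c‖ := norm_add_le _ _
          _ = _ := by rw [norm_neg]
      linarith
    have h4 : ‖x - p‖⁻¹ ≤ (‖p - c‖ / 2)⁻¹ := inv_anti₀ (by positivity) h2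
    rw [inv_div] at h4
    exact h4
  refine (setLIntegral_mono' measurableSet_ball h1).trans ?_
  rw [setLIntegral_const, Complex.volume_ball]
  have h2 : ((NNReal.pi : NNReal) : ENNReal) = ENNReal.ofReal Real.pi := by
    rw [← NNReal.coe_real_pi, ENNReal.ofReal_coe_nnreal]
  rw [h2, ← ENNReal.ofReal_pow hδ.le, ← ENNReal.ofReal_mul (by positivity),
    ← ENNReal.ofReal_mul (by positivity)]
  apply le_of_eq
  congr 1
  ring

private theorem atm_lim (c p : ℂ) (hp : p ≠ c) :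
    Tendsto (fun δ : ℝ => (∫⁻ x in ball c δ, ENNReal.ofReal (‖x - p‖⁻¹)) / ENNReal.ofReal δ)
      (𝓝[>] 0) (𝓝 0) := by
  have hd : 0 < ‖p - c‖ := norm_pos_iff.2 (sub_ne_zero.2 hp)
  have h1 : Tendsto (fun δ : ℝ => ENNReal.ofReal (2 * Real.pi / ‖p - c‖ * δ)) (𝓝[>] 0) (𝓝 0) := by
    have h2 : Tendsto (fun δ : ℝ => ENNReal.ofReal (2 * Real.pi / ‖p - c‖ * δ)) (𝓝 0)
        (𝓝 (ENNReal.ofReal (2 * Real.pi / ‖p - c‖ * 0))) :=
      (ENNReal.continuous_ofReal.comp (continuous_const.mul continuous_id)).tendsto 0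
    rw [mul_zero, ENNReal.ofReal_zero] at h2
    exact h2.mono_left nhdsWithin_le_nhds
  refine tendsto_of_tendsto_of_tendsto_of_le_of_le' tendsto_const_nhds h1
    (Eventually.of_forall fun _ => bot_le) ?_
  have h3 : ∀ᶠ δ : ℝ in 𝓝[>] 0, δ ∈ Ioo (0 : ℝ) (‖p - c‖ / 2) :=
    Ioo_mem_nhdsGT (by positivity)
  filter_upwards [h3] with δ hδ
  have hδ0 : 0 < δ := hδ.1
  refine (ENNReal.div_le_div_right (atm_far c p hδ0 (by linarith [hδ.2])) _).trans ?_
  rw [← ENNReal.ofReal_div_of_pos hδ0]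
  apply le_of_eq
  congr 1
  field_simp

private theorem atm_ae (hB : Summable fun k => ‖B k‖) (x : ℂ) :
    ∃ β : ℕ → ℂ, (∀ k, p (k + 1) = x → β k = 0) ∧ (Summable fun k => ‖β k‖) ∧
      ∀ᵐ z : ℂ, qq p B z - Rs p B x / (z - x) = ∑' k, β k / (z - p (k + 1)) := by
  classical
  obtain ⟨γ, hγ⟩ : ∃ γ : ℕ → ℂ, ∀ k, γ k = if p (k + 1) = x then B k else 0 := ⟨_, fun _ => rfl⟩
  have hγs : Summable γ := by
    refine Summable.of_norm_bounded (g := fun k => ‖B k‖) hB fun k => ?_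
    rw [hγ]
    split_ifs
    · exact le_rfl
    · rw [norm_zero]
      exact norm_nonneg _
  have hRs : Rs p B x = ∑' k, γ k := by
    unfold Rs
    refine tsum_congr fun k => ?_
    rw [hγ]
  refine ⟨fun k => B k - γ k, ?_, ?_, ?_⟩
  · intro k hk
    show B k - γ k = 0
    rw [hγ, if_pos hk, sub_self]
  · refine Summable.of_nonneg_of_le (fun k => norm_nonneg _) (fun k => ?_) hB
    show ‖B k - γ k‖ ≤ ‖B k‖
    rw [hγ]
    split_ifs
    · rw [sub_self, norm_zero]
      exact norm_nonneg _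
    · rw [sub_zero]
  · filter_upwards [ae_sum (p := fun k => p (k + 1)) hB] with z hz
    have h1 : Rs p B x / (z - x) = ∑' k, γ k / (z - x) := by
      rw [hRs, tsum_div_const]
    have h2 : qq p B z = ∑' k, B k / (z - p (k + 1)) := rfl
    rw [h1, h2, ← Summable.tsum_sub hz (hγs.div_const _)]
    refine tsum_congr fun k => ?_
    rw [hγ]
    split_ifs with h3
    · rw [h3, sub_self, sub_self, zero_div]
    · rw [zero_div, sub_zero, sub_zero]

theorem atm (hB : Summable fun k => ‖B k‖) (x : ℂ) :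
    Tendsto (fun δ : ℝ => (∫⁻ z in ball x δ, ‖qq p B z - Rs p B x / (z - x)‖ₑ) / ENNReal.ofReal δ)
      (𝓝[>] 0) (𝓝 0) := by
  obtain ⟨β, hβ0, hβ, hae⟩ := atm_ae (p := p) hB x
  have hle : ∀ δ : ℝ, (∫⁻ z in ball x δ, ‖qq p B z - Rs p B x / (z - x)‖ₑ) ≤
      ∑' k, ENNReal.ofReal ‖β k‖ * ∫⁻ z in ball x δ, ENNReal.ofReal (‖z - p (k + 1)‖⁻¹) := by
    intro δ
    have h1 : (∫⁻ z in ball x δ, ‖qq p B z - Rs p B x / (z - x)‖ₑ) =
        ∫⁻ z in ball x δ, ‖∑' k, β k / (z - p (k + 1))‖ₑ := by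
      refine lintegral_congr_ae (ae_restrict_of_ae ?_)
      filter_upwards [hae] with z hz
      rw [hz]
    rw [h1]
    have h2 : ∀ z : ℂ, ‖∑' k, β k / (z - p (k + 1))‖ₑ ≤
        ∑' k, ENNReal.ofReal ‖β k‖ * ENNReal.ofReal (‖z - p (k + 1)‖⁻¹) := by
      intro z
      refine enorm_tsum_le_tsum_enorm.trans (ENNReal.tsum_le_tsum fun k => ?_)
      rw [← ofReal_norm, ← ENNReal.ofReal_mul (norm_nonneg _), norm_div, div_eq_mul_inv]
    refine (lintegral_mono fun z => h2 z).trans ?_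
    have hm : ∀ k, Measurable fun z : ℂ => ENNReal.ofReal (‖z - p (k + 1)‖⁻¹) := fun k =>
      ENNReal.measurable_ofReal.comp (measurable_id.sub_const (p (k + 1))).norm.inv
    rw [lintegral_tsum fun k => ((hm k).const_mul _).aemeasurable]
    apply le_of_eq
    congr 1
    funext k
    rw [lintegral_const_mul' _ _ ENNReal.ofReal_ne_top]
  have hC : ∀ k, ∀ δ : ℝ, 0 < δ → (∫⁻ z in ball x δ, ENNReal.ofReal (‖z - p (k + 1)‖⁻¹)) /
      ENNReal.ofReal δ ≤ ENNReal.ofReal (3 * Real.pi) := by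
    intro k δ hδ
    refine (ENNReal.div_le_div_right (atm_ker x (p (k + 1)) hδ) _).trans ?_
    rw [← ENNReal.ofReal_div_of_pos hδ]
    apply le_of_eq
    congr 1
    field_simp
  have h1 : Tendsto (fun δ : ℝ => ∑' k, ENNReal.ofReal ‖β k‖ *
      ((∫⁻ z in ball x δ, ENNReal.ofReal (‖z - p (k + 1)‖⁻¹)) / ENNReal.ofReal δ)) (𝓝[>] 0) (𝓝 0) := by
    simp_rw [← lintegral_count]
    have h2 : (0 : ENNReal) = ∫⁻ _ : ℕ, 0 ∂Measure.count := by simp
    rw [h2]
    refine tendsto_lintegral_filter_of_dominated_convergence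
      (fun k => ENNReal.ofReal ‖β k‖ * ENNReal.ofReal (3 * Real.pi)) ?_ ?_ ?_ ?_
    · exact Eventually.of_forall fun δ => measurable_from_nat
    · filter_upwards [self_mem_nhdsWithin] with δ hδ
      exact Eventually.of_forall fun k => mul_le_mul_right (hC k δ hδ) _
    · rw [lintegral_count, ENNReal.tsum_mul_right]
      refine ENNReal.mul_ne_top ?_ ENNReal.ofReal_ne_top
      rw [← ENNReal.ofReal_tsum_of_nonneg (fun k => norm_nonneg _) hβ]
      exact ENNReal.ofReal_ne_top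
    · refine Eventually.of_forall fun k => ?_
      by_cases hk : p (k + 1) = x
      · rw [hβ0 k hk, norm_zero, ENNReal.ofReal_zero]
        simp only [zero_mul]
        exact tendsto_const_nhds
      · have h3 := ENNReal.Tendsto.const_mul (a := ENNReal.ofReal ‖β k‖)
          (atm_lim x (p (k + 1)) hk) (Or.inr ENNReal.ofReal_ne_top)
        rw [mul_zero] at h3
        exact h3
  refine tendsto_of_tendsto_of_tendsto_of_le_of_le' tendsto_const_nhds h1
    (Eventually.of_forall fun _ => bot_le) ?_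
  filter_upwards [self_mem_nhdsWithin] with δ hδ
  refine (ENNReal.div_le_div_right (hle δ) _).trans ?_
  rw [div_eq_mul_inv, ← ENNReal.tsum_mul_right]
  refine ENNReal.tsum_le_tsum fun k => ?_
  rw [mul_assoc, ← div_eq_mul_inv]

end Pool.Agent.H44.RR
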