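import Pool.Agent.H44.RR.CO1
import Pool.Agent.H44.RR.ATM
import Pool.Agent.H44.RR.AL1
import Pool.Agent.H44.RR.ANQ

/-!
# Module CO2: noncritical preimages of a pole lie in `Xc p`

PROOF. `gg a b` is analytic at `y` with derivative `dg a b y ≠ 0` (`mem_fs`, `dg_ne`, `hasDerivAt_gg`; `gg a b y = x`). Let `g` be the local inverse (`HasStrictDerivAt.localInverse` or `AnalyticAt` inverse function theorem; `g` is
defined near `x`, analytic at `x` (differentiable near `x`), `g x = y`, `gg a b (g z) = z` near `x`, `deriv g z = 1 / dg a b (g z)`, `b.eval (g z) ≠ 0`). Put `k z = qq p B (g z) / dg a b (g z) ^ 2`, analytic at `x` (`qq_an` at `y ∉ Xc p`),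
nonzero in a punctured neighbourhood of `x` (`hnz`; `g` is injective near `x`, `g z ≠ y` for `z ≠ x`). For almost every `z` near `x`: `g z ∈ fs a b z` (`mem_fs`), so by `al_fib` `k z = ρ qq p B z`, `ρ ≥ 0`.
`co1` with `q = qq p B`, `R = Rs p B x`, `atm`, `qq_meas`: contradiction.
-/

set_option autoImplicit false

open MeasureTheory Metric Set Polynomial Filter Topology

namespace Pool.Agent.H44.RR

open Pool.Agent.H61.TT Pool.Agent.H35.EX Pool.Agent.H91.CE

variable {d : ℕ} {a b : Polynomial ℂ} {p B : ℕ → ℂ}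

theorem co2 (h : RatD d a b) (hs : Ser d a b p B) {x y : ℂ} (hR : Rs p B x ≠ 0) (hy : y ∈ fs a b x)
    (hw : (ww a b).eval y ≠ 0) (hX : y ∉ Xc p) (hnz : ∀ᶠ z in 𝓝[≠] y, qq p B z ≠ 0) : False := by
  obtain ⟨hby, hgy⟩ := (mem_fs h x y).1 hy
  have hdg : dg a b y ≠ 0 := (dg_ne hby).2 hw
  have evb : ∀ᶠ w in 𝓝 y, b.eval w ≠ 0 := b.continuous.continuousAt.eventually_ne hby
  have han : AnalyticAt ℂ (gg a b) y := by
    rw [Complex.analyticAt_iff_eventually_differentiableAt]
    filter_upwards [evb] with w hw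
    exact (hasDerivAt_gg hw).differentiableAt
  have handg : AnalyticAt ℂ (dg a b) y := by
    rw [Complex.analyticAt_iff_eventually_differentiableAt]
    filter_upwards [evb] with w hw
    exact differentiableAt_dg hw
  have hne : deriv (gg a b) y ≠ 0 := by
    rw [(hasDerivAt_gg hby).deriv]
    exact hdg
  obtain ⟨g, hg⟩ : ∃ g, g = han.hasStrictDerivAt.localInverse _ _ _ hne := ⟨_, rfl⟩
  have h1 : AnalyticAt ℂ g x := by
    rw [hg, ← hgy]
    exact han.analyticAt_localInverse hne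
  have h2 : g x = y := by
    rw [hg, ← hgy]
    exact HasStrictFDerivAt.localInverse_apply_image ..
  have h3 : ∀ᶠ z in 𝓝 x, gg a b (g z) = z := by
    rw [hg, ← hgy]
    exact han.hasStrictDerivAt.eventually_right_inverse hne
  have hgc : Tendsto g (𝓝 x) (𝓝 y) := by
    have := h1.continuousAt
    rw [ContinuousAt, h2] at this
    exact this
  have h4 : ∀ᶠ z in 𝓝 x, b.eval (g z) ≠ 0 := hgc.eventually evb
  have h5 : ∀ᶠ z in 𝓝 x, dg a b (g z) ≠ 0 :=
    hgc.eventually (handg.continuousAt.eventually_ne hdg)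
  -- the function
  have hkan : AnalyticAt ℂ (fun z => qq p B (g z) / dg a b (g z) ^ 2) x := by
    have e1 : AnalyticAt ℂ (fun z => qq p B (g z)) x := by
      have e0 : AnalyticAt ℂ (qq p B) (g x) := by
        rw [h2]
        exact qq_an hs.sm hX
      exact e0.comp h1
    have e2 : AnalyticAt ℂ (fun z => dg a b (g z)) x := by
      have e0 : AnalyticAt ℂ (dg a b) (g x) := by
        rw [h2]
        exact handg
      exact e0.comp h1
    refine e1.div (e2.pow 2) (pow_ne_zero 2 ?_)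
    rw [h2]
    exact hdg
  have hknz : ∀ᶠ z in 𝓝[≠] x, qq p B (g z) / dg a b (g z) ^ 2 ≠ 0 := by
    have ht : Tendsto g (𝓝[≠] x) (𝓝[≠] y) := by
      rw [tendsto_nhdsWithin_iff]
      refine ⟨hgc.mono_left nhdsWithin_le_nhds, ?_⟩
      filter_upwards [h3.filter_mono nhdsWithin_le_nhds, self_mem_nhdsWithin] with z hz hzx hgz
      apply hzx
      have hgz' : g z = y := hgz
      rw [hgz', hgy] at hz
      exact hz.symm
    filter_upwards [ht.eventually hnz, h5.filter_mono nhdsWithin_le_nhds] with z hz1 hz2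
    exact div_ne_zero hz1 (pow_ne_zero 2 hz2)
  obtain ⟨r, hr, hball⟩ := Metric.eventually_nhds_iff_ball.1 (h3.and h4)
  refine co1 hR (qq_meas p B) (atm hs.sm x) hkan hknz hr ?_
  filter_upwards [al_fib h hs] with z hz hzr
  obtain ⟨hz3, hz4⟩ := hball z hzr
  obtain ⟨ρ, hρ, -, hρq⟩ := hz (g z) ((mem_fs h z (g z)).2 ⟨hz4, hz3⟩)
  exact ⟨ρ, hρ, hρq⟩

end Pool.Agent.H44.RR
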