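import Pool.Agent.H44.RR.RDef
import Pool.Agent.H44.RR.CNT

/-!
# Module FNC: the case of a finite orbit

PROOF. `X0 = range (fun k => p (k + 1))` is finite, so closed: `Xc p = X0`. Let `S = X0.toFinset`. By `hC` for `x ∈ S` the set `F x = {y ∈ fs a b x | ww y ≠ 0}` is contained in `S`, and the `F x` are disjoint (`gg a b y = x` by `mem_fs`), so
`∑ x ∈ S, card (F x) ≤ card S`. By `cnt_simple`: `2 card (fs a b x) ≤ d + card (F x)`, that is `card (F x) ≥ d - 2 (d - card (fs a b x))` (in integers), so with `cnt`: `card S ≥ d card S - 2 (2 d - 2)`,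
`(d - 1) card S ≤ 4 (d - 1)`, `card S ≤ 4 ≤ 2 d` (`h.hd : 2 ≤ d`). Take `η = ∏ x ∈ S, (X - C x)`, `natDegree η = card S ≤ 2 d`. `hs.van η`: all terms `k + 1` vanish as `p (k + 1) ∈ S`, the term `0` is `B 0 * η.eval (p 0) / b.eval (p 0) ^ 2 ≠ 0`
(`p 0 ∉ Xc p`, `b_ne hs 0`, `hs.B0`; `tsum_eq_single`): contradiction.
-/

set_option autoImplicit false

open MeasureTheory Metric Set Polynomial Filter Topology

namespace Pool.Agent.H44.RR

open Pool.Agent.H61.TT Pool.Agent.H35.EX Pool.Agent.H91.CE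

variable {d : ℕ} {a b : Polynomial ℂ} {p B : ℕ → ℂ}

theorem fnc (h : RatD d a b) (hs : Ser d a b p B) (hc : p 0 ∉ Xc p)
    (hinf : ∀ k, (fib a b (p (k + 1))).natDegree = d)
    (hC : ∀ k, ∀ y ∈ fs a b (p (k + 1)), (ww a b).eval y ≠ 0 → y ∈ Xc p)
    (hfin : (Set.range fun k => p (k + 1)).Finite) : False := by
  classical
  have hX : Xc p = Set.range fun k => p (k + 1) := by
    unfold Xc
    exact hfin.isClosed.closure_eq
  set S : Finset ℂ := hfin.toFinset with hS
  have hmem : ∀ x, x ∈ S ↔ ∃ k, p (k + 1) = x := by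
    intro x
    rw [hS, Set.Finite.mem_toFinset]
    rfl
  have hXS : ∀ x, x ∈ Xc p ↔ x ∈ S := by
    intro x
    rw [hX, hmem]
    rfl
  set F : ℂ → Finset ℂ := fun x => (fs a b x).filter (fun y => (ww a b).eval y ≠ 0) with hF
  have hFS : ∀ x ∈ S, F x ⊆ S := by
    intro x hx y hy
    obtain ⟨k, rfl⟩ := (hmem x).1 hx
    rw [hF, Finset.mem_filter] at hy
    exact (hXS y).1 (hC k y hy.1 hy.2)
  have hdis : ((S : Set ℂ)).PairwiseDisjoint F := by
    intro x _ x' _ hne
    rw [Function.onFun, Finset.disjoint_left]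
    intro y hy hy'
    rw [hF, Finset.mem_filter] at hy hy'
    exact hne (((mem_fs h x y).1 hy.1).2.symm.trans ((mem_fs h x' y).1 hy'.1).2)
  have hinfS : ∀ x ∈ S, (fib a b x).natDegree = d := by
    intro x hx
    obtain ⟨k, rfl⟩ := (hmem x).1 hx
    exact hinf k
  have h1 : ∑ x ∈ S, (F x).card ≤ S.card := by
    rw [← Finset.card_biUnion hdis]
    exact Finset.card_le_card (Finset.biUnion_subset.2 hFS)
  obtain ⟨h2, h3⟩ := cnt h S hinfS
  have h4 : ∀ x ∈ S, d ≤ (F x).card + 2 * (d - (fs a b x).card) := by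
    intro x hx
    have h5 := cnt_simple h (hinfS x hx)
    have h6 := h3 x hx
    have h7 : ((fs a b x).filter (fun y => (ww a b).eval y ≠ 0)).card = (F x).card := rfl
    have h8 : 2 * (fs a b x).card ≤ d + (F x).card := by
      rw [← h7]
      convert h5
    omega
  have h5 : S.card * d ≤ ∑ x ∈ S, ((F x).card + 2 * (d - (fs a b x).card)) := by
    rw [← smul_eq_mul, ← Finset.sum_const]
    exact Finset.sum_le_sum h4
  rw [Finset.sum_add_distrib, ← Finset.mul_sum] at h5
  have hd := h.hd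
  have hcard : S.card ≤ 4 := by
    by_contra hcon
    obtain ⟨e, rfl⟩ : ∃ e, d = e + 2 := ⟨d - 2, by omega⟩
    have h6 : S.card * (e + 2) ≤ S.card + 2 * (2 * (e + 2) - 2) := by omega
    have h7 : 2 * (e + 2) - 2 = 2 * e + 2 := by omega
    rw [h7] at h6
    nlinarith
  set η : Polynomial ℂ := ∏ x ∈ S, (X - C x) with hη
  have hdeg : η.natDegree ≤ 2 * d := by
    rw [hη, natDegree_prod_of_monic _ _ (fun x _ => monic_X_sub_C x)]
    simp only [natDegree_X_sub_C, Finset.sum_const, smul_eq_mul, mul_one]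
    omega
  have hvan := hs.van η hdeg
  have hz : ∀ k, k ≠ 0 → B k * (η.eval (p k) / b.eval (p k) ^ 2) = 0 := by
    intro k hk
    obtain ⟨j, rfl⟩ := Nat.exists_eq_succ_of_ne_zero hk
    have h8 : η.eval (p (j + 1)) = 0 := by
      rw [hη, eval_prod]
      refine Finset.prod_eq_zero ((hmem _).2 ⟨j, rfl⟩) ?_
      rw [eval_sub, eval_X, eval_C, sub_self]
    rw [Nat.succ_eq_add_one, h8, zero_div, mul_zero]
  rw [tsum_eq_single 0 hz, hs.B0, one_mul] at hvan
  have h9 : η.eval (p 0) ≠ 0 := by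
    rw [hη, eval_prod, Finset.prod_ne_zero_iff]
    intro x hx
    rw [eval_sub, eval_X, eval_C, sub_ne_zero]
    rintro rfl
    exact hc ((hXS _).2 hx)
  exact div_ne_zero h9 (pow_ne_zero 2 (Pool.Agent.H35.EX.b_ne hs 0)) hvan

end Pool.Agent.H44.RR
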