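import Pool.Agent.H44.RR.RDef

/-!
# Module IFC: the case of an infinite orbit

Write `x k = p (k + 1)`, `gg a b (x k) = x (k + 1)` (`hs.orb`), `X = Xc p`, `G = gg a b`.
STEP 0. `x` is injective: if `x i = x j`, `i < j`, then `x (i + l) = x (j + l)` for all `l` (iterate `G`), so `x` is periodic from `i` on and its range is finite, against `hinf`.
STEP 1. `{x | ¬ RegV d a b x}` is finite (`reg_finite`), so there is `k0` with `RegV d a b (x k)` for `k ≥ k0` (an injective sequence meets a finite set finitely often); then `fs a b (x k)` has `d` points, all with `ww ≠ 0`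
(`RegV.hw`), so `fs a b (x k) ⊆ X` by `hC`.
STEP 2. Let `W = {ξ | ∀ U ∈ 𝓝 ξ, ∃ᶠ k in atTop, x k ∈ U}` (cluster points, `MapClusterPt ξ atTop x`). `X = range x ∪ W` (`X` is the closure of the range: a point of the closure outside the range has all its neighbourhoods met by
infinitely many `x k`). `W ⊆ X`. If `ξ ∈ W` then `G ξ ∈ W` (`b.eval ξ ≠ 0` by `hbX`, `G` continuous at `ξ`, `G (x k) = x (k + 1)`).
STEP 3. If `ξ ∈ W`, `b.eval y ≠ 0` and `G y = ξ` then `y ∈ X`: let `U` be a neighbourhood of `y`; `G` is open at `y` (`G` is analytic at `y` and not constant near `y`: `AnalyticAt.eventually_constant_or_nhds_le_map_nhds`; it is not constant since the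
fibre `fs a b ξ` is finite, `mem_fs`), so `G '' U` is a neighbourhood of `ξ` (we may take `U ⊆ {b.eval ≠ 0}`) and contains `x k` for some `k ≥ k0`: `x k = G y'`, `y' ∈ U`, `y' ∈ fs a b (x k) ⊆ X`. So `y` is in the closure of `X`.
STEP 4. `x 0 ∉ W`: otherwise `p 0 ∈ X` by STEP 3 (`G (p 0) = p 1 = x 0`, `hs.orb 0`), against `hc`.
STEP 5. No `x k` is in `W`: otherwise let `j` be least with `x (j + 1) ∈ W` (STEP 4), `u = x j ∉ W`. There is a neighbourhood `U` of `u` with `U ∩ X = {u}` (`u ∉ W`: a neighbourhood `U1` with `x k ∉ U1` for `k ≥ K`; remove the finitely many `x k ≠ u`,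
`k < K`; a point of `X ∩ U` is in the closure of `{u}` as `U` is open). `ww a b` does not vanish at `u` (`hw`), `G` is open at `u`, so `G '' U` is a neighbourhood of `G u = x (j + 1) ∈ W` and contains `x k` for some
`k ≥ k0`, `k > j + 1`: `x k = G y'`, `y' ∈ U`, `y' ∈ fs a b (x k) ⊆ X`, so `y' = u`, `x k = x (j + 1)`, against the injectivity.
STEP 6. Let `k = k0 + 1`. Every `y ∈ fs a b (x k)` is in `X = range x ∪ W`; `y ∈ W` would give `x k = G y ∈ W` (STEP 2), against STEP 5; so `y = x i`, `G y = x (i + 1) = x k`, `i = k - 1`. So `fs a b (x k)` has at most one point, but it has `d ≥ 2` points.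
-/

set_option autoImplicit false

open MeasureTheory Metric Set Polynomial Filter Topology

namespace Pool.Agent.H44.RR

open Pool.Agent.H61.TT Pool.Agent.H35.EX Pool.Agent.H91.CE

variable {d : ℕ} {a b : Polynomial ℂ} {p B : ℕ → ℂ}

theorem ifc (h : RatD d a b) (hs : Ser d a b p B) (hc : p 0 ∉ Xc p)
    (hw : ∀ x ∈ Xc p, (ww a b).eval x ≠ 0) (hbX : ∀ x ∈ Xc p, b.eval x ≠ 0)
    (hC : ∀ k, ∀ y ∈ fs a b (p (k + 1)), (ww a b).eval y ≠ 0 → y ∈ Xc p)
    (hinf : (Set.range fun k => p (k + 1)).Infinite) : False := by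
  have _ := hw
  set x : ℕ → ℂ := fun k => p (k + 1) with hx
  have hXc : Xc p = closure (Set.range x) := rfl
  have hG : ∀ k, gg a b (x k) = x (k + 1) := fun k => hs.orb (k + 1)
  have hxX : ∀ k, x k ∈ Xc p := fun k => mem_Xc p k
  -- Step 0
  have hinj : Function.Injective x := by
    have key : ∀ i j : ℕ, i < j → x i ≠ x j := by
      intro i j hij heq
      apply hinf
      have h1 : ∀ l, x (i + l) = x (j + l) := by
        intro l
        induction l with
        | zero => exact heq
        | succ l ih =>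
          rw [← Nat.add_assoc, ← Nat.add_assoc, ← hG, ← hG, ih]
      have h2 : ∀ n, x n ∈ x '' (Set.Iio j) := by
        intro n
        induction n using Nat.strong_induction_on with
        | _ n ih =>
          by_cases hn : n < j
          · exact ⟨n, hn, rfl⟩
          · obtain ⟨l, rfl⟩ := Nat.exists_eq_add_of_le (not_lt.1 hn)
            rw [← h1 l]
            exact ih _ (by omega)
      refine ((Set.finite_Iio j).image x).subset ?_
      rintro _ ⟨n, rfl⟩
      exact h2 n
    intro i j hij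
    rcases lt_trichotomy i j with h1 | h1 | h1
    · exact absurd hij (key i j h1)
    · exact h1
    · exact absurd hij.symm (key j i h1)
  -- Step 1
  obtain ⟨k0, hk0⟩ : ∃ k0, ∀ k, k0 ≤ k → RegV d a b (x k) := by
    have h1 : {k | ¬ RegV d a b (x k)}.Finite := (reg_finite h).preimage hinj.injOn
    obtain ⟨m, hm⟩ := h1.bddAbove
    refine ⟨m + 1, fun k hk => ?_⟩
    by_contra h2
    have := hm h2
    omega
  have hfib : ∀ k, k0 ≤ k → ∀ y ∈ fs a b (x k), y ∈ Xc p := fun k hk y hy =>
    hC k y hy ((hk0 k hk).hw y hy)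
  -- Step 2
  have hF1 : ∀ y ∈ Xc p, y ∈ Set.range x ∨ MapClusterPt y atTop x := by
    intro y hy
    by_contra hcon
    push Not at hcon
    obtain ⟨h1, h2⟩ := hcon
    rw [mapClusterPt_iff_frequently] at h2
    push Not at h2
    obtain ⟨U, hU, h3⟩ := h2
    rw [Filter.eventually_atTop] at h3
    obtain ⟨K, hK⟩ := h3
    have h4 : y ∈ closure (Set.range x ∩ U) := by
      rw [hXc] at hy
      rw [mem_closure_iff_nhds] at hy ⊢
      intro V hV
      obtain ⟨z, hz1, hz2⟩ := hy (V ∩ U) (inter_mem hV hU)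
      exact ⟨z, hz1.1, hz2, hz1.2⟩
    have h5 : Set.range x ∩ U ⊆ x '' (Set.Iio K) := by
      rintro _ ⟨⟨k, rfl⟩, hk⟩
      refine ⟨k, ?_, rfl⟩
      by_contra h6
      exact hK k (not_lt.1 h6) hk
    have h6 := closure_mono h5 h4
    rw [((Set.finite_Iio K).image x).isClosed.closure_eq] at h6
    obtain ⟨k, -, hk⟩ := h6
    exact h1 ⟨k, hk⟩
  have hF2 : ∀ y, MapClusterPt y atTop x → y ∈ Xc p := by
    intro y hy
    rw [mapClusterPt_iff_frequently] at hy
    rw [hXc, mem_closure_iff_nhds]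
    intro V hV
    obtain ⟨k, hk⟩ := (hy V hV).exists
    exact ⟨x k, hk, k, rfl⟩
  have hcont : ∀ y, b.eval y ≠ 0 → AnalyticAt ℂ (gg a b) y := by
    intro y hy
    have h1 : AnalyticAt ℂ (fun z => a.eval z) y := AnalyticAt.aeval_polynomial analyticAt_id a
    have h2 : AnalyticAt ℂ (fun z => b.eval z) y := AnalyticAt.aeval_polynomial analyticAt_id b
    exact h1.div h2 hy
  have hF3 : ∀ ξ, MapClusterPt ξ atTop x → MapClusterPt (gg a b ξ) atTop x := by
    intro ξ hξ
    have h1 : ContinuousAt (gg a b) ξ := (hcont ξ (hbX ξ (hF2 ξ hξ))).continuousAt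
    have h2 := hξ.continuousAt_comp h1
    rw [mapClusterPt_iff_frequently] at h2 ⊢
    intro s hs'
    have h3 := h2 s hs'
    have h4 : ∃ᶠ k in atTop, x (k + 1) ∈ s := by
      refine h3.mono fun k hk => ?_
      rw [← hG]
      exact hk
    exact (tendsto_add_atTop_nat 1).frequently h4
  have hopen : ∀ y, b.eval y ≠ 0 → 𝓝 (gg a b y) ≤ map (gg a b) (𝓝 y) := by
    intro y hy
    rcases (hcont y hy).eventually_constant_or_nhds_le_map_nhds with h1 | h1
    · exfalso
      have h2 : ∀ᶠ z in 𝓝 y, b.eval z ≠ 0 :=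
        (b.continuous.continuousAt (x := y)).eventually_ne hy
      have h3 : (↑(fs a b (gg a b y)) : Set ℂ) ∈ 𝓝 y := by
        filter_upwards [h1, h2] with z hz1 hz2
        rw [Finset.mem_coe, mem_fs h]
        exact ⟨hz2, hz1⟩
      exact infinite_of_mem_nhds y h3 (Finset.finite_toSet _)
    · exact h1
  have himg : ∀ y, b.eval y ≠ 0 → ∀ U ∈ 𝓝 y,
      gg a b '' (U ∩ {z | b.eval z ≠ 0}) ∈ 𝓝 (gg a b y) := by
    intro y hy U hU
    apply hopen y hy
    rw [Filter.mem_map]
    refine mem_of_superset (inter_mem hU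
      ((b.continuous.continuousAt (x := y)).eventually_ne hy)) ?_
    exact fun z hz => ⟨z, hz, rfl⟩
  -- Step 3
  have hF5 : ∀ ξ y, MapClusterPt ξ atTop x → b.eval y ≠ 0 → gg a b y = ξ → y ∈ Xc p := by
    intro ξ y hξ hy hyξ
    have hcl : IsClosed (Xc p) := isClosed_Xc p
    rw [← hcl.closure_eq, mem_closure_iff_nhds]
    intro U hU
    have h1 := himg y hy U hU
    rw [hyξ] at h1
    rw [mapClusterPt_iff_frequently] at hξ
    obtain ⟨k, ⟨y', hy'1, hy'2⟩, hk⟩ := ((hξ _ h1).and_eventually (eventually_ge_atTop k0)).exists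
    exact ⟨y', hy'1.1, hfib k hk y' ((mem_fs h _ _).2 ⟨hy'1.2, hy'2⟩)⟩
  -- Step 4, 5
  have hW : ∀ j, ¬ MapClusterPt (x j) atTop x := by
    intro j
    induction j with
    | zero =>
      intro h0
      obtain ⟨δ, hδ, hδb⟩ := hs.bb
      have hb0 : b.eval (p 0) ≠ 0 := norm_pos_iff.1 (hδ.trans_le (hδb 0))
      exact hc (hF5 _ (p 0) h0 hb0 (hs.orb 0))
    | succ j ih =>
      intro h0
      have hbu : b.eval (x j) ≠ 0 := hbX _ (hxX j)
      rw [mapClusterPt_iff_frequently] at ih
      push Not at ih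
      obtain ⟨U, hU, h3⟩ := ih
      rw [Filter.eventually_atTop] at h3
      obtain ⟨K, hK⟩ := h3
      obtain ⟨V, hVU, hVo, hVx⟩ := _root_.mem_nhds_iff.1 hU
      have hfin : ((x '' (Set.Iio K)) \ {x j}).Finite :=
        ((Set.finite_Iio K).image x).subset Set.sdiff_subset
      set V' : Set ℂ := V \ ((x '' (Set.Iio K)) \ {x j}) with hV'
      have hV'o : IsOpen V' := hVo.sdiff hfin.isClosed
      have hV'x : x j ∈ V' := ⟨hVx, fun h' => h'.2 rfl⟩
      have hV'X : ∀ y ∈ V', y ∈ Xc p → y = x j := by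
        intro y hy hyX
        have h4 : y ∈ closure (Set.range x ∩ V') := by
          rw [hXc] at hyX
          rw [mem_closure_iff_nhds] at hyX ⊢
          intro N hN
          obtain ⟨z, hz1, hz2⟩ := hyX (N ∩ V') (inter_mem hN (hV'o.mem_nhds hy))
          exact ⟨z, hz1.1, hz2, hz1.2⟩
        have h5 : Set.range x ∩ V' ⊆ {x j} := by
          rintro _ ⟨⟨k, rfl⟩, hk⟩
          by_contra h6
          by_cases hkK : k < K
          · exact hk.2 ⟨⟨k, hkK, rfl⟩, h6⟩
          · exact hK k (not_lt.1 hkK) (hVU hk.1)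
        have h6 := closure_mono h5 h4
        rw [closure_singleton] at h6
        exact h6
      have h1 := himg (x j) hbu V' (hV'o.mem_nhds hV'x)
      rw [hG] at h1
      rw [mapClusterPt_iff_frequently] at h0
      obtain ⟨k, ⟨y', hy'1, hy'2⟩, hk1, hk2⟩ := ((h0 _ h1).and_eventually
        ((eventually_ge_atTop k0).and (eventually_gt_atTop (j + 1)))).exists
      have h7 := hV'X y' hy'1.1 (hfib k hk1 y' ((mem_fs h _ _).2 ⟨hy'1.2, hy'2⟩))
      rw [h7, hG] at hy'2
      have := hinj hy'2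
      omega
  -- Step 6
  have hR := hk0 (k0 + 1) (by omega)
  have hsub : fs a b (x (k0 + 1)) ⊆ {x k0} := by
    intro y hy
    obtain ⟨hy1, hy2⟩ := (mem_fs h _ _).1 hy
    rw [Finset.mem_singleton]
    rcases hF1 y (hfib (k0 + 1) (by omega) y hy) with ⟨i, hi⟩ | h1
    · rw [← hi, hG] at hy2
      have := hinj hy2
      have h8 : i = k0 := by omega
      rw [← hi, h8]
    · have h2 := hF3 y h1
      rw [hy2] at h2
      exact absurd h2 (hW _)
  have hcard := Finset.card_le_card hsub
  rw [hR.card, Finset.card_singleton] at hcard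
  have := h.hd
  omega

end Pool.Agent.H44.RR
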