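import Pool.Agent.H44.RR.NZP
import Pool.Agent.H44.RR.CO2
import Pool.Agent.H44.RR.RSN
import Pool.Agent.H44.RR.FNC
import Pool.Agent.H44.RR.IFC

/-!
# Module SFE: there is no vanishing combination for one critical orbit away from the critical points
-/

set_option autoImplicit false

open MeasureTheory Metric Set Polynomial Filter Topology

namespace Pool.Agent.H44.RR

open Pool.Agent.H61.TT Pool.Agent.H35.EX Pool.Agent.H91.CE

variable {d : ℕ} {a b : Polynomial ℂ} {p B : ℕ → ℂ}

theorem ser_falseE (h : RatD d a b) (hs : Ser d a b p B) (hc : p 0 ∉ Xc p)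
    (hw : ∀ x ∈ Xc p, (ww a b).eval x ≠ 0)
    (hinf : ∀ k, (fib a b (p (k + 1))).natDegree = d) : False := by
  have hbX : ∀ x ∈ Xc p, b.eval x ≠ 0 := by
    obtain ⟨δ, hδ, hb⟩ := hs.bb
    have h1 : Xc p ⊆ {x : ℂ | δ ≤ ‖b.eval x‖} := by
      refine closure_minimal ?_ (isClosed_le continuous_const b.continuous.norm)
      rintro x ⟨k, rfl⟩
      exact hb (k + 1)
    intro x hx h2
    have h3 : δ ≤ ‖b.eval x‖ := h1 hx
    rw [h2, norm_zero] at h3
    linarith
  have hC : ∀ k, ∀ y ∈ fs a b (p (k + 1)), (ww a b).eval y ≠ 0 → y ∈ Xc p := by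
    intro k y hy hwy
    by_contra hX
    exact co2 h hs (rs_ne hs k) hy hwy hX (qq_nzp h hs hc hX)
  rcases (Set.range fun k => p (k + 1)).finite_or_infinite with hf | hi
  · exact fnc h hs hc hinf hC hf
  · exact ifc h hs hc hw hbX hC hi

end Pool.Agent.H44.RR
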