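import Pool.Agent.H35.EX.SubC1
import Pool.Agent.H79.Par.CFinal

/-!
# Module PDF: critical points with a property `P`, for most nearby maps: definitions
-/

set_option autoImplicit false

open Filter Topology Polynomial Metric Set

namespace Pool.Agent.H44.RR

open Pool.Agent.H44.Fatou Pool.Agent.H32.BT Pool.Agent.H79.Eul Pool.Agent.H79.Par

open MeasureTheory in
/-- along the sequence `r` the critical points near `c` satisfy `P`, for almost every direction in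
the unit ball -/
def SeqP {d : ℕ} (P : E d → ℂ → Prop) (v0 : E d) (c : ℂ) (r : ℕ → ℝ) : Prop :=
  volume (ball (0 : E d) 1 ∩ {v : E d | ¬ ∀ᶠ w : (ℕ × E d) × ℂ in (atTop ×ˢ 𝓝 v) ×ˢ 𝓝 c,
    wv (pv v0 (w.1.2, r w.1.1)) w.2 = 0 → P (pv v0 (w.1.2, r w.1.1)) w.2}) = 0

open MeasureTheory in
/-- up to measure `ε` in the unit ball of directions, the critical points near `c` satisfy `P`,
at all small scales -/
def CP {d : ℕ} (P : E d → ℂ → Prop) (v0 : E d) (c : ℂ) : Prop :=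
  ∀ ε : ENNReal, 0 < ε → ∃ δ : ℝ, 0 < δ ∧ ∀ᶠ r in 𝓝[>] (0 : ℝ),
    volume (ball (0 : E d) 1 ∩ {v | ¬ ∀ z ∈ ball c δ, wv (pv v0 (v, r)) z = 0 →
      P (pv v0 (v, r)) z}) ≤ ε

/-- all critical points are finite and satisfy `P` -/
def AllP {d : ℕ} (P : E d → ℂ → Prop) (w : E d) : Prop :=
  ∀ c, IsCrit (Rf w) c → ∃ z : ℂ, c = (z : OnePoint ℂ) ∧ P w z

/-- the chart conditions -/
structure Chart1 {d : ℕ} (v0 : E d) : Prop where
  cop : IsCoprime (pol v0.1) (pol v0.2)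
  deg : max (pol v0.1).natDegree (pol v0.2).natDegree = d
  ninf : ¬ IsCrit (Rf v0) OnePoint.infty
  fin : ∀ c, IsCrit (Rf v0) c → ∀ j, (Rf v0)^[j] c ≠ OnePoint.infty
  pinf : ∀ c, IsCrit (Rf v0) c → ∀ j, (Rf v0)^[j] c ≠ Rf v0 OnePoint.infty

end Pool.Agent.H44.RR
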