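import Pool.Agent.H35.EX.KapNe
import Pool.Agent.H44.RR.SFE

/-!
# Module KPE: transversality for one critical orbit (copy of `kapE_ne1`, `kapE_ne`, H35/EX/KapNe, with `ser_falseE`)
-/

set_option autoImplicit false

open Filter Topology Polynomial Metric Set

namespace Pool.Agent.H44.RR

open Pool.Agent.H44.Fatou Pool.Agent.H32.BT Pool.Agent.H79.Eul Pool.Agent.H79.Par
open Pool.Agent.H35.RL Pool.Agent.H61.TT Pool.Agent.H35.EX

theorem kapE_ne1E {d : ℕ} {v0 : E d} (hd : 2 ≤ d) (hcop : IsCoprime (pol v0.1) (pol v0.2))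
    (hdeg : max (pol v0.1).natDegree (pol v0.2).natDegree = d) {K : Set ℂ} (hK : ExpK v0 K)
    {x : ℕ → ℂ} (ho : ∀ j, Orb v0 x j) (hc : wv v0 (x 0) = 0) {m : ℕ} (hm : 1 ≤ m)
    (hxm : x m ∈ K) (hcr : ∀ i, 0 < i → i < m → wv v0 (x i) ≠ 0)
    (hinf : ∀ k, (fib (pol v0.1) (pol v0.2) (x (k + 1))).natDegree = d) :
    ∃ v : E d, kapE v0 v x m ≠ 0 := by
  by_contra hcon
  push Not at hcon
  have hR : RatD d (pol v0.1) (pol v0.2) := ⟨hd, hcop, hdeg⟩
  have hden : ∀ k, ev v0.2 (x k) ≠ 0 := fun k => (ho (k + 1) k (Nat.lt_succ_self _)).1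
  have hval : ∀ k, ev v0.1 (x k) / ev v0.2 (x k) = x (k + 1) :=
    fun k => (ho (k + 1) k (Nat.lt_succ_self _)).2
  have hinK : ∀ i, x (m + i) ∈ K := by
    intro i
    rw [← ke_shift ho m i]
    exact itK hK hxm i
  have hcr' : ∀ k, wv v0 (x (k + 1)) ≠ 0 := by
    intro k
    by_cases h : k + 1 < m
    · exact hcr (k + 1) (Nat.succ_pos _) h
    · obtain ⟨i, hi⟩ := Nat.exists_eq_add_of_le (not_lt.1 h)
      rw [hi]
      exact ncrit_K hK (hinK i)
  have hdg : ∀ k, dg (pol v0.1) (pol v0.2) (x (k + 1)) ≠ 0 := by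
    intro k
    rw [← dg_eq]
    exact div_ne_zero (hcr' k) (pow_ne_zero 2 (hden _))
  have hT0 : trD v0 0 (x 1) = 1 := by simp [trD]
  have hT : ∀ k, trD v0 k (x 1) ≠ 0 := by
    intro k
    induction k with
    | zero => rw [hT0]; exact one_ne_zero
    | succ k ih =>
      rw [kn_T ho k]
      exact mul_ne_zero (hdg k) ih
  have hsum : ∀ v : E d, ∑' k : ℕ, xi v0 v (x k) / trD v0 k (x 1) = 0 := by
    intro v
    have h1 := kapE_sum hK ho hm hxm (hT (m - 1)) v
    rw [hcon v] at h1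
    rcases mul_eq_zero.1 h1.symm with h2 | h2
    · exact absurd h2 (hT _)
    · exact h2
  -- a compact set containing the orbit
  have hK' : IsCompact (K ∪ x '' Set.Iio m) :=
    hK.compact.union ((Set.finite_Iio m).image x).isCompact
  have hxK' : ∀ k, x k ∈ K ∪ x '' Set.Iio m := by
    intro k
    by_cases h : k < m
    · exact Or.inr ⟨k, h, rfl⟩
    · obtain ⟨i, hi⟩ := Nat.exists_eq_add_of_le (not_lt.1 h)
      rw [hi]
      exact Or.inl (hinK i)
  have hbK' : ∀ z ∈ K ∪ x '' Set.Iio m, (pol v0.2).eval z ≠ 0 := by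
    rintro z (hz | ⟨k, _, rfl⟩)
    · rw [← ev_pol]
      exact hK.den z hz
    · rw [← ev_pol]
      exact hden k
  have hser : Ser d (pol v0.1) (pol v0.2) x (fun k => 1 / trD v0 k (x 1)) := by
    refine ⟨?_, ?_, ?_, ?_, ?_, ?_, ?_, ?_⟩
    · obtain ⟨R, hR1⟩ := hK'.isBounded.exists_norm_le
      exact ⟨R, fun k => hR1 _ (hxK' k)⟩
    · obtain ⟨z0, hz0, hmin⟩ := hK'.exists_isMinOn ⟨x m, hxK' m⟩
        (f := fun z => ‖(pol v0.2).eval z‖) ((pol v0.2).continuous.norm.continuousOn)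
      exact ⟨‖(pol v0.2).eval z0‖, norm_pos_iff.2 (hbK' z0 hz0), fun k => hmin (hxK' k)⟩
    · intro k
      unfold gg
      rw [← ev_pol, ← ev_pol]
      exact hval k
    · intro k
      show 1 / trD v0 (k + 1) (x 1) * dg (pol v0.1) (pol v0.2) (x (k + 1)) = 1 / trD v0 k (x 1)
      rw [kn_T ho k]
      have h1 := hT k
      have h2 := hdg k
      field_simp
    · rw [← dg_eq, hc, zero_div]
    · show 1 / trD v0 0 (x 1) = 1
      rw [hT0, div_one]
    · obtain ⟨c, q, hc0, hq, hexp⟩ := hK.exp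
      have hq0 : 0 < q := by linarith
      rw [← summable_nat_add_iff (m - 1)]
      have hTm : 0 < ‖trD v0 (m - 1) (x 1)‖ := norm_pos_iff.2 (hT _)
      have hg : Summable (fun i : ℕ => (1 / (c * ‖trD v0 (m - 1) (x 1)‖)) * (q⁻¹) ^ i) :=
        (summable_geometric_of_lt_one (inv_nonneg.2 hq0.le) (inv_lt_one_of_one_lt₀ hq)).mul_left _
      refine Summable.of_nonneg_of_le (fun i => norm_nonneg _) (fun i => ?_) hg
      rw [norm_div, norm_one, add_comm i (m - 1), kn_T2 ho, Nat.sub_add_cancel hm, norm_mul]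
      have h2 := hexp (x m) hxm i
      have h3 : 0 < c * q ^ i := by positivity
      calc 1 / (‖trD v0 i (x m)‖ * ‖trD v0 (m - 1) (x 1)‖)
          ≤ 1 / (c * q ^ i * ‖trD v0 (m - 1) (x 1)‖) := by
            apply one_div_le_one_div_of_le (by positivity)
            exact mul_le_mul_of_nonneg_right h2 hTm.le
        _ = (1 / (c * ‖trD v0 (m - 1) (x 1)‖)) * (q⁻¹) ^ i := by
            rw [inv_pow]
            field_simp
    · intro η hη
      obtain ⟨v, hv⟩ := xi_surj hR hη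
      rw [← hsum v]
      refine tsum_congr fun k => ?_
      rw [hv]
      ring
  have hXc : Xc x ⊆ {z : ℂ | wv v0 z ≠ 0} := by
    have h1 : Set.range (fun k => x (k + 1)) ⊆ K ∪ (fun k => x (k + 1)) '' Set.Iio m := by
      rintro _ ⟨k, rfl⟩
      by_cases h : k < m
      · exact Or.inr ⟨k, h, rfl⟩
      · obtain ⟨i, hi⟩ := Nat.exists_eq_add_of_le (not_lt.1 h)
        refine Or.inl ?_
        have h2 := hinK (i + 1)
        show x (k + 1) ∈ K
        rw [hi]
        exact h2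
    have h2 : IsClosed (K ∪ (fun k => x (k + 1)) '' Set.Iio m) :=
      hK.compact.isClosed.union ((Set.finite_Iio m).image _).isClosed
    intro z hz
    rcases closure_minimal h1 h2 hz with h3 | ⟨k, -, rfl⟩
    · exact ncrit_K hK h3
    · exact hcr' k
  refine ser_falseE hR hser ?_ ?_ hinf
  · intro h
    exact hXc h hc
  · intro z hz
    have h1 := hXc hz
    rw [Set.mem_ofPred_eq, wv_pol] at h1
    exact h1

theorem kapE_neE {d : ℕ} {v0 : E d} (hd : 2 ≤ d) (hcop : IsCoprime (pol v0.1) (pol v0.2))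
    (hdeg : max (pol v0.1).natDegree (pol v0.2).natDegree = d) {K : Set ℂ} (hK : ExpK v0 K)
    {x : ℕ → ℂ} (ho : ∀ j, Orb v0 x j) (hc : wv v0 (x 0) = 0) {m : ℕ} (hm : 1 ≤ m)
    (hxm : x m ∈ K) (hinf : ∀ k, (fib (pol v0.1) (pol v0.2) (x (k + 1))).natDegree = d) :
    ∃ v : E d, kapE v0 v x m ≠ 0 := by
  classical
  obtain ⟨k, hkm, hck, hlast⟩ : ∃ k, k < m ∧ wv v0 (x k) = 0 ∧
      ∀ i, k < i → i < m → wv v0 (x i) ≠ 0 := by
    refine ⟨Nat.findGreatest (fun i => wv v0 (x i) = 0) (m - 1), ?_, ?_, ?_⟩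
    · have h := Nat.findGreatest_le (P := fun i => wv v0 (x i) = 0) (m - 1)
      omega
    · exact Nat.findGreatest_spec (P := fun i => wv v0 (x i) = 0) (Nat.zero_le (m - 1)) hc
    · intro i hi him
      exact Nat.findGreatest_is_greatest hi (by omega)
  have hy : (fun j => x (k + j)) (m - k) ∈ K := by
    show x (k + (m - k)) ∈ K
    rw [Nat.add_sub_cancel' hkm.le]
    exact hxm
  obtain ⟨v, hv⟩ := kapE_ne1E hd hcop hdeg hK (kn_shift ho k) (x := fun j => x (k + j))
    (m := m - k) hck (by omega) hy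
    (fun i hi him => hlast (k + i) (by omega) (by omega)) (fun j => hinf (k + j))
  exact ⟨v, by rw [kapE_shift ho hkm hck v]; exact hv⟩

end Pool.Agent.H44.RR
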