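import Pool.Agent.H44.RR.PDF

/-!
# Module PCF: from the critical points to the maps (copy of `c_final`, H79/Par/CFinal, for a general property)
-/

set_option autoImplicit false

open Filter Topology Polynomial Metric Set

namespace Pool.Agent.H44.RR

open Pool.Agent.H44.Fatou Pool.Agent.H32.BT Pool.Agent.H79.Eul Pool.Agent.H79.Par




open MeasureTheory in
theorem c_finalP {d : ℕ} {P : E d → ℂ → Prop} (hd : 2 ≤ d) {v0 : E d} (hcop : IsCoprime (pol v0.1) (pol v0.2))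
    (hdeg : max (pol v0.1).natDegree (pol v0.2).natDegree = d)
    (hinf : ¬ IsCrit (Rf v0) OnePoint.infty)
    (hc : ∀ c : ℂ, IsCrit (Rf v0) (c : OnePoint ℂ) → CP P v0 c) :
    Tendsto (fun r : ℝ => volume (ball (0 : E d) 1 ∩ {v | ¬ AllP P (pv v0 (v, r))}))
      (𝓝[>] 0) (𝓝 0) := by
  have hd1 : 1 ≤ max (pol v0.1).natDegree (pol v0.2).natDegree := by rw [hdeg]; omega
  have hKf : {c : ℂ | IsCrit (Rf v0) (c : OnePoint ℂ)}.Finite := by
    have h1 := crit_finite hcop hd1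
    exact h1.preimage (OnePoint.coe_injective.injOn)
  obtain ⟨K, hK⟩ : ∃ K : Finset ℂ, ∀ c, c ∈ K ↔ IsCrit (Rf v0) (c : OnePoint ℂ) :=
    ⟨hKf.toFinset, fun c => hKf.mem_toFinset⟩
  have h0 : wv (rv v0) 0 ≠ 0 := by
    intro h
    apply hinf
    apply crit_infty_of_wr hcop hd1
    have hdg : dg (pol v0.1) (pol v0.2) = d := hdeg
    rw [hdg, ← wv_cf (natDegree_reflect_le' (pol_deg _)) (natDegree_reflect_le' (pol_deg _)),
      ← rv_cf, cf_pol, cf_pol]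
    exact h
  obtain ⟨R, hR, hev⟩ := no_crit_infty v0 h0
  rw [ENNReal.tendsto_nhds_zero]
  intro ε hε
  have hε' : 0 < ε / ((K.card : ENNReal) + 1) := by
    apply ENNReal.div_pos hε.ne'
    exact ENNReal.add_ne_top.mpr ⟨ENNReal.natCast_ne_top _, ENNReal.one_ne_top⟩
  have hc' : ∀ c : K, ∃ δ : ℝ, 0 < δ ∧ ∀ᶠ r in 𝓝[>] (0 : ℝ),
      volume (ball (0 : E d) 1 ∩ {v | ¬ ∀ z ∈ ball (c : ℂ) δ, wv (pv v0 (v, r)) z = 0 →
        P (pv v0 (v, r)) z}) ≤ ε / ((K.card : ENNReal) + 1) :=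
    fun c => hc c ((hK c).1 c.2) _ hε'
  choose δ hδ0 hδ using hc'
  -- the compact set
  have hcomp : IsCompact (closedBall (0 : ℂ) R \ ⋃ c : K, ball (c : ℂ) (δ c)) :=
    (isCompact_closedBall (0 : ℂ) R).diff (isOpen_iUnion fun c => isOpen_ball)
  have hloc : ∀ z ∈ closedBall (0 : ℂ) R \ ⋃ c : K, ball (c : ℂ) (δ c),
      ∀ᶠ y : E d × ℂ in 𝓝 v0 ×ˢ 𝓝 z, wv y.1 y.2 ≠ 0 := by
    intro z hz
    have hz0 : wv v0 z ≠ 0 := by
      intro h
      have hcr : IsCrit (Rf v0) (z : OnePoint ℂ) := by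
        apply crit_of_wr hcop hd1
        rw [← wv_cf (pol_deg _) (pol_deg _), cf_pol, cf_pol]
        exact h
      apply hz.2
      rw [mem_iUnion]
      exact ⟨⟨z, (hK z).2 hcr⟩, mem_ball_self (hδ0 _)⟩
    rw [← nhds_prod_eq]
    have h1 := (wv_cont (d := d)).tendsto (v0, z)
    exact h1.eventually_ne hz0
  have hall := ev_compact (p := fun (w : E d) z => wv w z ≠ 0) hcomp hloc
  have hN := (hall.and hev).and (cop_near hcop hdeg (by omega))
  obtain ⟨ρ, hρ, hρN⟩ := Metric.eventually_nhds_iff_ball.1 hN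
  have hpv : ∀ᶠ r in 𝓝[>] (0 : ℝ), ∀ v ∈ ball (0 : E d) 1, pv v0 (v, r) ∈ ball v0 ρ := by
    have h1 : ∀ᶠ r in 𝓝[>] (0 : ℝ), r < ρ := nhdsWithin_le_nhds (gt_mem_nhds hρ)
    have h2 : ∀ᶠ r in 𝓝[>] (0 : ℝ), 0 < r := self_mem_nhdsWithin
    filter_upwards [h1, h2] with r hr1 hr2 v hv
    rw [mem_ball_iff_norm]
    show ‖v0 + r • v - v0‖ < ρ
    rw [add_sub_cancel_left, norm_smul, Real.norm_of_nonneg hr2.le]
    have h3 : ‖v‖ < 1 := by simpa using hv
    calc r * ‖v‖ ≤ r * 1 := mul_le_mul_of_nonneg_left h3.le hr2.le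
      _ = r := mul_one r
      _ < ρ := hr1
  have hδ' : ∀ᶠ r in 𝓝[>] (0 : ℝ), ∀ c : K,
      volume (ball (0 : E d) 1 ∩ {v | ¬ ∀ z ∈ ball (c : ℂ) (δ c), wv (pv v0 (v, r)) z = 0 →
        P (pv v0 (v, r)) z}) ≤ ε / ((K.card : ENNReal) + 1) := by
    rw [Filter.eventually_all]
    exact hδ
  filter_upwards [hpv, hδ'] with r hr1 hr2
  have hsub : ball (0 : E d) 1 ∩ {v | ¬ AllP P (pv v0 (v, r))} ⊆
      ⋃ c : K, (ball (0 : E d) 1 ∩ {v | ¬ ∀ z ∈ ball (c : ℂ) (δ c), wv (pv v0 (v, r)) z = 0 →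
        P (pv v0 (v, r)) z}) := by
    rintro v ⟨hv1, hv2⟩
    by_contra hcon
    apply hv2
    have hgood : ∀ c : K, ∀ z ∈ ball (c : ℂ) (δ c), wv (pv v0 (v, r)) z = 0 →
        P (pv v0 (v, r)) z := by
      intro c
      by_contra h
      apply hcon
      rw [mem_iUnion]
      exact ⟨c, hv1, h⟩
    obtain ⟨⟨h1, h2⟩, h3⟩ := hρN _ (hr1 v hv1)
    intro c hc
    induction c using OnePoint.rec with
    | infty =>
      exfalso
      have h4 := crit_infty hc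
      have h5 : dg (pol (pv v0 (v, r)).1) (pol (pv v0 (v, r)).2) = d := h3.2
      rw [h5, ← wv_cf (natDegree_reflect_le' (pol_deg _)) (natDegree_reflect_le' (pol_deg _)),
        ← rv_cf, cf_pol, cf_pol] at h4
      exact h2.2 h4
    | coe z =>
      have hW := crit_coe hc
      rw [← wv_cf (pol_deg _) (pol_deg _), cf_pol, cf_pol] at hW
      by_cases hz : z ∈ ⋃ c : K, ball (c : ℂ) (δ c)
      · rw [mem_iUnion] at hz
        obtain ⟨c, hzc⟩ := hz
        exact ⟨z, rfl, hgood c z hzc hW⟩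
      · exfalso
        refine h1 z ⟨?_, hz⟩ hW
        rw [mem_closedBall_zero_iff]
        by_contra hcon2
        exact h2.1 z (not_le.1 hcon2) hW
  calc volume (ball (0 : E d) 1 ∩ {v | ¬ AllP P (pv v0 (v, r))})
      ≤ volume (⋃ c : K, (ball (0 : E d) 1 ∩ {v | ¬ ∀ z ∈ ball (c : ℂ) (δ c),
          wv (pv v0 (v, r)) z = 0 → P (pv v0 (v, r)) z})) :=
        measure_mono hsub
    _ ≤ ∑ c : K, volume (ball (0 : E d) 1 ∩ {v | ¬ ∀ z ∈ ball (c : ℂ) (δ c),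
          wv (pv v0 (v, r)) z = 0 → P (pv v0 (v, r)) z}) :=
        measure_iUnion_fintype_le _ _
    _ ≤ ∑ _c : K, ε / ((K.card : ENNReal) + 1) := Finset.sum_le_sum fun c _ => hr2 c
    _ = (K.card : ENNReal) * (ε / ((K.card : ENNReal) + 1)) := by
        rw [Finset.sum_const, Finset.card_univ, Fintype.card_coe, nsmul_eq_mul]
    _ ≤ ((K.card : ENNReal) + 1) * (ε / ((K.card : ENNReal) + 1)) := by
        gcongr
        exact le_self_add
    _ ≤ ε := ENNReal.mul_div_le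


end Pool.Agent.H44.RR
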