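import Pool.Agent.H44.RR.EXR
import Pool.Agent.H44.RR.PSC
import Pool.Agent.H44.RR.PCF
import Pool.Agent.H44.RR.KPE
import Pool.Agent.H79.PQ.Joint

/-!
# Module QCH: in a good chart most nearby maps have no critical point landing in the class
-/

set_option autoImplicit false

open Filter Topology Polynomial Metric Set

namespace Pool.Agent.H44.RR

open Pool.Agent.H44.Fatou Pool.Agent.H32.BT Pool.Agent.H79.Eul Pool.Agent.H79.Par
open Pool.Agent.H35.RL Pool.Agent.H35.EX Pool.Agent.H61.TT Pool.Agent.H79.PJ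

theorem fib_deg {d : ℕ} {v0 : E d} (hcop : IsCoprime (pol v0.1) (pol v0.2))
    (hdeg : max (pol v0.1).natDegree (pol v0.2).natDegree = d) {y : ℂ}
    (h : (y : OnePoint ℂ) ≠ Rf v0 OnePoint.infty) :
    (fib (pol v0.1) (pol v0.2) y).natDegree = d := by
  have h1 : (pol v0.1).natDegree ≤ d := (le_max_left _ _).trans hdeg.le
  have h2 : (pol v0.2).natDegree ≤ d := (le_max_right _ _).trans hdeg.le
  have h3 : (fib (pol v0.1) (pol v0.2) y).natDegree ≤ d := by
    unfold fib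
    refine (natDegree_sub_le _ _).trans (max_le h1 ((natDegree_C_mul_le _ _).trans h2))
  refine le_antisymm h3 (le_natDegree_of_ne_zero ?_)
  intro h4
  apply h
  have h5 : v0.1 (Fin.last d) - y * v0.2 (Fin.last d) = 0 := by
    rw [← pol_coeff_last v0.1, ← pol_coeff_last v0.2, ← coeff_C_mul, ← coeff_sub]
    exact h4
  have h6 := last_ne' hcop hdeg
  rw [rf_inf hdeg]
  by_cases h7 : v0.2 (Fin.last d) = 0
  · rw [h7, mul_zero, sub_zero] at h5
    rcases h6 with h6 | h6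
    · exact absurd h5 h6
    · exact absurd h7 h6
  · unfold pt
    rw [if_neg h7, sub_eq_zero.1 h5, mul_div_cancel_right₀ _ h7]

theorem rf_coe_near {d : ℕ} (hd : 1 ≤ d) {v0 : E d} (hcop : IsCoprime (pol v0.1) (pol v0.2))
    (hdeg : max (pol v0.1).natDegree (pol v0.2).natDegree = d) (c : ℂ) (m : ℕ) :
    Tendsto (fun w : E d × ℂ => (w.1, (Rf w.1)^[m] (w.2 : OnePoint ℂ)))
      (𝓝 v0 ×ˢ 𝓝 c) (𝓝 v0 ×ˢ 𝓝 ((Rf v0)^[m] (c : OnePoint ℂ))) := by
  have h2 : Tendsto (fun w : E d × ℂ => (w.1, (w.2 : OnePoint ℂ))) (𝓝 v0 ×ˢ 𝓝 c)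
      (𝓝 v0 ×ˢ 𝓝 (c : OnePoint ℂ)) :=
    tendsto_fst.prodMk ((OnePoint.continuous_coe.tendsto c).comp tendsto_snd)
  have h3 := (rf_joint_iter hd hcop hdeg (c : OnePoint ℂ) m).comp h2
  exact tendsto_fst.prodMk h3

open MeasureTheory in
theorem q_chart {d : ℕ} (hd : 2 ≤ d) {v0 : E d} (h0 : Chart1 v0)
    {Q : E d → OnePoint ℂ → Prop} (hQf : ∀ v x, Q v x → Q v (Rf v x))
    (hQo : ∀ x, ¬ Q v0 x → ∀ᶠ w : E d × OnePoint ℂ in 𝓝 v0 ×ˢ 𝓝 x, ¬ Q w.1 w.2)
    {K : Set ℂ} (hK : ExpK v0 K) (hQK : ∀ z : ℂ, Q v0 (z : OnePoint ℂ) → z ∈ K) (m : ℕ) :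
    Tendsto (fun r : ℝ => volume (ball (0 : E d) 1 ∩
      {v | ∃ c, IsCrit (Rf (pv v0 (v, r))) c ∧
        Q (pv v0 (v, r)) ((Rf (pv v0 (v, r)))^[m] c)})) (𝓝[>] 0) (𝓝 0) := by
  obtain ⟨P, hP⟩ : ∃ P : E d → ℂ → Prop,
      P = fun (w : E d) (z : ℂ) => ¬ Q w ((Rf w)^[m] (z : OnePoint ℂ)) := ⟨_, rfl⟩
  have hmain := c_finalP (P := P) hd h0.cop h0.deg h0.ninf ?_
  · refine tendsto_of_tendsto_of_tendsto_of_le_of_le tendsto_const_nhds hmain
      (fun _ => bot_le) ?_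
    intro r
    refine measure_mono ?_
    rintro v ⟨hv, c, hc, hq⟩
    refine ⟨hv, fun hall => ?_⟩
    obtain ⟨z, rfl, hz⟩ := hall c hc
    rw [hP] at hz
    exact hz hq
  · intro c hc
    have hw : wv v0 c = 0 := by
      have h5 := crit_coe hc
      rw [← wv_cf (d := d) (pol_deg _) (pol_deg _), cf_pol, cf_pol] at h5
      exact h5
    obtain ⟨ho, hx⟩ := orb_all (h0.fin _ hc)
    by_cases hq : Q v0 ((Rf v0)^[m] (c : OnePoint ℂ))
    · rw [hx m] at hq
      apply sub_cP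
      rw [hP]
      refine exp_goodQ hd h0 hQf hQo hK hQK hw (hQK _ hq) ?_
      intro k hk hkK
      refine kapE_neE hd h0.cop h0.deg hK ho hw hk hkK ?_
      intro j
      apply fib_deg h0.cop h0.deg
      have h1 := h0.pinf _ hc (j + 1)
      rw [hx (j + 1)] at h1
      exact h1
    · -- direct
      have h1 := rf_coe_near (by omega) h0.cop h0.deg c m
      have h3 := h1.eventually (hQo _ hq)
      rw [← nhds_prod_eq, Metric.eventually_nhds_iff_ball] at h3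
      obtain ⟨ρ, hρ, h4⟩ := h3
      intro ε hε
      refine ⟨ρ, hρ, ?_⟩
      have e1 : ∀ᶠ r in 𝓝[>] (0 : ℝ), r < ρ := nhdsWithin_le_nhds (gt_mem_nhds hρ)
      have e2 : ∀ᶠ r in 𝓝[>] (0 : ℝ), 0 < r := self_mem_nhdsWithin
      filter_upwards [e1, e2] with r hr1 hr2
      have h5 : ball (0 : E d) 1 ∩ {v | ¬ ∀ z ∈ ball c ρ, wv (pv v0 (v, r)) z = 0 →
          P (pv v0 (v, r)) z} = ∅ := by
        rw [Set.eq_empty_iff_forall_notMem]
        rintro v ⟨hv1, hv2⟩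
        apply hv2
        intro z hz _
        rw [hP]
        have h6 : pv v0 (v, r) ∈ ball v0 ρ := by
          rw [mem_ball_iff_norm]
          show ‖v0 + r • v - v0‖ < ρ
          rw [add_sub_cancel_left, norm_smul, Real.norm_of_nonneg hr2.le]
          have h7 : ‖v‖ < 1 := by simpa using hv1
          calc r * ‖v‖ ≤ r * 1 := mul_le_mul_of_nonneg_left h7.le hr2.le
            _ = r := mul_one r
            _ < ρ := hr1
        refine h4 (pv v0 (v, r), z) ?_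
        rw [← ball_prod_same]
        exact ⟨h6, hz⟩
      rw [h5, measure_empty]
      exact bot_le

end Pool.Agent.H44.RR
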