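import Pool.Agent.H35.EX.GoodU
import Pool.Agent.H35.EX.ExpConj

/-!
# Module CHC: the chordal distance is continuous

PROOF. `chord_cont`: at a point `(x0, y0)` choose `s : ℂ` with `x0 ≠ s`, `y0 ≠ s` and the homeomorphism `φ` of `exists_mob s` (H32/BT/Mob: `φ s = ∞`, `φ z = (z - s)⁻¹`, `φ ∞ = 0`). The set
`{x | φ x ≠ ∞}` is an open neighbourhood of `x0` and `y0`, and for `x, y` in it `chord x y = ‖x' - y'‖ / (hs s x' * hs s y')` with `φ x = x'`, `φ y = y'` (`chord_phi`), `hs` continuous and positive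
(`hs_cont`, `hs_pos`), and `x ↦ x'` is continuous there (`OnePoint.isOpenEmbedding_coe`: locally `x' = g (φ x)` for an inverse `g` of the coercion; for instance show `Tendsto` along
`𝓝 (x0, y0) = 𝓝 x0 ×ˢ 𝓝 y0`, `𝓝 x0 = map φ.symm (𝓝 (φ x0)) = map (φ.symm ∘ coe) (𝓝 x0')`). Another way: `chord_eq'` (H26/SF/BrB) and the tools of H91/Fatou/Chord. Other lemmas: cases; `chord_pos` (H35/EX/Chord).
-/

set_option autoImplicit false

open Filter Topology Metric Set

namespace Pool.Agent.H44.RR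

open Pool.Agent.H44.Fatou Pool.Agent.H32.BT Pool.Agent.H35.EX

theorem chord_cont : Continuous (fun p : OnePoint ℂ × OnePoint ℂ => chord p.1 p.2) := by
  rw [continuous_iff_continuousAt]
  rintro ⟨x0, y0⟩
  -- a point different from both
  obtain ⟨s, hs1, hs2⟩ : ∃ s : ℂ, (s : OnePoint ℂ) ≠ x0 ∧ (s : OnePoint ℂ) ≠ y0 := by
    have hfin : (((↑) : ℂ → OnePoint ℂ) ⁻¹' {x0, y0}).Finite :=
      Set.Finite.preimage OnePoint.coe_injective.injOn (by simp)
    obtain ⟨s, hs⟩ := hfin.infinite_compl.nonempty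
    refine ⟨s, fun h => hs ?_, fun h => hs ?_⟩
    · show (s : OnePoint ℂ) ∈ ({x0, y0} : Set (OnePoint ℂ))
      rw [h]
      exact Set.mem_insert _ _
    · show (s : OnePoint ℂ) ∈ ({x0, y0} : Set (OnePoint ℂ))
      rw [h]
      exact Set.mem_insert_of_mem _ (Set.mem_singleton _)
  obtain ⟨φ, hφ, hφs, hφi, -⟩ := exists_mob s
  have hx : ∃ a : ℂ, φ x0 = (a : OnePoint ℂ) := by
    rcases OnePoint.ne_infty_iff_exists.mp (show φ x0 ≠ OnePoint.infty from fun h =>
      hs1 (φ.injective (hφs.trans h.symm))) with ⟨a, ha⟩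
    exact ⟨a, ha.symm⟩
  have hy : ∃ a : ℂ, φ y0 = (a : OnePoint ℂ) := by
    rcases OnePoint.ne_infty_iff_exists.mp (show φ y0 ≠ OnePoint.infty from fun h =>
      hs2 (φ.injective (hφs.trans h.symm))) with ⟨a, ha⟩
    exact ⟨a, ha.symm⟩
  obtain ⟨a, ha⟩ := hx
  obtain ⟨b, hb⟩ := hy
  have he : Topology.IsOpenEmbedding (fun z : ℂ => φ.symm (z : OnePoint ℂ)) :=
    φ.symm.isOpenEmbedding.comp OnePoint.isOpenEmbedding_coe
  have he2 := he.prodMap he
  have hpt : Prod.map (fun z : ℂ => φ.symm (z : OnePoint ℂ)) (fun z : ℂ => φ.symm (z : OnePoint ℂ))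
      (a, b) = (x0, y0) := by
    rw [Prod.map_apply, ← ha, ← hb, φ.symm_apply_apply, φ.symm_apply_apply]
  rw [← hpt]
  refine he2.continuousAt_iff.mp ?_
  have hfun : (fun p : OnePoint ℂ × OnePoint ℂ => chord p.1 p.2) ∘
      Prod.map (fun z : ℂ => φ.symm (z : OnePoint ℂ)) (fun z : ℂ => φ.symm (z : OnePoint ℂ)) =
      fun q : ℂ × ℂ => ‖q.1 - q.2‖ / (hs s q.1 * hs s q.2) := by
    funext q
    exact chord_phi hφs hφ hφi (φ.apply_symm_apply _) (φ.apply_symm_apply _)
  rw [hfun]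
  have hc : Continuous fun q : ℂ × ℂ => ‖q.1 - q.2‖ / (hs s q.1 * hs s q.2) := by
    refine Continuous.div (by fun_prop) ?_ fun q => (mul_pos (hs_pos _ _) (hs_pos _ _)).ne'
    exact ((hs_cont s).comp continuous_fst).mul ((hs_cont s).comp continuous_snd)
  exact hc.continuousAt

theorem chord_nn (x y : OnePoint ℂ) : 0 ≤ chord x y := by
  by_cases h : x = y
  · subst h
    induction x using OnePoint.rec with
    | infty => exact le_rfl
    | coe z =>
      change 0 ≤ ‖z - z‖ / (√(1 + ‖z‖ ^ 2) * √(1 + ‖z‖ ^ 2))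
      positivity
  · exact (chord_pos h).le

theorem chord_zero (x : OnePoint ℂ) : chord x x = 0 := by
  induction x using OnePoint.rec with
  | infty => rfl
  | coe z =>
    change ‖z - z‖ / (√(1 + ‖z‖ ^ 2) * √(1 + ‖z‖ ^ 2)) = 0
    rw [sub_self, norm_zero, zero_div]

theorem chord_eqz {x y : OnePoint ℂ} (h : chord x y = 0) : x = y := by
  by_contra hne
  exact (chord_pos hne).ne' h

end Pool.Agent.H44.RR
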