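import Mathlib

/-!
# Module CO1: a simple pole is not aligned with a holomorphic function

PROOF. `h` is analytic at `x` and not identically zero near `x`: `h z = (z - x) ^ n * k z` near `x`, `k` analytic at `x`, `k x ≠ 0` (`AnalyticAt.exists_eventuallyEq_pow_smul_nonzero_iff`). Let `δ j = 1 / (j + 1)` (small).
Rescale `z = x + δ ζ`, `ζ ∈ ball 0 1`: `Φ j ζ = δ j * q (x + δ j ζ)`. The change of variables gives
`∫⁻ ζ in ball 0 1, ‖Φ j ζ - R / ζ‖ₑ = (δ j)⁻¹ ∫⁻ z in ball x (δ j), ‖q z - R / (z - x)‖ₑ → 0` (`Measure.map` of `ζ ↦ x + δ ζ`: see `serf_map` in H91/CE/SERF, copy it). So `Φ j → R / ζ` in measure on `ball 0 1` and for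
a subsequence almost everywhere (`TendstoInMeasure.exists_seq_tendsto_ae`, `tendstoInMeasure_of_tendsto_eLpNorm` with exponent `1`, or Borel-Cantelli by hand: choose a subsequence with summable integrals; then `∑' j ‖Φ j ζ - R/ζ‖ₑ`
has finite integral, so it is finite almost everywhere and the terms tend to `0`). For almost every `ζ ∈ ball 0 1` and all `j` (null sets are preserved by the scaling): `h (x + δ j ζ) = ρ q (x + δ j ζ)` with `ρ ≥ 0`, so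
`conj (h (x + δ j ζ)) * q (x + δ j ζ)` is real and nonnegative, and so is `conj (h (x + δ j ζ) / (δ j) ^ n) * Φ j ζ`, which tends to `conj (k x * ζ ^ n) * (R / ζ)` along the subsequence.
So for almost every `ζ` in the unit ball `ψ ζ = conj (k x * ζ ^ n) * R / ζ` is in the closed set of the nonnegative reals; a set of full measure is dense and `ψ` is continuous on the punctured ball, so this holds
for all `ζ ≠ 0` in the ball. For `ζ = 1 / 2` and `ζ' = exp (i π / (n + 1)) / 2`: `ψ ζ' = - ψ ζ` (`conj (e ^ n) / e = e ^ (-(n+1)) = -1` for `e = exp (i π / (n + 1))`), so `ψ (1 / 2) = 0`, so `k x * R = 0`: contradiction.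
-/

set_option autoImplicit false

open MeasureTheory Metric Set Filter Topology

namespace Pool.Agent.H44.RR

private theorem co1_pt {h q : ℂ → ℂ} {k : ℂ → ℂ} {x R ζ : ℂ} {n : ℕ} {C1 : ℝ}
    (hζ : ‖ζ‖ = 1) (hζn : (starRingEnd ℂ) (ζ ^ n) = -ζ) {z : ℂ} (hz : z ≠ x)
    (h1 : h z = (z - x) ^ n * k z)
    (h2 : h (x + ζ * (z - x)) = (ζ * (z - x)) ^ n * k (x + ζ * (z - x)))
    (hk1 : ‖k z - k x‖ ≤ C1 * ‖z - x‖) (hk2 : ‖k (x + ζ * (z - x)) - k x‖ ≤ C1 * ‖z - x‖)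
    (hk3 : ‖k x‖ / 2 ≤ ‖k z‖) (hk4 : ‖k z‖ ≤ 2 * ‖k x‖)
    (hk5 : ‖k (x + ζ * (z - x))‖ ≤ 2 * ‖k x‖)
    (hp1 : ∃ ρ : ℝ, 0 ≤ ρ ∧ h z = (ρ : ℂ) * q z)
    (hp2 : ∃ ρ : ℝ, 0 ≤ ρ ∧ h (x + ζ * (z - x)) = (ρ : ℂ) * q (x + ζ * (z - x))) :
    ‖R‖ * ‖k x‖ / 2 / ‖z - x‖ ≤ 2 * C1 * ‖R‖ + 4 * ‖k x‖ * (‖q z - R / (z - x)‖ +
      ‖q (x + ζ * (z - x)) - R / (x + ζ * (z - x) - x)‖) := by
  set w : ℂ := z - x with hw
  have hw0 : w ≠ 0 := sub_ne_zero.2 hz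
  have hs : 0 < ‖w‖ := norm_pos_iff.2 hw0
  have hζ0 : ζ ≠ 0 := by
    intro h0
    rw [h0, norm_zero] at hζ
    exact zero_ne_one hζ
  set z' : ℂ := x + ζ * w with hz'
  have hz'x : z' - x = ζ * w := by rw [hz']; ring
  rw [hz'x]
  set E : ℂ := q z - R / w with hE
  set E' : ℂ := q z' - R / (ζ * w) with hE'
  obtain ⟨ρ, hρ, hρz⟩ := hp1
  obtain ⟨ρ', hρ', hρz'⟩ := hp2
  -- the products
  have hP : (starRingEnd ℂ) (h z) * q z = ((ρ * ‖q z‖ ^ 2 : ℝ) : ℂ) := by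
    rw [hρz, map_mul, Complex.conj_ofReal, mul_assoc, Complex.conj_mul']
    push_cast
    ring
  have hP' : (starRingEnd ℂ) (h z') * q z' = ((ρ' * ‖q z'‖ ^ 2 : ℝ) : ℂ) := by
    rw [hρz', map_mul, Complex.conj_ofReal, mul_assoc, Complex.conj_mul']
    push_cast
    ring
  set P : ℝ := ρ * ‖q z‖ ^ 2 with hPd
  set P' : ℝ := ρ' * ‖q z'‖ ^ 2 with hPd'
  have hP0 : 0 ≤ P := by positivity
  have hP0' : 0 ≤ P' := by positivity
  -- the main terms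
  set T : ℂ := (starRingEnd ℂ) (h z) * (R / w) with hT
  set T' : ℂ := (starRingEnd ℂ) (h z') * (R / (ζ * w)) with hT'
  have e1 : (P : ℂ) = T + (starRingEnd ℂ) (h z) * E := by
    rw [← hP, hT, hE]; ring
  have e2 : (P' : ℂ) = T' + (starRingEnd ℂ) (h z') * E' := by
    rw [← hP', hT', hE']; ring
  have e3 : T + T' = (starRingEnd ℂ) (w ^ n) * (starRingEnd ℂ) (k z - k z') * (R / w) := by
    rw [hT, hT', h1, h2]
    have hcz : (starRingEnd ℂ) ((ζ * w) ^ n * k z') * (R / (ζ * w)) =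
        -((starRingEnd ℂ) (w ^ n) * (starRingEnd ℂ) (k z') * (R / w)) := by
      rw [mul_pow, map_mul, map_mul, hζn]
      field_simp
    rw [hcz, map_mul, map_sub]
    ring
  have hnh : ‖h z‖ ≤ 2 * ‖k x‖ * ‖w‖ ^ n := by
    rw [h1, norm_mul, norm_pow]
    nlinarith [pow_pos hs n]
  have hnh' : ‖h z'‖ ≤ 2 * ‖k x‖ * ‖w‖ ^ n := by
    rw [h2, norm_mul, norm_pow, norm_mul, hζ, one_mul]
    nlinarith [pow_pos hs n]
  have hTT : ‖T + T'‖ ≤ 2 * C1 * ‖R‖ * ‖w‖ ^ n := by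
    rw [e3, norm_mul, norm_mul, RCLike.norm_conj, RCLike.norm_conj, norm_pow, norm_div]
    have h3 : ‖k z - k z'‖ ≤ 2 * C1 * ‖w‖ := by
      have h4 : k z - k z' = (k z - k x) - (k z' - k x) := by ring
      rw [h4]
      refine (norm_sub_le _ _).trans ?_
      linarith
    calc ‖w‖ ^ n * ‖k z - k z'‖ * (‖R‖ / ‖w‖) ≤ ‖w‖ ^ n * (2 * C1 * ‖w‖) * (‖R‖ / ‖w‖) := by
          gcongr
      _ = 2 * C1 * ‖R‖ * ‖w‖ ^ n := by field_simp
  have hTl : ‖R‖ * ‖k x‖ / 2 / ‖w‖ * ‖w‖ ^ n ≤ ‖T‖ := by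
    rw [hT, h1, norm_mul, RCLike.norm_conj, norm_mul, norm_pow, norm_div]
    have h5 : ‖R‖ * ‖k x‖ / 2 / ‖w‖ * ‖w‖ ^ n = ‖w‖ ^ n * (‖k x‖ / 2) * (‖R‖ / ‖w‖) := by
      field_simp
    rw [h5]
    gcongr
  have hPT : (P : ℂ) + (P' : ℂ) = (T + T') + (starRingEnd ℂ) (h z) * E +
      (starRingEnd ℂ) (h z') * E' := by
    rw [e1, e2]; ring
  have hPn : P ≤ 2 * C1 * ‖R‖ * ‖w‖ ^ n + 2 * ‖k x‖ * ‖w‖ ^ n * ‖E‖ +
      2 * ‖k x‖ * ‖w‖ ^ n * ‖E'‖ := by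
    have h6 : ‖((P : ℂ) + (P' : ℂ))‖ = P + P' := by
      rw [← Complex.ofReal_add, Complex.norm_real, Real.norm_of_nonneg (by linarith)]
    have h7 : ‖(T + T') + (starRingEnd ℂ) (h z) * E + (starRingEnd ℂ) (h z') * E'‖ ≤
        ‖T + T'‖ + ‖h z‖ * ‖E‖ + ‖h z'‖ * ‖E'‖ := by
      refine (norm_add_le _ _).trans ?_
      refine add_le_add ((norm_add_le _ _).trans ?_) ?_
      · rw [norm_mul, RCLike.norm_conj]
      · rw [norm_mul, RCLike.norm_conj]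
    rw [← hPT, h6] at h7
    have h8 : ‖h z‖ * ‖E‖ ≤ 2 * ‖k x‖ * ‖w‖ ^ n * ‖E‖ :=
      mul_le_mul_of_nonneg_right hnh (norm_nonneg _)
    have h9 : ‖h z'‖ * ‖E'‖ ≤ 2 * ‖k x‖ * ‖w‖ ^ n * ‖E'‖ :=
      mul_le_mul_of_nonneg_right hnh' (norm_nonneg _)
    linarith
  have hTP : ‖T‖ ≤ P + 2 * ‖k x‖ * ‖w‖ ^ n * ‖E‖ := by
    have h10 : T = (P : ℂ) - (starRingEnd ℂ) (h z) * E := by rw [e1]; ring
    rw [h10]
    refine (norm_sub_le _ _).trans ?_
    rw [norm_mul, RCLike.norm_conj, Complex.norm_real, Real.norm_of_nonneg hP0]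
    have h8 : ‖h z‖ * ‖E‖ ≤ 2 * ‖k x‖ * ‖w‖ ^ n * ‖E‖ :=
      mul_le_mul_of_nonneg_right hnh (norm_nonneg _)
    linarith
  have hwn : 0 < ‖w‖ ^ n := pow_pos hs n
  have hfin : ‖R‖ * ‖k x‖ / 2 / ‖w‖ * ‖w‖ ^ n ≤
      (2 * C1 * ‖R‖ + 4 * ‖k x‖ * (‖E‖ + ‖E'‖)) * ‖w‖ ^ n := by
    have h11 : 0 ≤ 2 * ‖k x‖ * ‖w‖ ^ n * ‖E'‖ := by positivity
    calc ‖R‖ * ‖k x‖ / 2 / ‖w‖ * ‖w‖ ^ n ≤ ‖T‖ := hTl
      _ ≤ 2 * C1 * ‖R‖ * ‖w‖ ^ n + 2 * ‖k x‖ * ‖w‖ ^ n * ‖E‖ +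
      2 * ‖k x‖ * ‖w‖ ^ n * ‖E'‖ + 2 * ‖k x‖ * ‖w‖ ^ n * ‖E‖ := by linarith
      _ ≤ (2 * C1 * ‖R‖ + 4 * ‖k x‖ * (‖E‖ + ‖E'‖)) * ‖w‖ ^ n := by nlinarith
  exact le_of_mul_le_mul_right hfin hwn

theorem co1 {q h : ℂ → ℂ} {x R : ℂ} {r : ℝ} (hR : R ≠ 0) (hq : Measurable q)
    (hatm : Tendsto (fun δ : ℝ => (∫⁻ z in ball x δ, ‖q z - R / (z - x)‖ₑ) / ENNReal.ofReal δ)
      (𝓝[>] 0) (𝓝 0))
    (han : AnalyticAt ℂ h x) (hnz : ∀ᶠ z in 𝓝[≠] x, h z ≠ 0) (hr : 0 < r)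
    (hal : ∀ᵐ z : ℂ, z ∈ ball x r → ∃ ρ : ℝ, 0 ≤ ρ ∧ h z = (ρ : ℂ) * q z) : False := by
  have hnot : ¬ ∀ᶠ z in 𝓝 x, h z = 0 := by
    intro h0
    have h1 := (h0.filter_mono nhdsWithin_le_nhds : ∀ᶠ z in 𝓝[≠] x, h z = 0).and hnz
    obtain ⟨z, hz1, hz2⟩ := h1.exists
    exact hz2 hz1
  obtain ⟨n, k, hk, hkx, heq⟩ := han.exists_eventuallyEq_pow_smul_nonzero_iff.2 hnot
  -- the rotation
  set θ : ℝ := Real.pi / (n + 1) with hθ
  set ζ : ℂ := Complex.exp (θ * Complex.I) with hζd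
  have hζ : ‖ζ‖ = 1 := Complex.norm_exp_ofReal_mul_I θ
  have hζ0 : ζ ≠ 0 := Complex.exp_ne_zero _
  have hζp : ζ ^ (n + 1) = -1 := by
    rw [hζd, ← Complex.exp_nat_mul]
    have h1 : ((n + 1 : ℕ) : ℂ) * (θ * Complex.I) = Real.pi * Complex.I := by
      rw [hθ]
      have h2 : ((n : ℂ) + 1) ≠ 0 := by exact_mod_cast Nat.succ_ne_zero n
      push_cast
      field_simp
    rw [h1, Complex.exp_pi_mul_I]
  have hζn : (starRingEnd ℂ) (ζ ^ n) = -ζ := by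
    have h1 : (starRingEnd ℂ) (ζ ^ n) * ζ ^ n = 1 := by
      rw [Complex.conj_mul', norm_pow, hζ]
      norm_num
    have h2 : ζ ^ n * (-ζ) = 1 := by
      have : ζ ^ n * (-ζ) = -(ζ ^ (n + 1)) := by ring
      rw [this, hζp, neg_neg]
    calc (starRingEnd ℂ) (ζ ^ n) = (starRingEnd ℂ) (ζ ^ n) * (ζ ^ n * (-ζ)) := by rw [h2, mul_one]
      _ = -ζ := by rw [← mul_assoc, h1, one_mul]
  -- bounds for `k`
  obtain ⟨C1, hC1⟩ := hk.differentiableAt.isBigO_sub.bound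
  have hkc : Tendsto (fun z => ‖k z‖) (𝓝 x) (𝓝 ‖k x‖) := hk.continuousAt.norm
  have hkxp : 0 < ‖k x‖ := norm_pos_iff.2 hkx
  have hlo : ∀ᶠ z in 𝓝 x, ‖k x‖ / 2 ≤ ‖k z‖ :=
    hkc.eventually_const_le (by linarith)
  have hup : ∀ᶠ z in 𝓝 x, ‖k z‖ ≤ 2 * ‖k x‖ :=
    hkc.eventually_le_const (by linarith)
  obtain ⟨r1, hr1, hball⟩ := Metric.eventually_nhds_iff.1 (heq.and (hC1.and (hlo.and hup)))
  set E : ℂ → ℂ := fun z => q z - R / (z - x) with hE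
  set f : ℂ → ℂ := fun z => x + ζ * (z - x) with hf
  have hfx : ∀ z, dist (f z) x = dist z x := by
    intro z
    rw [dist_eq_norm, dist_eq_norm]
    have : f z - x = ζ * (z - x) := by simp only [hf]; ring
    rw [this, norm_mul, hζ, one_mul]
  have hmp : MeasurePreserving f volume volume := by
    have h1 : MeasurePreserving (fun z : ℂ => z - x) volume volume :=
      measurePreserving_sub_right volume x
    have h2 : MeasurePreserving (rotation (Circle.exp θ)) volume volume :=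
      (rotation (Circle.exp θ)).measurePreserving
    have h3 : MeasurePreserving (fun z : ℂ => x + z) volume volume :=
      measurePreserving_add_left volume x
    have h4 := h3.comp (h2.comp h1)
    convert h4 using 1
    ext z
    simp [hf, hζd, rotation_apply, Circle.coe_exp]
  have hEm : Measurable fun z => ‖E z‖ₑ := by
    have : Measurable E := hq.sub (measurable_const.div (measurable_id.sub_const x))
    exact this.enorm
  have hpre : ∀ δ : ℝ, f ⁻¹' ball x δ = ball x δ := by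
    intro δ
    ext z
    rw [mem_preimage, mem_ball, mem_ball, hfx]
  have hEf : ∀ δ : ℝ, ∫⁻ z in ball x δ, ‖E (f z)‖ₑ = ∫⁻ z in ball x δ, ‖E z‖ₑ := by
    intro δ
    have h1 := hmp.setLIntegral_comp_preimage (s := ball x δ) measurableSet_ball hEm
    rw [hpre] at h1
    exact h1
  have hal' : ∀ᵐ z : ℂ, f z ∈ ball x r → ∃ ρ : ℝ, 0 ≤ ρ ∧ h (f z) = (ρ : ℂ) * q (f z) :=
    hmp.quasiMeasurePreserving.ae hal
  have hne : ∀ᵐ z : ℂ, z ≠ x := by
    rw [ae_iff]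
    simp
  set c0 : ℝ := ‖R‖ * ‖k x‖ / 2 with hc0
  have hRp : 0 < ‖R‖ := norm_pos_iff.2 hR
  have hc0p : 0 < c0 := by positivity
  set K0 : ℝ := 2 * |C1| * ‖R‖ with hK0
  have hK0p : 0 ≤ K0 := by positivity
  set K1 : ℝ := 4 * ‖k x‖ with hK1
  have hK1p : 0 < K1 := by positivity
  -- the integrated inequality
  have hint : ∀ δ : ℝ, 0 < δ → δ ≤ r → δ ≤ r1 →
      ENNReal.ofReal (c0 / δ) * volume (ball x δ) ≤
        ENNReal.ofReal K0 * volume (ball x δ) +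
          ENNReal.ofReal K1 * (2 * ∫⁻ z in ball x δ, ‖E z‖ₑ) := by
    intro δ hδ hδr hδr1
    have hpt : ∀ᵐ z : ℂ, z ∈ ball x δ → ENNReal.ofReal (c0 / δ) ≤
        ENNReal.ofReal K0 + ENNReal.ofReal K1 * (‖E z‖ₑ + ‖E (f z)‖ₑ) := by
      filter_upwards [hal, hal', hne] with z ha1 ha2 hzx hzδ
      have hzd : dist z x < δ := mem_ball.1 hzδ
      have hz1 : dist z x < r1 := hzd.trans_le hδr1
      have hfz1 : dist (f z) x < r1 := by rw [hfx]; exact hz1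
      obtain ⟨b1, b2, b3, b4⟩ := hball hz1
      obtain ⟨b1', b2', b3', b4'⟩ := hball hfz1
      have hfzx : f z - x = ζ * (z - x) := by simp only [hf]; ring
      have hn1 : ‖f z - x‖ = ‖z - x‖ := by rw [hfzx, norm_mul, hζ, one_mul]
      have hC1a : C1 ≤ |C1| := le_abs_self _
      have hmain := co1_pt (h := h) (q := q) (k := k) (x := x) (R := R) (ζ := ζ) (n := n)
        (C1 := |C1|) hζ hζn hzx (by rw [b1, smul_eq_mul])
        (by
          have : h (f z) = (f z - x) ^ n * k (f z) := by rw [b1', smul_eq_mul]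
          rw [hfzx] at this
          exact this)
        (b2.trans (mul_le_mul_of_nonneg_right hC1a (norm_nonneg _)))
        (by
          have h1 := b2'.trans (mul_le_mul_of_nonneg_right hC1a (norm_nonneg _))
          rw [hn1] at h1
          exact h1)
        b3 b4 b4' (ha1 (mem_ball.2 (hzd.trans_le hδr)))
        (ha2 (mem_ball.2 (by rw [hfx]; exact hzd.trans_le hδr)))
      have hzx0 : 0 < ‖z - x‖ := norm_pos_iff.2 (sub_ne_zero.2 hzx)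
      have hlt : ‖z - x‖ ≤ δ := by rw [← dist_eq_norm]; exact hzd.le
      have hle : c0 / δ ≤ K0 + K1 * (‖E z‖ + ‖E (f z)‖) := by
        refine le_trans ?_ hmain
        exact div_le_div_of_nonneg_left hc0p.le hzx0 hlt
      have h2 : ENNReal.ofReal (c0 / δ) ≤ ENNReal.ofReal (K0 + K1 * (‖E z‖ + ‖E (f z)‖)) :=
        ENNReal.ofReal_le_ofReal hle
      refine h2.trans (le_of_eq ?_)
      rw [ENNReal.ofReal_add hK0p (by positivity), ENNReal.ofReal_mul hK1p.le,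
        ENNReal.ofReal_add (norm_nonneg _) (norm_nonneg _), ofReal_norm,
        ofReal_norm]
    calc ENNReal.ofReal (c0 / δ) * volume (ball x δ) =
          ∫⁻ _ in ball x δ, ENNReal.ofReal (c0 / δ) := by
          rw [setLIntegral_const]
      _ ≤ ∫⁻ z in ball x δ, (ENNReal.ofReal K0 + ENNReal.ofReal K1 * (‖E z‖ₑ + ‖E (f z)‖ₑ)) :=
          setLIntegral_mono_ae' measurableSet_ball hpt
      _ = ENNReal.ofReal K0 * volume (ball x δ) +
          ENNReal.ofReal K1 * (2 * ∫⁻ z in ball x δ, ‖E z‖ₑ) := by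
          rw [lintegral_add_left measurable_const, setLIntegral_const,
            lintegral_const_mul' _ _ ENNReal.ofReal_ne_top, lintegral_add_left hEm, hEf, two_mul]
  -- contradiction
  set ε : ℝ := c0 * Real.pi / (8 * K1) with hε
  have hεp : 0 < ε := by positivity
  have hev : ∀ᶠ δ : ℝ in 𝓝[>] 0,
      (∫⁻ z in ball x δ, ‖q z - R / (z - x)‖ₑ) / ENNReal.ofReal δ < ENNReal.ofReal ε :=
    hatm.eventually_lt_const (ENNReal.ofReal_pos.2 hεp)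
  set δ0 : ℝ := min (min r r1) (c0 / (4 * (K0 + 1))) with hδ0
  have hδ0p : 0 < δ0 := lt_min (lt_min hr hr1) (by positivity)
  have hev2 : ∀ᶠ δ : ℝ in 𝓝[>] 0, δ ∈ Ioo (0 : ℝ) δ0 := Ioo_mem_nhdsGT hδ0p
  obtain ⟨δ, h1, h2, h3⟩ := (hev.and hev2).exists
  have hδr : δ ≤ r := h3.le.trans ((min_le_left _ _).trans (min_le_left _ _))
  have hδr1 : δ ≤ r1 := h3.le.trans ((min_le_left _ _).trans (min_le_right _ _))
  have hδc : δ ≤ c0 / (4 * (K0 + 1)) := h3.le.trans (min_le_right _ _)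
  have h4 := hint δ h2 hδr hδr1
  have hI : ∫⁻ z in ball x δ, ‖E z‖ₑ ≤ ENNReal.ofReal (ε * δ) := by
    rw [ENNReal.ofReal_mul hεp.le]
    have h5 := (ENNReal.div_le_iff (by positivity) ENNReal.ofReal_ne_top).1 h1.le
    exact h5
  have hvol : volume (ball x δ) = ENNReal.ofReal (δ ^ 2 * Real.pi) := by
    rw [Complex.volume_ball, ENNReal.ofReal_mul (by positivity), ENNReal.ofReal_pow h2.le]
    congr 1
    exact (ENNReal.ofReal_coe_nnreal (p := NNReal.pi)).symm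
  rw [hvol] at h4
  have h6 : ENNReal.ofReal (c0 / δ) * ENNReal.ofReal (δ ^ 2 * Real.pi) ≤
      ENNReal.ofReal (K0 * (δ ^ 2 * Real.pi) + K1 * (2 * (ε * δ))) := by
    refine h4.trans ?_
    rw [ENNReal.ofReal_add (by positivity) (by positivity), ENNReal.ofReal_mul hK0p,
      ENNReal.ofReal_mul hK1p.le, ENNReal.ofReal_mul (by norm_num : (0 : ℝ) ≤ 2)]
    gcongr
    norm_num
  rw [← ENNReal.ofReal_mul (by positivity), ENNReal.ofReal_le_ofReal_iff (by positivity)] at h6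
  have hpi := Real.pi_pos
  have h7 : c0 / δ * (δ ^ 2 * Real.pi) = c0 * Real.pi * δ := by
    field_simp
  have h8 : K1 * (2 * (ε * δ)) = c0 * Real.pi * δ / 4 := by
    rw [hε]
    field_simp
    ring
  have h9 : K0 * δ ≤ c0 / 4 := by
    have h10 : (K0 + 1) * δ ≤ c0 / 4 := by
      calc (K0 + 1) * δ ≤ (K0 + 1) * (c0 / (4 * (K0 + 1))) := by gcongr
        _ = c0 / 4 := by field_simp
    nlinarith
  rw [h7, h8] at h6
  have h11 : K0 * (δ ^ 2 * Real.pi) ≤ c0 / 4 * (δ * Real.pi) := by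
    calc K0 * (δ ^ 2 * Real.pi) = K0 * δ * (δ * Real.pi) := by ring
      _ ≤ c0 / 4 * (δ * Real.pi) := by gcongr
  have h12 : 0 < c0 * Real.pi * δ := by positivity
  nlinarith

end Pool.Agent.H44.RR
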