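import Pool.Agent.H44.RR.EXL
import Pool.Agent.H35.EX.ExpGood
import Pool.Agent.H35.EX.NullK

/-!
# Module EXR: for most nearby maps the moving critical point does not land in a given expanding class

Compare `exp_ae`, `exp_good` (H35/EX/ExpGood).
-/

set_option autoImplicit false

open Filter Topology Polynomial Metric Set

namespace Pool.Agent.H44.RR

open Pool.Agent.H44.Fatou Pool.Agent.H32.BT Pool.Agent.H79.Eul Pool.Agent.H79.Par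
open Pool.Agent.H35.RL Pool.Agent.H35.EX

theorem q_iter {d : ℕ} {Q : E d → OnePoint ℂ → Prop} (hQf : ∀ v x, Q v x → Q v (Rf v x))
    (v : E d) {x : OnePoint ℂ} (n : ℕ) (h : Q v x) : Q v ((Rf v)^[n] x) := by
  induction n with
  | zero => exact h
  | succ n ih =>
    rw [Function.iterate_succ_apply']
    exact hQf v _ ih

open MeasureTheory in
theorem exp_aeQ {d : ℕ} {v0 : E d} (hcop : IsCoprime (pol v0.1) (pol v0.2))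
    (hdeg : max (pol v0.1).natDegree (pol v0.2).natDegree = d) (hd : 2 ≤ d) {K : Set ℂ}
    (hK : ExpK v0 K) {x : ℕ → ℂ} (ho : ∀ j, Orb v0 x j) {m : ℕ} (hm : 1 ≤ m) (hxm : x m ∈ K)
    (hkap : ∃ v : E d, kapE v0 v x m ≠ 0) {R0 : ℝ} (hR0 : 0 < R0) :
    ∃ ρ : ℝ, 0 < ρ ∧ ∀ (R : Filter ℝ) (N : ℝ → ℕ) (μ : ℂ) (Ψ : ℂ → ℂ), R.NeBot →
      Blow v0 (x m) R N μ Ψ R0 ρ → ∀ W : Set ℂ, volume Wᶜ = 0 →
        ∀ᵐ v : E d, v ∈ ball (0 : E d) 1 → ∃ w ∈ W,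
          Tendsto (fun y : (E d × ℝ) × ℂ => (Rf (pv v0 y.1))^[N y.1.2 + m] (y.2 : OnePoint ℂ))
            (((𝓝 v ×ˢ R) ×ˢ 𝓝 (x 0)) ⊓ 𝓟 (crs v0)) (𝓝 ((w : ℂ) : OnePoint ℂ)) := by
  obtain ⟨C, hC0, hCb⟩ := kapE_bound hK ho hxm
  obtain ⟨ρ0, hρ0, hloc⟩ := exp_lim hcop hdeg hd hK ho hm hxm
  have hρpos : 0 < min ρ0 (R0 / (2 * C)) := lt_min hρ0 (by positivity)
  refine ⟨min ρ0 (R0 / (2 * C)), hρpos, ?_⟩
  intro R N μ Ψ hne b W hW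
  have hμ : ‖μ‖ ≤ R0 / (2 * C) := by
    have h1 := b.hμ.norm
    refine le_of_tendsto h1 ?_
    have h2 : ∀ᶠ t : ℝ in R, 0 < t := b.hR self_mem_nhdsWithin
    filter_upwards [b.hρ, h2] with t k1 k2
    rw [norm_mul, Complex.norm_real, Real.norm_of_nonneg k2.le]
    exact k1.trans (min_le_right _ _)
  have hS : volume {X : ℂ | X ∈ ball (0 : ℂ) R0 ∧ Ψ X ∈ Wᶜ} = 0 :=
    null_expand (fun X hX Y hY => (blow_lip b hne X hX Y hY).1) hW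
  have hL : volume ((fun v : E d => μ * kapE v0 v x m) ⁻¹'
      {X : ℂ | X ∈ ball (0 : ℂ) R0 ∧ Ψ X ∈ Wᶜ}) = 0 := by
    refine null_form (fun v : E d => μ * kapE v0 v x m) ?_ ?_ ?_ hS
    · intro v w
      show μ * kapE v0 (v + w) x m = μ * kapE v0 v x m + μ * kapE v0 w x m
      rw [kapE_add hK ho hxm, mul_add]
    · intro c v
      show μ * kapE v0 (c • v) x m = c * (μ * kapE v0 v x m)
      rw [kapE_smul]; ring
    · obtain ⟨v, hv⟩ := hkap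
      exact ⟨v, mul_ne_zero b.hμ0 hv⟩
  have h1 : ∀ᵐ v : E d, v ∉ (fun v : E d => μ * kapE v0 v x m) ⁻¹'
      {X : ℂ | X ∈ ball (0 : ℂ) R0 ∧ Ψ X ∈ Wᶜ} := measure_eq_zero_iff_ae_notMem.1 hL
  filter_upwards [h1] with v k1 hv
  have hball : μ * kapE v0 v x m ∈ ball (0 : ℂ) R0 := by
    rw [mem_ball_zero_iff, norm_mul]
    have h3 := (hCb v hv).1
    calc ‖μ‖ * ‖kapE v0 v x m‖ ≤ R0 / (2 * C) * C :=
          mul_le_mul hμ h3.le (norm_nonneg _) (by positivity)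
      _ = R0 / 2 := by field_simp
      _ < R0 := by linarith
  refine ⟨Ψ (μ * kapE v0 v x m), ?_, hloc _ R0 R N μ Ψ (min_le_left _ _) b v hv hball⟩
  by_contra hcon
  exact k1 ⟨hball, hcon⟩

open MeasureTheory in
theorem exp_goodQ {d : ℕ} (hd : 2 ≤ d) {v0 : E d} (h0 : Chart1 v0)
    {Q : E d → OnePoint ℂ → Prop} (hQf : ∀ v x, Q v x → Q v (Rf v x))
    (hQo : ∀ x, ¬ Q v0 x → ∀ᶠ w : E d × OnePoint ℂ in 𝓝 v0 ×ˢ 𝓝 x, ¬ Q w.1 w.2)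
    {K : Set ℂ} (hK : ExpK v0 K) (hQK : ∀ z : ℂ, Q v0 (z : OnePoint ℂ) → z ∈ K)
    {c : ℂ} (hc : wv v0 c = 0) {m : ℕ} (hm : it v0 m c ∈ K)
    (hkap : ∀ k : ℕ, 1 ≤ k → it v0 k c ∈ K → ∃ v : E d, kapE v0 v (fun j => it v0 j c) k ≠ 0) :
    ∀ r : ℕ → ℝ, (∀ j, 0 < r j) → Tendsto r atTop (𝓝 0) →
      ∃ σ : ℕ → ℕ, StrictMono σ ∧
        SeqP (fun w z => ¬ Q w ((Rf w)^[m] (z : OnePoint ℂ))) v0 c (r ∘ σ) := by
  obtain ⟨hcop, hdeg, -, hinf, -⟩ := h0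
  have hd1 : 1 ≤ max (pol v0.1).natDegree (pol v0.2).natDegree := by omega
  have hcr : IsCrit (Rf v0) (c : OnePoint ℂ) := by
    apply crit_of_wr hcop hd1
    rw [← wv_cf (pol_deg _) (pol_deg _), cf_pol, cf_pol]
    exact hc
  obtain ⟨ho, hx⟩ := orb_all (hinf _ hcr)
  obtain ⟨k, hk1, hkm, hkK⟩ : ∃ k : ℕ, 1 ≤ k ∧ m ≤ k ∧ it v0 k c ∈ K := by
    rcases Nat.eq_zero_or_pos m with h | h
    · subst h
      exact ⟨1, le_rfl, Nat.zero_le _, hK.maps _ hm⟩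
    · exact ⟨m, h, le_rfl, hm⟩
  obtain ⟨R0, hR0, hblow⟩ := blow_exists hK
  obtain ⟨ρ, hρ, hae⟩ := exp_aeQ (x := fun j => it v0 j c) hcop hdeg hd hK ho hk1 hkK
    (hkap k hk1 hkK) hR0
  intro r hr0 hr
  obtain ⟨σ, N, μ, Ψ, hσ, b⟩ := hblow (it v0 k c) hkK ρ hρ r hr0 hr
  have hW' : volume ((Kᶜ)ᶜ) = 0 := by
    rw [compl_compl]
    exact null_K hK
  have hfin := hae (map (r ∘ σ) atTop) N μ Ψ inferInstance b _ hW'
  refine ⟨σ, hσ, ?_⟩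
  unfold SeqP
  rw [ae_iff] at hfin
  refine measure_mono_null ?_ hfin
  rintro v ⟨hv1, hv2⟩ hcon
  apply hv2
  obtain ⟨w, hwK, hlim⟩ := hcon hv1
  have hv' : ∀ᶠ y : (E d × ℝ) × ℂ in (𝓝 v ×ˢ map (r ∘ σ) atTop) ×ˢ 𝓝 c,
      wv (pv v0 y.1) y.2 = 0 → ¬ Q (pv v0 y.1) ((Rf (pv v0 y.1))^[m] (y.2 : OnePoint ℂ)) := by
    have h1 : ∀ᶠ y : (E d × ℝ) × ℂ in ((𝓝 v ×ˢ map (r ∘ σ) atTop) ×ˢ 𝓝 c) ⊓ 𝓟 (crs v0),
        ¬ Q (pv v0 y.1) ((Rf (pv v0 y.1))^[m] (y.2 : OnePoint ℂ)) := by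
      have h2 : Tendsto (fun y : (E d × ℝ) × ℂ => (pv v0 y.1,
          (Rf (pv v0 y.1))^[N y.1.2 + k] (y.2 : OnePoint ℂ)))
          (((𝓝 v ×ˢ map (r ∘ σ) atTop) ×ˢ 𝓝 c) ⊓ 𝓟 (crs v0))
          (𝓝 v0 ×ˢ 𝓝 ((w : ℂ) : OnePoint ℂ)) := by
        refine Tendsto.prodMk ?_ hlim
        have h3 : Tendsto (fun y : (E d × ℝ) × ℂ => y.1)
            (((𝓝 v ×ˢ map (r ∘ σ) atTop) ×ˢ 𝓝 c) ⊓ 𝓟 (crs v0)) (flt v) := by
          refine Tendsto.mono_left ?_ inf_le_left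
          exact tendsto_fst.mono_right (Filter.prod_mono le_rfl b.hR)
        exact (pv_lim v0 v).comp h3
      have h3 := h2.eventually (hQo _ fun hq => hwK (hQK w hq))
      filter_upwards [h3] with y hy hq
      apply hy
      have h4 : N y.1.2 + k = (N y.1.2 + k - m) + m := by omega
      show Q (pv v0 y.1) ((Rf (pv v0 y.1))^[N y.1.2 + k] (y.2 : OnePoint ℂ))
      rw [h4, Function.iterate_add_apply]
      exact q_iter hQf _ _ hq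
    rw [Filter.eventually_inf_principal] at h1
    exact h1
  have ht : Tendsto (fun w : (ℕ × E d) × ℂ => (((w.1.2, (r ∘ σ) w.1.1) : E d × ℝ), w.2))
      ((atTop ×ˢ 𝓝 v) ×ˢ 𝓝 c) ((𝓝 v ×ˢ map (r ∘ σ) atTop) ×ˢ 𝓝 c) := by
    refine Tendsto.prodMk (Tendsto.prodMk ?_ ?_) tendsto_snd
    · exact tendsto_snd.comp tendsto_fst
    · exact tendsto_map.comp (tendsto_fst.comp tendsto_fst)
  exact ht.eventually hv'

end Pool.Agent.H44.RR
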