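import Pool.Agent.H44.RR.CHC
import Pool.Agent.H79.PQ.Joint

/-!
# Module LaD: the class of points with uniformly expanding orbits

`La N q δ f x`: the iterate `f^[N]` expands the chordal distance to each point of the orbit of `x` by the factor `q`, on the discs of radius `δ`.
PROOFS. `la_open`: there are `j, y` with `chord (f^[j] x) y < δ` and `chord (f^[N] (f^[j] x)) (f^[N] y) < q * chord (f^[j] x) y`; both sides are continuous in `(v, x)` at `(v0, x)` (`rf_joint_iter`, `chord_cont`;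
`(Rf v)^[N] ((Rf v)^[j] x) = (Rf v)^[N + j] x`), so the strict inequalities persist. `la_expd`: the set is closed (by `la_open` with the first variable fixed), so compact; forward invariant by `la_fwd`; take `j = 0`
and `y` near `x` (`chord x y < δ` near `x` by continuity, `chord_zero`). `la_ne`: otherwise `La` holds everywhere; let `c` be a critical point (`exists_crit`, H32/BT/Crit) and `U` a neighbourhood of `c` with
`chord y y' < δ` on `U × U` (`chord_cont` at `(c, c)`). `f` is injective on `U`: if `f y = f y'`: when `N = 0`, `q * chord y y' ≤ chord y y'`; when `N = n + 1`, `f^[N] y = f^[N] y'` and `q * chord y y' ≤ 0`. In both cases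
`chord y y' = 0` (`1 < q`, `chord_nn`), `y = y'` (`chord_eqz`). This contradicts `IsCrit`.
-/

set_option autoImplicit false

open Filter Topology Polynomial Metric Set

namespace Pool.Agent.H44.RR

open Pool.Agent.H44.Fatou Pool.Agent.H32.BT Pool.Agent.H35.EX Pool.Agent.H79.Eul
open Pool.Agent.H79.Par Pool.Agent.H79.PJ

/-- the orbit of `x` is expanded by `f^[N]` by the factor `q`, at the scale `δ` -/
def La (N : ℕ) (q δ : ℝ) (f : OnePoint ℂ → OnePoint ℂ) (x : OnePoint ℂ) : Prop :=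
  ∀ (j : ℕ) (y : OnePoint ℂ), chord (f^[j] x) y < δ →
    q * chord (f^[j] x) y ≤ chord (f^[N] (f^[j] x)) (f^[N] y)

theorem la_fwd {N : ℕ} {q δ : ℝ} {f : OnePoint ℂ → OnePoint ℂ} {x : OnePoint ℂ}
    (h : La N q δ f x) : La N q δ f (f x) := fun j y hy => h (j + 1) y hy

theorem la_open {d : ℕ} (hd : 1 ≤ d) {v0 : E d} (hcop : IsCoprime (pol v0.1) (pol v0.2))
    (hdeg : max (pol v0.1).natDegree (pol v0.2).natDegree = d) {N : ℕ} {q δ : ℝ}
    {x : OnePoint ℂ} (h : ¬ La N q δ (Rf v0) x) :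
    ∀ᶠ w : E d × OnePoint ℂ in 𝓝 v0 ×ˢ 𝓝 x, ¬ La N q δ (Rf w.1) w.2 := by
  unfold La at h
  push Not at h
  obtain ⟨j, y, h1, h2⟩ := h
  have e1 := rf_joint_iter hd hcop hdeg x j
  have e2 := rf_joint_iter hd hcop hdeg x (N + j)
  have e3 : Tendsto (fun w : E d × OnePoint ℂ => (Rf w.1)^[N] y) (𝓝 v0 ×ˢ 𝓝 x)
      (𝓝 ((Rf v0)^[N] y)) := by
    have h3 : Tendsto (fun w : E d × OnePoint ℂ => (w.1, y)) (𝓝 v0 ×ˢ 𝓝 x)
        (𝓝 v0 ×ˢ 𝓝 y) := tendsto_fst.prodMk tendsto_const_nhds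
    exact (rf_joint_iter hd hcop hdeg y N).comp h3
  have c1 : Tendsto (fun w : E d × OnePoint ℂ => chord ((Rf w.1)^[j] w.2) y) (𝓝 v0 ×ˢ 𝓝 x)
      (𝓝 (chord ((Rf v0)^[j] x) y)) :=
    (chord_cont.tendsto (((Rf v0)^[j] x), y)).comp (e1.prodMk_nhds tendsto_const_nhds)
  have c2 : Tendsto (fun w : E d × OnePoint ℂ =>
      chord ((Rf w.1)^[N + j] w.2) ((Rf w.1)^[N] y)) (𝓝 v0 ×ˢ 𝓝 x)
      (𝓝 (chord ((Rf v0)^[N + j] x) ((Rf v0)^[N] y))) :=
    (chord_cont.tendsto (((Rf v0)^[N + j] x), ((Rf v0)^[N] y))).comp (e2.prodMk_nhds e3)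
  have h2' : chord ((Rf v0)^[N + j] x) ((Rf v0)^[N] y) < q * chord ((Rf v0)^[j] x) y := by
    rw [Function.iterate_add_apply]
    exact h2
  have k1 := c1.eventually (gt_mem_nhds h1)
  have k2 := (c2.sub (c1.const_mul q)).eventually (gt_mem_nhds (sub_neg.2 h2'))
  filter_upwards [k1, k2] with w hw1 hw2 hla
  have hw3 := hla j y hw1
  rw [← Function.iterate_add_apply] at hw3
  linarith

theorem la_expd {d : ℕ} (hd : 1 ≤ d) {v0 : E d} (hcop : IsCoprime (pol v0.1) (pol v0.2))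
    (hdeg : max (pol v0.1).natDegree (pol v0.2).natDegree = d) {N : ℕ} {q δ : ℝ} (hq : 1 < q)
    (hδ : 0 < δ) : Expd (Rf v0) {x | La N q δ (Rf v0) x} := by
  have hcl : IsClosed {x | La N q δ (Rf v0) x} := by
    rw [← isOpen_compl_iff, isOpen_iff_mem_nhds]
    intro x hx
    have h1 := la_open hd hcop hdeg (x := x) hx
    have h2 : Tendsto (fun y : OnePoint ℂ => (v0, y)) (𝓝 x) (𝓝 v0 ×ˢ 𝓝 x) :=
      tendsto_const_nhds.prodMk tendsto_id
    exact h2.eventually h1
  refine ⟨hcl.isCompact, fun x hx => la_fwd hx, N, q, hq, ?_⟩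
  intro x hx
  have h1 : Tendsto (fun y => chord x y) (𝓝 x) (𝓝 0) := by
    have h2 := (chord_cont.tendsto (x, x)).comp
      ((tendsto_const_nhds (x := x)).prodMk_nhds (tendsto_id (α := OnePoint ℂ) (x := 𝓝 x)))
    have h3 : chord x x = 0 := chord_zero x
    simpa [Function.comp_def, h3] using h2
  filter_upwards [h1.eventually (gt_mem_nhds hδ)] with y hy
  exact hx 0 y hy

theorem la_ne {d : ℕ} (hd : 2 ≤ d) {v0 : E d} (hcop : IsCoprime (pol v0.1) (pol v0.2))
    (hdeg : max (pol v0.1).natDegree (pol v0.2).natDegree = d) {N : ℕ} {q δ : ℝ} (hq : 1 < q)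
    (hδ : 0 < δ) : ∃ x, ¬ La N q δ (Rf v0) x := by
  by_contra hcon
  push Not at hcon
  obtain ⟨c, hc⟩ := exists_crit hcop (by rw [hdeg]; exact hd)
  apply hc
  have h1 : ∀ᶠ p : OnePoint ℂ × OnePoint ℂ in 𝓝 (c, c), chord p.1 p.2 < δ := by
    have h2 := chord_cont.tendsto (c, c)
    have h3 : chord c c < δ := by
      rw [chord_zero]
      exact hδ
    exact h2.eventually (gt_mem_nhds h3)
  rw [nhds_prod_eq] at h1
  obtain ⟨pa, hpa, pb, hpb, hab⟩ := Filter.eventually_prod_iff.1 h1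
  refine ⟨{y | pa y ∧ pb y}, hpa.and hpb, fun y hy y' hy' hyy => ?_⟩
  have h2 : q * chord y y' ≤ chord ((Rf v0)^[N] y) ((Rf v0)^[N] y') :=
    hcon y 0 y' (hab hy.1 hy'.2)
  have h3 := chord_nn y y'
  apply chord_eqz
  rcases N with _ | n
  · have h4 : q * chord y y' ≤ chord y y' := h2
    nlinarith
  · have h4 : (Rf v0)^[n + 1] y = (Rf v0)^[n + 1] y' := by
      rw [Function.iterate_succ_apply, Function.iterate_succ_apply]
      exact congrArg _ hyy
    rw [h4, chord_zero] at h2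
    nlinarith

end Pool.Agent.H44.RR
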