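import Pool.Agent.H44.RR.RDef
import Pool.Agent.H79.PJ.RIter
import Pool.Agent.H32.BT.Crit

/-!
# Module MN1: the iterates of a neighbourhood of the critical point meet every open set

PROOF. Suppose not: for all `n` and `y ∈ ball (p 0) r` the point `(rat a b)^[n] y` is not in `(↑) '' V`. Let `v ∈ V`, `ball v ε ⊆ V`.
`rat a b (p 0) = p 1` (`b.eval (p 0) ≠ 0` by `b_ne hs 0`; `hs.orb 0`), `rat a b` is an open map (H32/BT/Crit), so there is `r1 > 0` with: for all `z ∈ ball (p 1) r1` exists `y ∈ ball (p 0) r` with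
`rat a b y = z` (`OnePoint.isOpenEmbedding_coe`). Fix `n`. `rat_iter` (H79/PJ/RIter): `A, C` coprime with `rat A C = (rat a b)^[n]` on the sphere. For `z ∈ ball (p 1) r1`: `rat A C z = (rat a b)^[n+1] y`
is not in the image of `V` (here the hypothesis is used for `n + 1`). So `A.eval z - v * C.eval z ≠ 0`: if `C.eval z ≠ 0` then `rat A C z = A z / C z ≠ v`; if `C.eval z = 0` then `A.eval z ≠ 0`. Put
`G z = C.eval z / (A.eval z - v * C.eval z)`: differentiable on the ball, `‖G z‖ ≤ 1 / ε` (`G z = 0` if `C z = 0`, else `G z = 1 / (A z / C z - v)` and `A z / C z ∉ ball v ε`). By the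
Cauchy estimate (`Complex.norm_deriv_le_of_forall_mem_sphere_norm_le` on `ball (p 1) (r1 / 2)`) `‖deriv G (p 1)‖ ≤ 2 / (ε r1)`. Near `p 1` (all points `p (j + 1)` are finite, `b.eval ≠ 0`:
`b_ne hs`) `(rat a b)^[n] z = (gg a b)^[n] z` and `C z ≠ 0`, so `G = 1 / ((gg a b)^[n] - v)` near `p 1`, `(gg a b)^[n] (p 1) = p (n + 1)`, and `(gg a b)^[n]` has at `p 1` the derivative
`∏ k < n, dg a b (p (k + 1))` (chain rule, `hasDerivAt_gg`), which is `1 / B n` (`hs.hB`, `hs.B0`). So `1 / ‖B n‖ = ‖deriv G (p 1)‖ ‖p (n + 1) - v‖ ^ 2 ≤ (2 / (ε r1)) (R + ‖v‖) ^ 2` for all `n`; but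
`B n → 0` (`hs.sm`), contradiction.
-/

set_option autoImplicit false

open MeasureTheory Metric Set Polynomial Filter Topology

namespace Pool.Agent.H44.RR

open Pool.Agent.H61.TT Pool.Agent.H35.EX Pool.Agent.H91.CE Pool.Agent.H44.Fatou Pool.Agent.H32.BT

variable {d : ℕ} {a b : Polynomial ℂ} {p B : ℕ → ℂ}

theorem mn_bprod (hs : Ser d a b p B) (n : ℕ) :
    B n * ∏ k ∈ Finset.range n, Pool.Agent.H61.TT.dg a b (p (k + 1)) = 1 := by
  induction n with
  | zero => simp [hs.B0]
  | succ n ih =>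
    rw [Finset.prod_range_succ]
    have h1 := hs.hB n
    calc B (n + 1) * ((∏ k ∈ Finset.range n, Pool.Agent.H61.TT.dg a b (p (k + 1))) *
          Pool.Agent.H61.TT.dg a b (p (n + 1)))
        = (B (n + 1) * Pool.Agent.H61.TT.dg a b (p (n + 1))) *
          ∏ k ∈ Finset.range n, Pool.Agent.H61.TT.dg a b (p (k + 1)) := by ring
      _ = 1 := by rw [h1, ih]

theorem mn_it (hs : Ser d a b p B) (n : ℕ) :
    (gg a b)^[n] (p 1) = p (n + 1) ∧
    HasDerivAt ((gg a b)^[n]) (∏ k ∈ Finset.range n, Pool.Agent.H61.TT.dg a b (p (k + 1)))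
      (p 1) := by
  induction n with
  | zero =>
    refine ⟨rfl, ?_⟩
    simpa using hasDerivAt_id (p 1)
  | succ n ih =>
    obtain ⟨h1, h2⟩ := ih
    refine ⟨?_, ?_⟩
    · rw [Function.iterate_succ_apply', h1]
      exact hs.orb (n + 1)
    · rw [Finset.prod_range_succ, Function.iterate_succ', mul_comm]
      have h3 : HasDerivAt (gg a b) (Pool.Agent.H61.TT.dg a b (p (n + 1)))
          ((gg a b)^[n] (p 1)) := by
        rw [h1]
        exact hasDerivAt_gg (Pool.Agent.H35.EX.b_ne hs (n + 1))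
      exact h3.comp (p 1) h2

theorem mn_rat (hs : Ser d a b p B) (n : ℕ) :
    ∀ᶠ z : ℂ in 𝓝 (p 1), (rat a b)^[n] (z : OnePoint ℂ) = (((gg a b)^[n] z : ℂ) : OnePoint ℂ) := by
  induction n with
  | zero => exact Eventually.of_forall fun z => rfl
  | succ n ih =>
    obtain ⟨h1, h2⟩ := mn_it hs n
    have h3 : ∀ᶠ z : ℂ in 𝓝 (p 1), b.eval ((gg a b)^[n] z) ≠ 0 := by
      have h4 : Tendsto (fun z => b.eval ((gg a b)^[n] z)) (𝓝 (p 1)) (𝓝 (b.eval (p (n + 1)))) := by
        have h5 := (b.continuous.tendsto ((gg a b)^[n] (p 1))).comp h2.continuousAt.tendsto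
        rw [h1] at h5
        exact h5
      exact h4.eventually_ne (Pool.Agent.H35.EX.b_ne hs (n + 1))
    filter_upwards [ih, h3] with z hz hz3
    rw [Function.iterate_succ_apply', Function.iterate_succ_apply', hz]
    exact rat_coe_of_ne hz3

theorem mn1 (h : RatD d a b) (hs : Ser d a b p B) {V : Set ℂ} (hV : IsOpen V) (hVn : V.Nonempty)
    {r : ℝ} (hr : 0 < r) : ∃ n : ℕ, ∃ y ∈ ball (p 0) r, ∃ w ∈ V,
      (rat a b)^[n] (y : OnePoint ℂ) = (w : OnePoint ℂ) := by
  by_contra hcon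
  push Not at hcon
  obtain ⟨v, hv⟩ := hVn
  obtain ⟨ε, hε, hεV⟩ := Metric.isOpen_iff.1 hV v hv
  have hdd : 1 ≤ max a.natDegree b.natDegree := by
    rw [h.deg]
    have := h.hd
    omega
  have hop := rat_open h.cop hdd
  have hO : IsOpen (rat a b '' ((fun y : ℂ => (y : OnePoint ℂ)) '' ball (p 0) r)) :=
    hop _ (OnePoint.isOpenEmbedding_coe.isOpenMap _ isOpen_ball)
  have h01 : rat a b (p 0 : OnePoint ℂ) = (p 1 : OnePoint ℂ) := by
    have h1 := rat_coe_of_ne (P := a) (Pool.Agent.H35.EX.b_ne hs 0)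
    refine h1.trans ?_
    exact congrArg _ (hs.orb 0)
  have hO2 : IsOpen ((fun y : ℂ => (y : OnePoint ℂ)) ⁻¹'
      (rat a b '' ((fun y : ℂ => (y : OnePoint ℂ)) '' ball (p 0) r))) :=
    hO.preimage OnePoint.continuous_coe
  have hp1 : p 1 ∈ (fun y : ℂ => (y : OnePoint ℂ)) ⁻¹'
      (rat a b '' ((fun y : ℂ => (y : OnePoint ℂ)) '' ball (p 0) r)) :=
    ⟨_, ⟨p 0, mem_ball_self hr, rfl⟩, h01⟩
  obtain ⟨r1, hr1, hsub⟩ := Metric.isOpen_iff.1 hO2 _ hp1
  obtain ⟨R, hR⟩ := hs.pb
  have hR0 : 0 ≤ R := (norm_nonneg _).trans (hR 0)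
  have hK : ∀ n, 1 ≤ ‖B n‖ * (1 / ε / (r1 / 2) * (R + ‖v‖) ^ 2) := by
    intro n
    obtain ⟨A, C, hAC, -, hit⟩ := Pool.Agent.H79.PJ.rat_iter h.cop hdd n
    have key : ∀ z ∈ ball (p 1) r1, A.eval z - v * C.eval z ≠ 0 ∧
        ε * ‖C.eval z‖ ≤ ‖A.eval z - v * C.eval z‖ := by
      intro z hz
      obtain ⟨_, ⟨y, hy, rfl⟩, hyz⟩ := hsub hz
      have hyz' : rat a b (y : OnePoint ℂ) = (z : OnePoint ℂ) := hyz
      have h1 : rat A C (z : OnePoint ℂ) = (rat a b)^[n + 1] (y : OnePoint ℂ) := by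
        rw [hit, Function.iterate_succ_apply, hyz']
      by_cases hC : C.eval z = 0
      · rcases coprime_eval hAC z with h2 | h2
        · rw [hC, mul_zero, sub_zero, norm_zero, mul_zero]
          exact ⟨h2, norm_nonneg _⟩
        · exact absurd hC h2
      · have h2 : rat A C (z : OnePoint ℂ) = ((A.eval z / C.eval z : ℂ) : OnePoint ℂ) :=
          rat_coe_of_ne hC
        have h3 : A.eval z / C.eval z ∉ ball v ε := by
          intro h4
          exact hcon (n + 1) y hy _ (hεV h4) (h1.symm.trans h2)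
        have h4 : ε ≤ ‖A.eval z / C.eval z - v‖ := by
          rw [mem_ball, dist_eq_norm, not_lt] at h3
          exact h3
        have h5 : A.eval z - v * C.eval z = (A.eval z / C.eval z - v) * C.eval z := by
          field_simp
        have h6 : 0 < ‖C.eval z‖ := norm_pos_iff.2 hC
        have h7 : ε * ‖C.eval z‖ ≤ ‖A.eval z - v * C.eval z‖ := by
          rw [h5, norm_mul]
          gcongr
        refine ⟨?_, h7⟩
        intro h8
        rw [h8, norm_zero] at h7
        have := mul_pos hε h6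
        linarith
    have hcl : closure (ball (p 1) (r1 / 2)) ⊆ ball (p 1) r1 :=
      closure_ball_subset_closedBall.trans (closedBall_subset_ball (by linarith))
    have hdG : DifferentiableOn ℂ (fun z => C.eval z / (A.eval z - v * C.eval z))
        (ball (p 1) r1) := by
      intro z hz
      refine DifferentiableAt.differentiableWithinAt ?_
      refine DifferentiableAt.div C.differentiableAt ?_ (key z hz).1
      exact A.differentiableAt.sub (C.differentiableAt.const_mul v)
    have hDC : DiffContOnCl ℂ (fun z => C.eval z / (A.eval z - v * C.eval z))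
        (ball (p 1) (r1 / 2)) := (hdG.mono hcl).diffContOnCl
    have hbd : ∀ z ∈ sphere (p 1) (r1 / 2),
        ‖C.eval z / (A.eval z - v * C.eval z)‖ ≤ 1 / ε := by
      intro z hz
      have hz' : z ∈ ball (p 1) r1 := sphere_subset_closedBall.trans
        (closedBall_subset_ball (by linarith)) hz
      obtain ⟨k1, k2⟩ := key z hz'
      rw [norm_div, div_le_div_iff₀ (norm_pos_iff.2 k1) hε, one_mul, mul_comm]
      exact k2
    have hC := Complex.norm_deriv_le_of_forall_mem_sphere_norm_le (half_pos hr1) hDC hbd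
    obtain ⟨g1, g2⟩ := mn_it hs n
    have g3 := mn_rat hs n
    have hloc : (fun z => C.eval z / (A.eval z - v * C.eval z)) =ᶠ[𝓝 (p 1)]
        fun z => ((gg a b)^[n] z - v)⁻¹ := by
      filter_upwards [g3, ball_mem_nhds (p 1) hr1] with z hz hzb
      have h1 : rat A C (z : OnePoint ℂ) = (((gg a b)^[n] z : ℂ) : OnePoint ℂ) := by
        rw [hit, hz]
      have hCz : C.eval z ≠ 0 := by
        intro h0
        rw [rat_coe] at h1
        unfold pt at h1
        rw [if_pos h0] at h1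
        exact OnePoint.infty_ne_coe _ h1
      rw [rat_coe_of_ne hCz] at h1
      have h2 : A.eval z / C.eval z = (gg a b)^[n] z := OnePoint.coe_injective h1
      have h3 := (key z hzb).1
      rw [← h2]
      have h5 : A.eval z - v * C.eval z = (A.eval z / C.eval z - v) * C.eval z := by
        field_simp
      rw [h5]
      have h6 : A.eval z / C.eval z - v ≠ 0 := by
        intro h7
        rw [h5, h7, zero_mul] at h3
        exact h3 rfl
      field_simp
    have hne : p (n + 1) - v ≠ 0 := by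
      intro h0
      have h1 : rat A C (p 1 : OnePoint ℂ) = (v : OnePoint ℂ) := by
        rw [hit, g3.self_of_nhds, g1, sub_eq_zero.1 h0]
      have hCz : C.eval (p 1) ≠ 0 := by
        intro h2
        rw [rat_coe] at h1
        unfold pt at h1
        rw [if_pos h2] at h1
        exact OnePoint.infty_ne_coe _ h1
      rw [rat_coe_of_ne hCz] at h1
      have h2 : A.eval (p 1) / C.eval (p 1) = v := OnePoint.coe_injective h1
      apply (key (p 1) (mem_ball_self hr1)).1
      rw [← h2]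
      field_simp
      ring
    have hder : HasDerivAt (fun z => ((gg a b)^[n] z - v)⁻¹)
        (-(∏ k ∈ Finset.range n, Pool.Agent.H61.TT.dg a b (p (k + 1))) /
          ((gg a b)^[n] (p 1) - v) ^ 2) (p 1) := by
      refine (g2.sub_const v).fun_inv ?_
      rw [g1]
      exact hne
    have hdeq : deriv (fun z => C.eval z / (A.eval z - v * C.eval z)) (p 1) =
        -(∏ k ∈ Finset.range n, Pool.Agent.H61.TT.dg a b (p (k + 1))) /
          (p (n + 1) - v) ^ 2 := by
      rw [hloc.deriv_eq, hder.deriv, g1]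
    rw [hdeq, norm_div, norm_neg, norm_pow, div_le_iff₀ (pow_pos (norm_pos_iff.2 hne) 2)] at hC
    have hB1 := congrArg norm (mn_bprod hs n)
    rw [norm_mul, norm_one] at hB1
    have h8 : ‖p (n + 1) - v‖ ≤ R + ‖v‖ := (norm_sub_le _ _).trans (by gcongr; exact hR _)
    calc (1 : ℝ) = ‖B n‖ * ‖∏ k ∈ Finset.range n, Pool.Agent.H61.TT.dg a b (p (k + 1))‖ := hB1.symm
      _ ≤ ‖B n‖ * (1 / ε / (r1 / 2) * ‖p (n + 1) - v‖ ^ 2) := by gcongr
      _ ≤ ‖B n‖ * (1 / ε / (r1 / 2) * (R + ‖v‖) ^ 2) := by gcongr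
  have hz := hs.sm.tendsto_atTop_zero.mul_const (1 / ε / (r1 / 2) * (R + ‖v‖) ^ 2)
  rw [zero_mul] at hz
  have := ge_of_tendsto' hz hK
  linarith

end Pool.Agent.H44.RR
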