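import Pool.Agent.H44.RR.MN1

/-!
# Module MN2: the same with an open set of points with finite orbits

PROOF. `n, y, w` from `mn1`. By continuity of `(rat a b)^[n]` (`rat_continuous`) there is an open `O1 ∋ y` in `ball (p 0) r` with `(rat a b)^[n] z ∈ (↑) '' V` for `z ∈ O1`. The points `z : ℂ` with
`(rat a b)^[j] z = ∞` for some `j < n` form a finite set (for each `j`: `rat_iter` gives coprime `A, C` with `(rat a b)^[j] z = rat A C z`, infinite iff `C.eval z = 0`; `C ≠ 0` as the degree is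
`d ^ j ≥ 1` (for `j = 0` the set is empty)). So `O = O1` minus this finite set is open and nonempty. For `z ∈ O` all `(rat a b)^[j] z`, `j ≤ n`, are finite; by induction
`(rat a b)^[j] z = (gg a b)^[j] z` and `b.eval ((gg a b)^[j] z) ≠ 0` for `j < n` (`rat_coe`, `pt`: `rat a b z` is infinite iff `b.eval z = 0`).
-/

set_option autoImplicit false

open MeasureTheory Metric Set Polynomial Filter Topology

namespace Pool.Agent.H44.RR

open Pool.Agent.H61.TT Pool.Agent.H35.EX Pool.Agent.H91.CE Pool.Agent.H44.Fatou Pool.Agent.H32.BT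

variable {d : ℕ} {a b : Polynomial ℂ} {p B : ℕ → ℂ}

private theorem mn2_fin (h : RatD d a b) (j : ℕ) :
    {z : ℂ | (rat a b)^[j] (z : OnePoint ℂ) = OnePoint.infty}.Finite := by
  have hd : 1 ≤ max a.natDegree b.natDegree := by
    rw [h.deg]
    exact le_trans (by norm_num) h.hd
  obtain ⟨A, C, hcop, hdeg, hrat⟩ := Pool.Agent.H79.PJ.rat_iter h.cop hd j
  have hC : C ≠ 0 := by
    rintro rfl
    have hu : IsUnit A := isCoprime_zero_right.1 hcop
    have h1 : A.natDegree = 0 := natDegree_eq_zero_of_isUnit hu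
    have h2 : max A.natDegree (0 : Polynomial ℂ).natDegree =
      (max a.natDegree b.natDegree) ^ j := hdeg
    rw [h1, natDegree_zero, max_self] at h2
    have h3 : 1 ≤ (max a.natDegree b.natDegree) ^ j := Nat.one_le_pow _ _ hd
    omega
  refine (C.rootSet_finite ℂ).subset ?_
  intro z hz
  rw [mem_rootSet]
  refine ⟨hC, ?_⟩
  have hz' : rat A C (z : OnePoint ℂ) = OnePoint.infty := by
    rw [hrat]
    exact hz
  by_contra hne
  have hne' : C.eval z ≠ 0 := by
    intro h0
    apply hne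
    simpa [aeval_def] using h0
  rw [rat_coe_of_ne hne'] at hz'
  exact OnePoint.coe_ne_infty _ hz'

theorem mn2 (h : RatD d a b) (hs : Ser d a b p B) {V : Set ℂ} (hV : IsOpen V) (hVn : V.Nonempty)
    {r : ℝ} (hr : 0 < r) : ∃ (n : ℕ) (O : Set ℂ), IsOpen O ∧ O.Nonempty ∧ O ⊆ ball (p 0) r ∧
      ∀ y ∈ O, (∀ j < n, b.eval ((gg a b)^[j] y) ≠ 0) ∧ (gg a b)^[n] y ∈ V := by
  obtain ⟨n, y, hy, w, hw, hyw⟩ := mn1 h hs hV hVn hr
  have hF : Continuous ((rat a b)^[n]) := (rat_continuous h.cop).iterate n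
  have hcoe : IsOpen ((fun z : ℂ => (z : OnePoint ℂ)) '' V) :=
    OnePoint.isOpenEmbedding_coe.isOpenMap V hV
  have hO2 : IsOpen {z : ℂ | (rat a b)^[n] (z : OnePoint ℂ) ∈
      (fun z : ℂ => (z : OnePoint ℂ)) '' V} :=
    hcoe.preimage (hF.comp OnePoint.continuous_coe)
  have hO1 : IsOpen (ball (p 0) r ∩ {z : ℂ | (rat a b)^[n] (z : OnePoint ℂ) ∈
      (fun z : ℂ => (z : OnePoint ℂ)) '' V}) := isOpen_ball.inter hO2
  have hS : (⋃ j ∈ Finset.range n, {z : ℂ | (rat a b)^[j] (z : OnePoint ℂ) =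
      OnePoint.infty}).Finite :=
    Set.Finite.biUnion (Finset.range n).finite_toSet fun j _ => mn2_fin h j
  refine ⟨n, (ball (p 0) r ∩ {z : ℂ | (rat a b)^[n] (z : OnePoint ℂ) ∈
      (fun z : ℂ => (z : OnePoint ℂ)) '' V}) ∩
      (⋃ j ∈ Finset.range n, {z : ℂ | (rat a b)^[j] (z : OnePoint ℂ) = OnePoint.infty})ᶜ,
    hO1.inter hS.isClosed.isOpen_compl, ?_, ?_, ?_⟩
  · exact (hS.countable.dense_compl ℂ).inter_open_nonempty _ hO1 ⟨y, hy, w, hw, hyw.symm⟩
  · exact fun z hz => hz.1.1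
  · rintro z ⟨⟨-, hzV⟩, hzS⟩
    have hfin : ∀ j ≤ n, (rat a b)^[j] (z : OnePoint ℂ) ≠ OnePoint.infty := by
      intro j hj
      rcases hj.lt_or_eq with hj | rfl
      · intro h0
        apply hzS
        simp only [Set.mem_iUnion, Finset.mem_range]
        exact ⟨j, hj, h0⟩
      · obtain ⟨v, -, hv⟩ := hzV
        rw [← hv]
        exact OnePoint.coe_ne_infty v
    have key : ∀ j ≤ n, (rat a b)^[j] (z : OnePoint ℂ) = (((gg a b)^[j] z : ℂ) : OnePoint ℂ) ∧
        ∀ i < j, b.eval ((gg a b)^[i] z) ≠ 0 := by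
      intro j
      induction j with
      | zero => exact fun _ => ⟨rfl, fun i hi => absurd hi (Nat.not_lt_zero i)⟩
      | succ j ih =>
        intro hj
        obtain ⟨h1, h2⟩ := ih (by omega)
        have h3 : (rat a b)^[j + 1] (z : OnePoint ℂ) =
            rat a b (((gg a b)^[j] z : ℂ) : OnePoint ℂ) := by
          rw [Function.iterate_succ_apply', h1]
        have h4 : b.eval ((gg a b)^[j] z) ≠ 0 := by
          intro h0
          apply hfin (j + 1) hj
          rw [h3, rat_coe]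
          unfold pt
          rw [if_pos h0]
        refine ⟨?_, ?_⟩
        · rw [h3, Function.iterate_succ_apply']
          exact rat_coe_of_ne h4
        · intro i hi
          rcases (Nat.lt_succ_iff.1 hi).lt_or_eq with hi | rfl
          · exact h2 i hi
          · exact h4
    obtain ⟨h1, h2⟩ := key n le_rfl
    refine ⟨h2, ?_⟩
    obtain ⟨v, hv, hv2⟩ := hzV
    rw [h1] at hv2
    have h3 : v = (gg a b)^[n] z := OnePoint.coe_injective hv2
    rwa [← h3]

end Pool.Agent.H44.RR
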