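import Pool.Agent.H44.RR.ANQ

/-!
# Module NZC: `qq` does not vanish near the critical point

PROOF. `qq` is analytic at `c = p 0` (`qq_an`); by `AnalyticAt.eventually_eq_zero_or_eventually_ne_zero` it is enough to exclude that `qq = 0` on a ball `ball c r0`. This is the proof
of `ser_falseD` (H91/CE/SERF; copy the file): `m` from `ser_tq`, `qs_taylor` for `β = B`, `p ∘ succ`, `c`; take `ζ0 = 0`, `r = 1` and for every small `δ < r0` (instead of the sequence `δ j` there):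
`q = 0` on `ball c δ`, so the integral of `‖∑ l < m, t l * (x - c) ^ l‖ₑ` over `ball c δ` divided by `δ ^ (m + 1)` tends to `0` by `qs_taylor`; by scaling (`serf_map`, private there: copy) and `poly_lead`
(H91/CE/POLB) it is at least `C ‖t (m - 1)‖`; so `t (m - 1) = 0`, against `ser_tq`.
-/

set_option autoImplicit false

open MeasureTheory Metric Set Polynomial Filter Topology

namespace Pool.Agent.H44.RR

open Pool.Agent.H61.TT Pool.Agent.H35.EX Pool.Agent.H91.CE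

variable {d : ℕ} {a b : Polynomial ℂ} {p B : ℕ → ℂ}

private theorem nzc_map (c : ℂ) {δ : ℝ} (hδ : 0 < δ) :
    Measure.map (fun ζ : ℂ => c + δ * ζ) volume =
      ENNReal.ofReal ((δ ^ 2)⁻¹) • (volume : Measure ℂ) := by
  have h1 : (fun ζ : ℂ => c + δ * ζ) = (fun x : ℂ => c + x) ∘ (fun ζ : ℂ => δ • ζ) := by
    funext ζ
    simp [Complex.real_smul]
  rw [h1, ← Measure.map_map (measurable_const_add c) (measurable_const_smul δ),
    Measure.map_addHaar_smul volume hδ.ne', Complex.finrank_real_complex, Measure.map_smul,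
    map_add_left_eq_self, abs_of_pos (by positivity)]

theorem qq_nzc (h : RatD d a b) (hs : Ser d a b p B) (hc : p 0 ∉ Xc p) :
    ∀ᶠ z in 𝓝[≠] (p 0), qq p B z ≠ 0 := by
  classical
  rcases (qq_an hs.sm hc).eventually_eq_zero_or_eventually_ne_zero with hz | hz
  swap
  · exact hz
  exfalso
  obtain ⟨r0, hr0, hball⟩ := Metric.eventually_nhds_iff_ball.1 hz
  obtain ⟨R, hR⟩ := hs.pb
  obtain ⟨m, hm, hne, hsm, htq⟩ := ser_tq h hs
  obtain ⟨C, hC, hpol⟩ := poly_lead hm 0 (one_pos : (0 : ℝ) < 1)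
  have htay := qs_taylor (β := B) (p := fun k => p (k + 1)) (c := p 0) (R := R) hm hne
    (fun k => hR (k + 1)) hs.sm hsm
  obtain ⟨t, ht⟩ : ∃ t : ℕ → ℂ, t = tq B (fun k => p (k + 1)) (p 0) := ⟨_, rfl⟩
  obtain ⟨c, hc'⟩ : ∃ c : ℂ, c = p 0 := ⟨_, rfl⟩
  obtain ⟨q, hq⟩ : ∃ q : ℂ → ℂ, q = qs B (fun k => p (k + 1)) := ⟨_, rfl⟩
  have hqm : Measurable q := by
    rw [hq]
    exact qs_meas _ _
  have hq0 : ∀ x ∈ ball c r0, q x = 0 := by
    intro x hx
    rw [hq]
    rw [hc'] at hx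
    exact hball x hx
  rw [← ht] at htq
  rw [← ht, ← hc', ← hq] at htay
  have hFm : Measurable fun x : ℂ => ‖q x + ∑ l ∈ Finset.range m, t l * (x - c) ^ l‖ₑ := by
    apply Measurable.enorm
    apply hqm.add
    apply Finset.measurable_fun_sum
    intro l _
    exact ((measurable_id.sub_const c).pow_const l).const_mul (t l)
  have key : ∀ D : ℝ, 0 < D → D < r0 → ENNReal.ofReal (C * ‖t (m - 1)‖) ≤
      (∫⁻ x in ball c D, ‖q x + ∑ l ∈ Finset.range m, t l * (x - c) ^ l‖ₑ) /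
        ENNReal.ofReal (D ^ (m + 1)) := by
    intro D hd hDr
    have hmap := nzc_map c hd
    have hTm : Measurable fun ζ : ℂ => c + D * ζ := (measurable_id.const_mul (D : ℂ)).const_add c
    have hsub : ∀ ζ : ℂ, ζ ∈ ball (0 : ℂ) 1 → c + D * ζ ∈ ball c D := by
      intro ζ hζ
      rw [mem_ball_zero_iff] at hζ
      rw [mem_ball_iff_norm, add_sub_cancel_left, norm_mul,
        Complex.norm_real, Real.norm_of_nonneg hd.le]
      nlinarith
    have hzero : ∀ ζ : ℂ, ζ ∈ ball (0 : ℂ) 1 → q (c + D * ζ) = 0 := fun ζ hζ =>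
      hq0 _ (ball_subset_ball hDr.le (hsub ζ hζ))
    have h1 := hpol (fun l => t l * (D : ℂ) ^ l)
    have h2 : ∫⁻ ζ in ball (0 : ℂ) 1, ‖∑ l ∈ Finset.range m, t l * (D : ℂ) ^ l * ζ ^ l‖ₑ ≤
        ENNReal.ofReal ((D ^ 2)⁻¹) *
          ∫⁻ x in ball c D, ‖q x + ∑ l ∈ Finset.range m, t l * (x - c) ^ l‖ₑ := by
      calc ∫⁻ ζ in ball (0 : ℂ) 1, ‖∑ l ∈ Finset.range m, t l * (D : ℂ) ^ l * ζ ^ l‖ₑ
          = ∫⁻ ζ in ball (0 : ℂ) 1, ‖q (c + D * ζ) +
              ∑ l ∈ Finset.range m, t l * ((c + D * ζ) - c) ^ l‖ₑ := by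
            apply setLIntegral_congr_fun measurableSet_ball
            intro ζ h4
            beta_reduce
            rw [hzero ζ h4, zero_add]
            congr 1
            refine Finset.sum_congr rfl fun l _ => ?_
            rw [add_sub_cancel_left, mul_pow, mul_assoc]
        _ ≤ ∫⁻ ζ in (fun ζ : ℂ => c + D * ζ) ⁻¹' (ball c D), ‖q (c + D * ζ) +
              ∑ l ∈ Finset.range m, t l * ((c + D * ζ) - c) ^ l‖ₑ := by
            apply lintegral_mono_set
            intro ζ hζ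
            exact hsub ζ hζ
        _ = ∫⁻ x in ball c D, ‖q x + ∑ l ∈ Finset.range m, t l * (x - c) ^ l‖ₑ
              ∂(Measure.map (fun ζ : ℂ => c + D * ζ) volume) :=
            (setLIntegral_map measurableSet_ball hFm hTm).symm
        _ = _ := by
            rw [hmap, Measure.restrict_smul, lintegral_smul_measure, smul_eq_mul]
    have h3 := h1.trans h2
    have h4 : ‖t (m - 1) * (D : ℂ) ^ (m - 1)‖ = ‖t (m - 1)‖ * D ^ (m - 1) := by
      rw [norm_mul, norm_pow, Complex.norm_real, Real.norm_of_nonneg hd.le]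
    rw [h4] at h3
    have hDp : 0 < D ^ (m + 1) := by positivity
    rw [ENNReal.le_div_iff_mul_le (Or.inl (by
      rw [Ne, ENNReal.ofReal_eq_zero, not_le]
      exact hDp)) (Or.inl ENNReal.ofReal_ne_top)]
    have h5 : ENNReal.ofReal (C * ‖t (m - 1)‖) * ENNReal.ofReal (D ^ (m + 1)) =
        ENNReal.ofReal (C * (‖t (m - 1)‖ * D ^ (m - 1))) * ENNReal.ofReal (D ^ 2) := by
      rw [← ENNReal.ofReal_mul (by positivity), ← ENNReal.ofReal_mul (by positivity)]
      congr 1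
      have h6 : m + 1 = (m - 1) + 2 := by omega
      rw [h6, pow_add]
      ring
    rw [h5]
    have h7 : ENNReal.ofReal ((D ^ 2)⁻¹) * ENNReal.ofReal (D ^ 2) = 1 := by
      rw [← ENNReal.ofReal_mul (by positivity), inv_mul_cancel₀ (by positivity),
        ENNReal.ofReal_one]
    calc ENNReal.ofReal (C * (‖t (m - 1)‖ * D ^ (m - 1))) * ENNReal.ofReal (D ^ 2)
        ≤ (ENNReal.ofReal ((D ^ 2)⁻¹) *
          ∫⁻ x in ball c D, ‖q x + ∑ l ∈ Finset.range m, t l * (x - c) ^ l‖ₑ) *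
            ENNReal.ofReal (D ^ 2) := mul_le_mul_left h3 _
      _ = (ENNReal.ofReal ((D ^ 2)⁻¹) * ENNReal.ofReal (D ^ 2)) *
          ∫⁻ x in ball c D, ‖q x + ∑ l ∈ Finset.range m, t l * (x - c) ^ l‖ₑ := by ring
      _ = _ := by rw [h7, one_mul]
  have hev : ∀ᶠ D : ℝ in 𝓝[>] 0, ENNReal.ofReal (C * ‖t (m - 1)‖) ≤
      (∫⁻ x in ball c D, ‖q x + ∑ l ∈ Finset.range m, t l * (x - c) ^ l‖ₑ) /
        ENNReal.ofReal (D ^ (m + 1)) := by
    have h8 : Set.Ioo (0 : ℝ) r0 ∈ 𝓝[>] (0 : ℝ) := Ioo_mem_nhdsGT hr0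
    filter_upwards [h8] with D hD
    exact key D hD.1 hD.2
  have h2 : ENNReal.ofReal (C * ‖t (m - 1)‖) ≤ 0 := ge_of_tendsto htay hev
  have h3 : C * ‖t (m - 1)‖ ≤ 0 := ENNReal.ofReal_eq_zero.1 (le_antisymm h2 (by simp))
  have h4 : 0 < ‖t (m - 1)‖ := norm_pos_iff.2 htq
  have h5 : 0 < C * ‖t (m - 1)‖ := mul_pos hC h4
  linarith

end Pool.Agent.H44.RR
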