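import Pool.Agent.H44.RR.NZC
import Pool.Agent.H44.RR.MN2
import Pool.Agent.H44.RR.AL2

/-!
# Module NZP: `qq` does not vanish identically near any point outside `Xc p`

PROOF. Let `ball y ρ` be disjoint from `Xc p`; `qq` is analytic on it (`qq_an`). If the conclusion fails, `qq` vanishes near `y` (`AnalyticAt.eventually_eq_zero_or_eventually_ne_zero`), so on the whole
ball (identity theorem: `AnalyticOnNhd.eqOn_zero_of_preconnected_of_eventuallyEq_zero`). Let `r` be such that `qq ≠ 0` on `ball (p 0) r` except at `p 0` (`qq_nzc`). `mn2` with `V = ball y ρ`: `n, O`.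
`O` is open and nonempty, so of positive measure; for almost every `z ∈ O`: `z ≠ p 0`, `qq z ≠ 0`, so by `al_it` `qq ((gg a b)^[n] z) ≠ 0`, but `(gg a b)^[n] z ∈ ball y ρ`: contradiction.
-/

set_option autoImplicit false

open MeasureTheory Metric Set Polynomial Filter Topology

namespace Pool.Agent.H44.RR

open Pool.Agent.H61.TT Pool.Agent.H35.EX Pool.Agent.H91.CE

variable {d : ℕ} {a b : Polynomial ℂ} {p B : ℕ → ℂ}

theorem qq_nzp (h : RatD d a b) (hs : Ser d a b p B) (hc : p 0 ∉ Xc p) {y : ℂ} (hy : y ∉ Xc p) :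
    ∀ᶠ z in 𝓝[≠] y, qq p B z ≠ 0 := by
  obtain ⟨ρ, hρ, hsub⟩ := Metric.isOpen_iff.mp (isClosed_closure.isOpen_compl :
    IsOpen (Xc p)ᶜ) y hy
  have hA : AnalyticOnNhd ℂ (qq p B) (ball y ρ) := fun z hz => qq_an hs.sm (hsub hz)
  rcases (hA y (mem_ball_self hρ)).eventually_eq_zero_or_eventually_ne_zero with h0 | h0
  · exfalso
    have hZ : EqOn (qq p B) 0 (ball y ρ) :=
      hA.eqOn_zero_of_preconnected_of_eventuallyEq_zero (convex_ball y ρ).isPreconnected
        (mem_ball_self hρ) h0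
    obtain ⟨r, hr, hr2⟩ := Metric.eventually_nhds_iff_ball.mp
      (eventually_nhdsWithin_iff.mp (qq_nzc h hs hc))
    obtain ⟨n, O, hO, hOn, hOs, hOi⟩ := mn2 h hs (isOpen_ball : IsOpen (ball y ρ))
      ⟨y, mem_ball_self hρ⟩ hr
    have hae : ∀ᵐ z : ℂ, z ∉ O := by
      filter_upwards [al_it h hs, (Set.countable_singleton (p 0)).ae_notMem volume]
        with z h1 h2 hz
      exact h1 n (hOi z hz).1 (hr2 z (hOs hz) h2) (hZ (hOi z hz).2)
    have h2 : volume O = 0 := by
      rw [ae_iff] at hae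
      simpa using hae
    exact (hO.measure_pos volume hOn).ne' h2
  · exact h0

end Pool.Agent.H44.RR
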