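import Pool.Agent.H35.EX.SerM
import Pool.Agent.H91.CE.SERT
import Pool.Agent.H91.CE.POLB

/-!
# Module RDef: the quadratic differential of one critical orbit

`Ser d a b p B` (H35/EX/SerD): `p 0` is a critical point of `gg a b = a / b`, `p (k + 1)` its orbit, `B k = 1 / (g^k)'(p 1)`.
`qq p B x = sum_k B k / (x - p (k + 1))` is fixed by the push forward; `Xc p` is the closure of the orbit of the critical value.
-/

set_option autoImplicit false

open MeasureTheory Metric Set Polynomial Filter Topology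

namespace Pool.Agent.H44.RR

open Pool.Agent.H61.TT Pool.Agent.H35.EX Pool.Agent.H91.CE

variable {d : ℕ} {a b : Polynomial ℂ} {p B : ℕ → ℂ}

/-- the quadratic differential of the critical orbit: simple poles at `p (k + 1)` -/
noncomputable def qq (p B : ℕ → ℂ) (x : ℂ) : ℂ := qs B (fun k => p (k + 1)) x

/-- the closure of the orbit of the critical value -/
def Xc (p : ℕ → ℂ) : Set ℂ := closure (Set.range fun k => p (k + 1))

/-- the total residue of `qq` at the point `x` -/
noncomputable def Rs (p B : ℕ → ℂ) (x : ℂ) : ℂ := by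
  classical
  exact ∑' k, if p (k + 1) = x then B k else 0

theorem qq_eq (hs : Ser d a b p B) (x : ℂ) : qs (sbe a b p B) p x = qq p B x := by
  unfold qq qs
  have h1 : Function.Injective (fun k : ℕ => k + 1) := fun i j h => Nat.succ_injective h
  have h2 : Function.support (fun k => sbe a b p B k / (x - p k)) ⊆
      Set.range (fun k : ℕ => k + 1) := by
    intro k hk
    cases k with
    | zero =>
      exfalso
      apply hk
      change sbe a b p B 0 / (x - p 0) = 0
      rw [ser_zero hs, zero_div]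
    | succ k => exact ⟨k, rfl⟩
  rw [← h1.tsum_eq h2]
  refine tsum_congr fun k => ?_
  rw [ser_succ hs]

theorem qq_meas (p B : ℕ → ℂ) : Measurable (qq p B) := qs_meas _ _

theorem qq_fin (h : RatD d a b) (hs : Ser d a b p B) : ∫⁻ x, ‖qq p B x‖ₑ ≠ ⊤ := by
  obtain ⟨R, hR⟩ := hs.pb
  have hR0 : 0 ≤ R := (norm_nonneg _).trans (hR 0)
  have hfin := qs_fin hR0 hR (ser_sum hs) (ser_sum0 h hs) (ser_sum1 h hs)
  simp_rw [qq_eq hs] at hfin
  exact hfin

theorem qq_push (h : RatD d a b) (hs : Ser d a b p B) :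
    ∀ᵐ x : ℂ, qq p B x = ∑ y ∈ fs a b x, qq p B y / dg a b y ^ 2 := by
  filter_upwards [qs_push h hs] with x hx
  simp_rw [qq_eq hs] at hx
  exact hx

theorem qq_mass (h : RatD d a b) (hs : Ser d a b p B) {T : Set ℂ} (hT : MeasurableSet T) :
    ∫⁻ x in pre a b T, ‖qq p B x‖ₑ = ∫⁻ x in T, ‖qq p B x‖ₑ :=
  inv_mass h (qq_meas _ _) (qq_fin h hs) (qq_push h hs) hT

theorem mem_Xc (p : ℕ → ℂ) (k : ℕ) : p (k + 1) ∈ Xc p := subset_closure ⟨k, rfl⟩

theorem isClosed_Xc (p : ℕ → ℂ) : IsClosed (Xc p) := isClosed_closure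

end Pool.Agent.H44.RR
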